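import Pool.Agent.H199BE.Stmts

/-!
Task G (TaskAlgNec) of the project H199-BE.
-/

set_option autoImplicit false

namespace Pool.Agent.H199BE

namespace AlgNec

theorem pos_of (x y k : ℝ) (hs : 2 * k < x + y) (hp : 1 + k ^ 2 ≤ x * y) : 0 < x ∧ 0 < y := by
  have h0 : 0 < x * y := by nlinarith [sq_nonneg k]
  rcases pos_and_pos_or_neg_and_neg_of_mul_pos h0 with h | h
  · exact h
  · exfalso
    have h1 : x + y < 0 := by linarith [h.1, h.2]
    have h2 : (x + y) ^ 2 < (2 * k) ^ 2 := by nlinarith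
    nlinarith [sq_nonneg (x - y)]

theorem real_part (a A b B : ℝ) (hA : 0 < A) (hB : 0 < B) (hS : a * B + b * A ≤ 0) :
    ∃ k X1 Y1 X2 Y2 : ℝ, 0 < X1 ∧ 0 < Y1 ∧ 0 < X2 ∧ 0 < Y2 ∧ X1 * X2 = 1 + k ^ 2 ∧
      1 + k ^ 2 ≤ Y1 * Y2 ∧
      a * (Y1 + k) - A = k - X1 ∧ A * (Y1 + k) + a = 1 ∧
      b * (Y2 + k) - B = k - X2 ∧ B * (Y2 + k) + b = 1 := by
  set xA : ℝ := (a ^ 2 + A ^ 2 - a) / A with hxA
  set yA : ℝ := (1 - a) / A with hyA
  set xB : ℝ := (b ^ 2 + B ^ 2 - b) / B with hxB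
  set yB : ℝ := (1 - b) / B with hyB
  have exA : xA * A = a ^ 2 + A ^ 2 - a := by rw [hxA]; field_simp
  have eyA : yA * A = 1 - a := by rw [hyA]; field_simp
  have exB : xB * B = b ^ 2 + B ^ 2 - b := by rw [hxB]; field_simp
  have eyB : yB * B = 1 - b := by rw [hyB]; field_simp
  have hAB : 0 < A * B := mul_pos hA hB
  have hx : 0 < xA + xB := by
    have h1 : (xA + xB) * (A * B) = (a ^ 2 + A ^ 2) * B + (b ^ 2 + B ^ 2) * A -
        (a * B + b * A) := by
      linear_combination B * exA + A * exB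
    have h2 : 0 < (xA + xB) * (A * B) := by
      rw [h1]
      have h3 : 0 < (a ^ 2 + A ^ 2) * B := by positivity
      have h4 : 0 < (b ^ 2 + B ^ 2) * A := by positivity
      linarith
    exact (mul_pos_iff_of_pos_right hAB).1 h2
  have hy : 0 < yA + yB := by
    have h1 : (yA + yB) * (A * B) = B + A - (a * B + b * A) := by
      linear_combination B * eyA + A * eyB
    have h2 : 0 < (yA + yB) * (A * B) := by
      rw [h1]
      linarith
    exact (mul_pos_iff_of_pos_right hAB).1 h2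
  have hmain : 0 ≤ (xA * xB - 1) * (yA + yB) + (yA * yB - 1) * (xA + xB) := by
    have h1 : ((xA * xB - 1) * (yA + yB) + (yA * yB - 1) * (xA + xB)) * (A * B) ^ 2 =
        -(a * B + b * A) * (((1 - a) ^ 2 + A ^ 2) * ((1 - b) ^ 2 + B ^ 2)) := by
      have e : ((xA * xB - 1) * (yA + yB) + (yA * yB - 1) * (xA + xB)) * (A * B) ^ 2 =
          ((xA * A) * (xB * B) - A * B) * ((yA * A) * B + (yB * B) * A) +
          ((yA * A) * (yB * B) - A * B) * ((xA * A) * B + (xB * B) * A) := by ring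
      rw [e, exA, eyA, exB, eyB]
      ring
    have h2 : 0 ≤ -(a * B + b * A) * (((1 - a) ^ 2 + A ^ 2) * ((1 - b) ^ 2 + B ^ 2)) :=
      mul_nonneg (by linarith) (by positivity)
    rw [← h1] at h2
    exact nonneg_of_mul_nonneg_left h2 (by positivity)
  set k : ℝ := (1 - xA * xB) / (xA + xB) with hk
  have ek : k * (xA + xB) = 1 - xA * xB := by rw [hk]; field_simp
  have hX : (k + xA) * (k + xB) = 1 + k ^ 2 := by linear_combination ek
  have hY : 1 + k ^ 2 ≤ (yA - k) * (yB - k) := by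
    have h1 : 0 ≤ ((yA - k) * (yB - k) - (1 + k ^ 2)) * (xA + xB) := by
      have e : ((yA - k) * (yB - k) - (1 + k ^ 2)) * (xA + xB) =
          (xA * xB - 1) * (yA + yB) + (yA * yB - 1) * (xA + xB) := by
        linear_combination (-(yA + yB)) * ek
      rw [e]
      exact hmain
    have h2 := nonneg_of_mul_nonneg_left h1 hx
    linarith
  have pX := pos_of (k + xA) (k + xB) k (by linarith) hX.ge
  have pY := pos_of (yA - k) (yB - k) (-k) (by linarith) (by rw [neg_sq]; exact hY)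
  refine ⟨k, k + xA, yA - k, k + xB, yB - k, pX.1, pY.1, pX.2, pY.2, hX, hY, ?_, ?_, ?_, ?_⟩
  · have h : a * yA - A = - xA := by
      have h1 : (a * yA - A + xA) * A = 0 := by linear_combination a * eyA + exA
      have h2 := (mul_eq_zero.1 h1).resolve_right hA.ne'
      linarith
    linear_combination h
  · linear_combination eyA
  · have h : b * yB - B = - xB := by
      have h1 : (b * yB - B + xB) * B = 0 := by linear_combination b * eyB + exB
      have h2 := (mul_eq_zero.1 h1).resolve_right hB.ne'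
      linarith
    linear_combination h
  · linear_combination eyB

theorem form_eq (μ : ℝ) (p1 q1 p2 q2 f1 f2 : ℂ) : Form μ p1 q1 p2 q2 f1 f2 =
    (p1 * ((μ : ℂ) * (f1 * (starRingEnd ℂ) f1) +
        (Real.sqrt (μ * (1 - μ)) : ℂ) * f2 * (starRingEnd ℂ) f1)
      + q1 * ((1 - (μ : ℂ)) * (f1 * (starRingEnd ℂ) f1) -
        (Real.sqrt (μ * (1 - μ)) : ℂ) * f2 * (starRingEnd ℂ) f1)
      + p2 * ((Real.sqrt (μ * (1 - μ)) : ℂ) * f1 * (starRingEnd ℂ) f2 +
        (1 - (μ : ℂ)) * (f2 * (starRingEnd ℂ) f2))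
      + q2 * (-((Real.sqrt (μ * (1 - μ)) : ℂ) * f1 * (starRingEnd ℂ) f2) +
        (μ : ℂ) * (f2 * (starRingEnd ℂ) f2))).re := by
  unfold Form
  congr 1
  push_cast
  ring

theorem core (p1 q1 p2 q2 α β : ℂ) (h1 : p1 = α * q1) (h2 : p2 = β * q2) (hp2 : 0 < p2.re)
    (hα : 0 < α.im) (hβ : β.im < 0) (hS : (α * (starRingEnd ℂ) β).im ≤ 0) :
    ∃ μ : ℝ, 0 < μ ∧ μ < 1 ∧ ∃ f1 f2 : ℂ, f1 ≠ 0 ∧ Form μ p1 q1 p2 q2 f1 f2 ≤ 0 := by
  obtain ⟨k, X1, Y1, X2, Y2, pX1, pY1, pX2, pY2, eX, eY, e1, e2, e3, e4⟩ :=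
    real_part α.re α.im β.re (-β.im) hα (by linarith) (by
      rw [Complex.mul_im, Complex.conj_re, Complex.conj_im] at hS
      linarith)
  set K : ℂ := ⟨k, 1⟩ with hK
  have hKn : Complex.normSq K = 1 + k ^ 2 := by
    rw [hK, Complex.normSq_mk]; ring
  have i1 : α * ((Y1 : ℂ) + K) = K - X1 := by
    apply Complex.ext
    · simp only [Complex.mul_re, Complex.add_re, Complex.add_im, Complex.ofReal_re,
        Complex.ofReal_im, Complex.sub_re, hK]
      linarith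
    · simp only [Complex.mul_im, Complex.add_re, Complex.add_im, Complex.ofReal_re,
        Complex.ofReal_im, Complex.sub_im, hK]
      linarith
  have i2 : β * ((Y2 : ℂ) + (starRingEnd ℂ) K) = (starRingEnd ℂ) K - X2 := by
    apply Complex.ext
    · simp only [Complex.mul_re, Complex.add_re, Complex.add_im, Complex.ofReal_re,
        Complex.ofReal_im, Complex.sub_re, Complex.conj_re, Complex.conj_im, hK]
      linarith
    · simp only [Complex.mul_im, Complex.add_re, Complex.add_im, Complex.ofReal_re,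
        Complex.ofReal_im, Complex.sub_im, Complex.conj_re, Complex.conj_im, hK]
      linarith
  set F1 : ℝ := X1 + Y1 with hF1
  have pF1 : 0 < F1 := by rw [hF1]; linarith
  set μ : ℝ := Y1 / F1 with hμ
  have m1 : μ * F1 = Y1 := by rw [hμ]; field_simp
  have m2 : (1 - μ) * F1 = X1 := by rw [sub_mul, m1, hF1]; ring
  have pμ : 0 < μ := div_pos pY1 pF1
  have pμ' : 0 < 1 - μ := by
    by_contra h
    push Not at h
    nlinarith
  set c : ℝ := Real.sqrt (μ * (1 - μ)) with hc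
  have hcp : 0 < c := Real.sqrt_pos.2 (mul_pos pμ pμ')
  have hc2 : c ^ 2 = μ * (1 - μ) := Real.sq_sqrt (mul_pos pμ pμ').le
  set s : ℝ := Real.sqrt F1 with hs
  have hsp : 0 < s := Real.sqrt_pos.2 pF1
  have hs2 : s ^ 2 = F1 := Real.sq_sqrt pF1.le
  set Y2' : ℝ := (1 + k ^ 2) / Y1 with hY2'
  have eY2' : Y2' * Y1 = 1 + k ^ 2 := by rw [hY2']; field_simp
  have hY2le : Y2' ≤ Y2 := by
    by_contra h
    push Not at h
    nlinarith
  set F2 : ℝ := X2 + Y2' with hF2
  have n1 : μ * F2 = X2 := by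
    have h : (μ * F2) * F1 = X2 * F1 := by
      rw [mul_right_comm, m1, hF2, hF1]
      linear_combination eY2' - eX
    exact mul_right_cancel₀ pF1.ne' h
  have n2 : (1 - μ) * F2 = Y2' := by rw [sub_mul, n1, hF2]; ring
  set f2 : ℂ := K / ((c * s : ℝ) : ℂ) with hf2
  have hcs : ((c * s : ℝ) : ℂ) ≠ 0 := by
    have : c * s ≠ 0 := (mul_pos hcp hsp).ne'
    exact_mod_cast this
  have z1 : (c : ℂ) * f2 * (starRingEnd ℂ) (s : ℂ) = K := by
    rw [Complex.conj_ofReal, hf2]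
    have h : (c : ℂ) * (K / ((c * s : ℝ) : ℂ)) * (s : ℂ) = K * (((c * s : ℝ) : ℂ) /
        ((c * s : ℝ) : ℂ)) := by
      push_cast
      ring
    rw [h, div_self hcs, mul_one]
  have z2 : (c : ℂ) * (s : ℂ) * (starRingEnd ℂ) f2 = (starRingEnd ℂ) K := by
    rw [← z1, map_mul, map_mul, Complex.conj_conj, Complex.conj_ofReal]
    ring
  have z3 : (s : ℂ) * (starRingEnd ℂ) (s : ℂ) = ((F1 : ℝ) : ℂ) := by
    rw [Complex.conj_ofReal, ← Complex.ofReal_mul, ← sq, hs2]
  have z4 : f2 * (starRingEnd ℂ) f2 = ((F2 : ℝ) : ℂ) := by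
    rw [Complex.mul_conj, hf2, Complex.normSq_div, Complex.normSq_ofReal, hKn]
    congr 1
    have h : (c * s * (c * s)) * F2 = 1 + k ^ 2 := by
      have : c * s * (c * s) = (μ * F1) * (1 - μ) := by
        rw [← hs2]; linear_combination s ^ 2 * hc2
      rw [this, m1, mul_assoc, n2, mul_comm]
      exact eY2'
    rw [← h]
    have h0 : c * s * (c * s) ≠ 0 := by positivity
    field_simp
  refine ⟨μ, pμ, by linarith, (s : ℂ), f2, by exact_mod_cast hsp.ne', ?_⟩
  rw [form_eq]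
  rw [← hc, z1, z2, z3, z4]
  have w1 : (μ : ℂ) * ((F1 : ℝ) : ℂ) = (Y1 : ℂ) := by exact_mod_cast m1
  have w2 : (1 - (μ : ℂ)) * ((F1 : ℝ) : ℂ) = (X1 : ℂ) := by exact_mod_cast m2
  have w3 : (μ : ℂ) * ((F2 : ℝ) : ℂ) = (X2 : ℂ) := by exact_mod_cast n1
  have w4 : (1 - (μ : ℂ)) * ((F2 : ℝ) : ℂ) = (Y2' : ℂ) := by exact_mod_cast n2
  rw [w1, w2, w3, w4]
  have hfin : p1 * ((Y1 : ℂ) + K) + q1 * ((X1 : ℂ) - K) +
      p2 * ((starRingEnd ℂ) K + (Y2' : ℂ)) + q2 * (-(starRingEnd ℂ) K + (X2 : ℂ)) =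
      -(((Y2 - Y2' : ℝ) : ℂ) * p2) := by
    rw [h1, h2]
    push_cast
    linear_combination q1 * i1 + q2 * i2
  rw [hfin, Complex.neg_re, Complex.re_ofReal_mul]
  have : 0 ≤ (Y2 - Y2') * p2.re := mul_nonneg (by linarith) hp2.le
  linarith

theorem form_conj (μ : ℝ) (p1 q1 p2 q2 f1 f2 : ℂ) :
    Form μ ((starRingEnd ℂ) p1) ((starRingEnd ℂ) q1) ((starRingEnd ℂ) p2) ((starRingEnd ℂ) q2)
      ((starRingEnd ℂ) f1) ((starRingEnd ℂ) f2) = Form μ p1 q1 p2 q2 f1 f2 := by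
  unfold Form
  rw [← Complex.conj_re]
  congr 1
  simp only [map_add, map_mul, map_sub, map_neg, Complex.conj_conj, Complex.conj_ofReal]

open Filter Topology in
theorem lin_lim (a b γ : ℝ) (h : ∀ μ : ℝ, 0 < μ → μ < 1 → γ ≤ μ * a + (1 - μ) * b) :
    γ ≤ b := by
  have h1 : Tendsto (fun μ : ℝ => μ * a + (1 - μ) * b) (𝓝[>] 0) (𝓝 (0 * a + (1 - 0) * b)) := by
    have hc : Continuous fun μ : ℝ => μ * a + (1 - μ) * b := by fun_prop
    exact (hc.tendsto 0).mono_left nhdsWithin_le_nhds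
  have h2 : γ ≤ 0 * a + (1 - 0) * b := by
    refine ge_of_tendsto h1 ?_
    filter_upwards [Ioo_mem_nhdsGT (one_pos : (0 : ℝ) < 1)] with μ hμ
    exact h μ hμ.1 hμ.2
  linarith

theorem re_pos (p1 q1 p2 q2 : ℂ) (γ : ℝ) (hγ : 0 < γ)
    (hF : ∀ μ : ℝ, 0 < μ → μ < 1 → ∀ f1 f2 : ℂ,
      γ * (‖f1‖ ^ 2 + ‖f2‖ ^ 2) ≤ Form μ p1 q1 p2 q2 f1 f2) :
    0 < p1.re ∧ 0 < q1.re ∧ 0 < p2.re ∧ 0 < q2.re := by
  have e1 : ∀ μ : ℝ, Form μ p1 q1 p2 q2 1 0 = μ * p1.re + (1 - μ) * q1.re := by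
    intro μ
    rw [form_eq]
    simp only [map_one, mul_one, map_zero, mul_zero, add_zero, sub_zero, neg_zero]
    rw [Complex.add_re, mul_comm p1, mul_comm q1, Complex.re_ofReal_mul]
    congr 1
    rw [← Complex.ofReal_one, ← Complex.ofReal_sub, Complex.re_ofReal_mul]
  have e2 : ∀ μ : ℝ, Form μ p1 q1 p2 q2 0 1 = μ * q2.re + (1 - μ) * p2.re := by
    intro μ
    rw [form_eq]
    simp only [map_one, mul_one, map_zero, mul_zero, add_zero, sub_zero, neg_zero, zero_add]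
    rw [Complex.add_re, mul_comm p2, mul_comm q2, Complex.re_ofReal_mul, add_comm]
    congr 1
    rw [← Complex.ofReal_one, ← Complex.ofReal_sub, Complex.re_ofReal_mul]
  have g1 : ∀ μ : ℝ, 0 < μ → μ < 1 → γ ≤ μ * p1.re + (1 - μ) * q1.re := by
    intro μ h0 h1
    have h := hF μ h0 h1 1 0
    rw [e1] at h
    simpa using h
  have g2 : ∀ μ : ℝ, 0 < μ → μ < 1 → γ ≤ μ * q2.re + (1 - μ) * p2.re := by
    intro μ h0 h1
    have h := hF μ h0 h1 0 1
    rw [e2] at h
    simpa using h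
  have k1 := lin_lim _ _ _ g1
  have k2 := lin_lim q1.re p1.re γ (fun μ h0 h1 => by
    have := g1 (1 - μ) (by linarith) (by linarith)
    linarith)
  have k3 := lin_lim _ _ _ g2
  have k4 := lin_lim p2.re q2.re γ (fun μ h0 h1 => by
    have := g2 (1 - μ) (by linarith) (by linarith)
    linarith)
  exact ⟨by linarith, by linarith, by linarith, by linarith⟩

theorem nec_aux (p1 q1 p2 q2 : ℂ) (γ : ℝ) (hγ : 0 < γ)
    (hF : ∀ μ : ℝ, 0 < μ → μ < 1 → ∀ f1 f2 : ℂ,
      γ * (‖f1‖ ^ 2 + ‖f2‖ ^ 2) ≤ Form μ p1 q1 p2 q2 f1 f2)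
    (l0 l1 l2 : ℝ) (h0 : 0 ≤ l0) (h1 : 0 ≤ l1) (h2 : 0 ≤ l2) (hsum : l0 + l1 + l2 = 1)
    (α β : ℂ) (hp1 : p1 = α * q1) (hp2 : p2 = β * q2)
    (heq : (l1 : ℂ) * α + (l2 : ℂ) * β + (l0 : ℂ) = 0) (hα : 0 ≤ α.im) : False := by
  obtain ⟨r1, r2, r3, r4⟩ := re_pos p1 q1 p2 q2 γ hγ hF
  have eR : l1 * α.re + l2 * β.re + l0 = 0 := by
    have := congrArg Complex.re heq
    simpa using this
  have eI : l1 * α.im + l2 * β.im = 0 := by
    have := congrArg Complex.im heq
    simpa using this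
  have pα : α.im = 0 → 0 < α.re := by
    intro h
    rw [hp1, Complex.mul_re, h, zero_mul, sub_zero] at r1
    exact (mul_pos_iff_of_pos_right r2).1 r1
  have pβ : β.im = 0 → 0 < β.re := by
    intro h
    rw [hp2, Complex.mul_re, h, zero_mul, sub_zero] at r3
    exact (mul_pos_iff_of_pos_right r4).1 r3
  rcases hα.eq_or_lt with ha | ha
  · have ha' := pα ha.symm
    rw [← ha, mul_zero, zero_add] at eI
    rcases mul_eq_zero.1 eI with h | h
    · rw [h] at eR hsum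
      nlinarith [mul_nonneg h1 ha'.le]
    · have hb' := pβ h
      have t1 := mul_nonneg h1 ha'.le
      have t2 := mul_nonneg h2 hb'.le
      have t3 : l1 * α.re = 0 := by linarith
      have t4 : l2 * β.re = 0 := by linarith
      have t5 := (mul_eq_zero.1 t3).resolve_right ha'.ne'
      have t6 := (mul_eq_zero.1 t4).resolve_right hb'.ne'
      linarith
  · rcases lt_trichotomy β.im 0 with hb | hb | hb
    · have l1p : 0 < l1 := by
        rcases h1.eq_or_lt with h | h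
        · exfalso
          rw [← h, zero_mul, zero_add] at eI
          have t6 := (mul_eq_zero.1 eI).resolve_right hb.ne
          rw [← h, t6] at eR hsum
          linarith
        · exact h
      have hS : (α * (starRingEnd ℂ) β).im ≤ 0 := by
        have e : l1 * (α * (starRingEnd ℂ) β).im = l0 * β.im := by
          rw [Complex.mul_im, Complex.conj_re, Complex.conj_im]
          linear_combination β.re * eI - β.im * eR
        have : l1 * (α * (starRingEnd ℂ) β).im ≤ 0 := by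
          rw [e]
          exact mul_nonpos_of_nonneg_of_nonpos h0 hb.le
        by_contra hc
        push Not at hc
        have := mul_pos l1p hc
        linarith
      obtain ⟨μ, m0, m1, f1, f2, hf1, hle⟩ := core p1 q1 p2 q2 α β hp1 hp2 r3 ha hb hS
      have h := hF μ m0 m1 f1 f2
      have h3 : 0 < ‖f1‖ := norm_pos_iff.2 hf1
      have h4 : 0 < γ * (‖f1‖ ^ 2 + ‖f2‖ ^ 2) := by positivity
      linarith
    · have hb' := pβ hb
      rw [hb, mul_zero, add_zero] at eI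
      have t5 := (mul_eq_zero.1 eI).resolve_right ha.ne'
      rw [t5, zero_mul, zero_add] at eR
      have t2 := mul_nonneg h2 hb'.le
      have t4 : l2 * β.re = 0 := by linarith
      have t6 := (mul_eq_zero.1 t4).resolve_right hb'.ne'
      linarith
    · have t1 := mul_nonneg h1 ha.le
      have t2 := mul_nonneg h2 hb.le
      have t3 : l1 * α.im = 0 := by linarith
      have t4 : l2 * β.im = 0 := by linarith
      have t5 := (mul_eq_zero.1 t3).resolve_right ha.ne'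
      have t6 := (mul_eq_zero.1 t4).resolve_right hb.ne'
      rw [t5, t6] at eR
      linarith

end AlgNec

open AlgNec in
/-- **Task G.** -/
theorem algNec_ok : TaskAlgNec := by
  intro cp cm dp dm θ1 θ2 γ hγ hF μ ν hμ0 hμ1 hν0 hν1 heq
  obtain ⟨r1, r2, r3, r4⟩ := re_pos _ _ _ _ γ hγ hF
  have n1 : θ1 * dp ≠ 0 := fun h => by rw [h] at r2; simp at r2
  have n2 : θ2 * dm ≠ 0 := fun h => by rw [h] at r4; simp at r4
  set α : ℂ := (θ1 * cp) / (θ1 * dp) with hα
  set β : ℂ := (θ2 * cm) / (θ2 * dm) with hβ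
  have e1 : θ1 * cp = α * (θ1 * dp) := by rw [hα, div_mul_cancel₀ _ n1]
  have e2 : θ2 * cm = β * (θ2 * dm) := by rw [hβ, div_mul_cancel₀ _ n2]
  have e3 : ((μ * ν : ℝ) : ℂ) * α + (((1 - μ) * ν : ℝ) : ℂ) * β + ((1 - ν : ℝ) : ℂ) = 0 := by
    have h : (((μ * ν : ℝ) : ℂ) * α + (((1 - μ) * ν : ℝ) : ℂ) * β + ((1 - ν : ℝ) : ℂ)) *
        ((θ1 * dp) * (θ2 * dm)) = 0 := by
      push_cast
      linear_combination (θ1 * θ2) * heq - (μ : ℂ) * ν * (θ2 * dm) * e1 -
        (1 - (μ : ℂ)) * ν * (θ1 * dp) * e2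
    exact (mul_eq_zero.1 h).resolve_right (mul_ne_zero n1 n2)
  have s0 : 0 ≤ 1 - ν := by linarith
  have s1 : 0 ≤ μ * ν := mul_nonneg hμ0 hν0
  have s2 : 0 ≤ (1 - μ) * ν := mul_nonneg (by linarith) hν0
  have s3 : (1 - ν) + μ * ν + (1 - μ) * ν = 1 := by ring
  rcases le_total 0 α.im with h | h
  · exact nec_aux _ _ _ _ γ hγ hF _ _ _ s0 s1 s2 s3 α β e1 e2 e3 h
  · refine nec_aux ((starRingEnd ℂ) (θ1 * cp)) ((starRingEnd ℂ) (θ1 * dp))
      ((starRingEnd ℂ) (θ2 * cm)) ((starRingEnd ℂ) (θ2 * dm)) γ hγ ?_ _ _ _ s0 s1 s2 s3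
      ((starRingEnd ℂ) α) ((starRingEnd ℂ) β) ?_ ?_ ?_ ?_
    · intro μ' m0 m1 f1 f2
      have := hF μ' m0 m1 ((starRingEnd ℂ) f1) ((starRingEnd ℂ) f2)
      rw [← form_conj, Complex.conj_conj, Complex.conj_conj, Complex.norm_conj,
        Complex.norm_conj] at this
      exact this
    · rw [← map_mul, ← e1]
    · rw [← map_mul, ← e2]
    · have := congrArg (starRingEnd ℂ) e3
      rw [map_add, map_add, map_mul, map_mul, Complex.conj_ofReal, Complex.conj_ofReal,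
        Complex.conj_ofReal, map_zero] at this
      exact this
    · rw [Complex.conj_im]
      linarith

end Pool.Agent.H199BE
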