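import Mathlib

/-!
Project BE (helper199): MP_be0a19_an, frozen statement S05973 (TRUE).
Definitions and task statements.
-/

set_option autoImplicit false
open MeasureTheory Filter Topology

namespace Pool.Agent.H199BE

abbrev Circ : Type := AddCircle (1:ℝ)
noncomputable abbrev hm : Measure Circ := AddCircle.haarAddCircle (T := (1:ℝ))
abbrev L2 : Type := Lp ℂ 2 (AddCircle.haarAddCircle (T := (1:ℝ)))

/-- right / left limit of `a` at the point `x` -/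
def RLim (a : Circ → ℂ) (x : ℝ) (r : ℂ) : Prop :=
  Tendsto (fun s : ℝ => a (↑s : AddCircle (1:ℝ))) (𝓝[>] x) (𝓝 r)
def LLim (a : Circ → ℂ) (x : ℝ) (l : ℂ) : Prop :=
  Tendsto (fun s : ℝ => a (↑s : AddCircle (1:ℝ))) (𝓝[<] x) (𝓝 l)

/-- piecewise continuous -/
def PC (a : Circ → ℂ) : Prop := ∀ x : ℝ, (∃ l : ℂ, LLim a x l) ∧ (∃ r : ℂ, RLim a x r)

/-- `M` is the multiplication operator by `a` -/
def IsMul (a : Circ → ℂ) (M : L2 →L[ℂ] L2) : Prop :=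
  ∀ f : L2, (M f : Circ → ℂ) =ᵐ[hm] fun x => a x * f x

/-- `P` is the Riesz projection (n ≥ 0) -/
def IsP (P : L2 →L[ℂ] L2) : Prop :=
  ∀ n : ℤ, P (fourierLp (T := (1:ℝ)) 2 n) = if 0 ≤ n then fourierLp (T := (1:ℝ)) 2 n else 0

/-- strong ellipticity: Re B = D + K -/
def StrEll (B : L2 →L[ℂ] L2) : Prop :=
  ∃ D K : L2 →L[ℂ] L2, IsSelfAdjoint D ∧ IsCompactOperator K ∧
    (∃ c : ℝ, 0 < c ∧ ∀ x : L2, c * ‖x‖ ^ 2 ≤ (inner ℂ (D x) x).re) ∧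
    (1/2 : ℂ) • (B + ContinuousLinearMap.adjoint B) = D + K

/-- condition (3) at a point -/
def Cond3 (cp cm dp dm : ℂ) : Prop :=
  ∀ μ ν : ℝ, 0 ≤ μ → μ ≤ 1 → 0 ≤ ν → ν ≤ 1 →
    (cp * dm * (μ : ℂ) + cm * dp * (1 - (μ : ℂ))) * (ν : ℂ) + dp * dm * (1 - (ν : ℂ)) ≠ 0

/-- the sharp two-projection positivity condition; index 1 = right of the point, 2 = left -/
def Good (p1 q1 p2 q2 : ℂ) : Prop :=
  0 < p1.re ∧ 0 < q1.re ∧ 0 < p2.re ∧ 0 < q2.re ∧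
  ‖(p1 - q1) + (starRingEnd ℂ) (p2 - q2)‖
    < 2 * Real.sqrt (q1.re * q2.re) + 2 * Real.sqrt (p1.re * p2.re)

/-- the quadratic form of the local symbol of `pP+qQ` at `(x0, μ)` on `ℂ²` -/
noncomputable def Form (μ : ℝ) (p1 q1 p2 q2 f1 f2 : ℂ) : ℝ :=
  ((p1 * ((μ:ℂ) * f1 + (Real.sqrt (μ * (1 - μ)) : ℂ) * f2)
      + q1 * (((1 - μ : ℝ):ℂ) * f1 - (Real.sqrt (μ * (1 - μ)) : ℂ) * f2)) * (starRingEnd ℂ) f1
   + (p2 * ((Real.sqrt (μ * (1 - μ)) : ℂ) * f1 + ((1 - μ : ℝ):ℂ) * f2)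
      + q2 * (-(Real.sqrt (μ * (1 - μ)) : ℂ) * f1 + (μ:ℂ) * f2)) * (starRingEnd ℂ) f2).re

/-- a bounded sequence concentrating at the point `x0` -/
def Conc (h : ℕ → L2) (x0 : ℝ) : Prop :=
  ∀ ε : ℝ, 0 < ε →
    Tendsto (fun k => ∫ x in {x : Circ | ε ≤ ‖x - (x0 : Circ)‖}, ‖h k x‖ ^ 2 ∂hm) atTop (𝓝 0)

/-! ### Tasks -/

/-- A. commutators of the Riesz projection with continuous functions are compact -/
def TaskComm : Prop :=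
  ∀ (P : L2 →L[ℂ] L2), IsP P → ∀ (g : C(Circ, ℂ)) (M : L2 →L[ℂ] L2), IsMul (⇑g) M →
    IsCompactOperator (M.comp P - P.comp M)

/-- B. localization: local positivity gives strong ellipticity -/
def TaskGlue : Prop :=
  ∀ (B : L2 →L[ℂ] L2),
    (∀ (g : C(Circ, ℂ)) (M : L2 →L[ℂ] L2), IsMul (⇑g) M → IsCompactOperator (B.comp M - M.comp B)) →
    (∀ (g : C(Circ, ℂ)) (M : L2 →L[ℂ] L2), IsMul (⇑g) M →
      IsCompactOperator ((ContinuousLinearMap.adjoint B).comp M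
        - M.comp (ContinuousLinearMap.adjoint B))) →
    (∀ t : Circ, ∃ U ∈ 𝓝 t, ∃ γ : ℝ, 0 < γ ∧ ∀ f : L2, (∀ᵐ y ∂hm, y ∉ U → f y = 0) →
      γ * ‖f‖ ^ 2 ≤ (inner ℂ (B f) f).re) →
    StrEll B

/-- C. piecewise continuous functions are bounded multipliers -/
def TaskPCmul : Prop :=
  ∀ (a : Circ → ℂ), PC a → ∃ M : L2 →L[ℂ] L2, IsMul a M

/-- D. the two projections estimate -/
def TaskTwoProj : Prop :=
  ∀ p1 q1 p2 q2 : ℂ, Good p1 q1 p2 q2 → ∃ γ : ℝ, 0 < γ ∧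
    ∀ P : L2 →L[ℂ] L2, IsSelfAdjoint P → P.comp P = P → ∀ u v : L2, inner ℂ u v = 0 →
      γ * (‖u‖ ^ 2 + ‖v‖ ^ 2) ≤
        (inner ℂ (P (u + v)) ((starRingEnd ℂ) p1 • u + (starRingEnd ℂ) p2 • v)).re
        + (inner ℂ ((u + v) - P (u + v)) ((starRingEnd ℂ) q1 • u + (starRingEnd ℂ) q2 • v)).re

/-- E. local positivity of `pP+qQ` near a good point -/
def TaskLoc : Prop :=
  TaskTwoProj →
  ∀ (P : L2 →L[ℂ] L2), IsSelfAdjoint P → P.comp P = P →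
  ∀ (p q : Circ → ℂ) (Mp Mq : L2 →L[ℂ] L2), IsMul p Mp → IsMul q Mq →
  ∀ (x0 : ℝ) (p1 q1 p2 q2 : ℂ), RLim p x0 p1 → RLim q x0 q1 → LLim p x0 p2 → LLim q x0 q2 →
    Good p1 q1 p2 q2 →
    ∃ U ∈ 𝓝 (x0 : Circ), ∃ γ : ℝ, 0 < γ ∧ ∀ f : L2, (∀ᵐ y ∂hm, y ∉ U → f y = 0) →
      γ * ‖f‖ ^ 2 ≤ (inner ℂ ((Mp.comp P + Mq.comp (1 - P) : L2 →L[ℂ] L2) f) f).re

/-- F. algebra, sufficiency: condition (3) at a point gives local multipliers -/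
def TaskAlgSuff : Prop :=
  ∀ cp cm dp dm : ℂ, Cond3 cp cm dp dm →
    ∃ θ1 θ2 : ℂ, Good (θ1 * cp) (θ1 * dp) (θ2 * cm) (θ2 * dm)

/-- G. algebra, necessity -/
def TaskAlgNec : Prop :=
  ∀ (cp cm dp dm θ1 θ2 : ℂ) (γ : ℝ), 0 < γ →
    (∀ μ : ℝ, 0 < μ → μ < 1 → ∀ f1 f2 : ℂ,
      γ * (‖f1‖ ^ 2 + ‖f2‖ ^ 2) ≤ Form μ (θ1 * cp) (θ1 * dp) (θ2 * cm) (θ2 * dm) f1 f2) →
    Cond3 cp cm dp dm

/-- H. global choice of the multiplier -/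
def TaskTheta : Prop :=
  ∀ (c d : Circ → ℂ), PC c → PC d →
    (∀ (x : ℝ) (cp cm dp dm : ℂ), RLim c x cp → LLim c x cm → RLim d x dp → LLim d x dm →
      ∃ θ1 θ2 : ℂ, Good (θ1 * cp) (θ1 * dp) (θ2 * cm) (θ2 * dm)) →
    ∃ Θ : Circ → ℂ, PC Θ ∧ (∀ t, Θ t ≠ 0) ∧
      ∀ (x : ℝ) (cp cm dp dm θp θm : ℂ), RLim c x cp → LLim c x cm → RLim d x dp → LLim d x dm →
        RLim Θ x θp → LLim Θ x θm → Good (θp * cp) (θp * dp) (θm * cm) (θm * dm)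

/-- I. the power function `(1-z)^s` is in the Hardy space -/
def TaskHardy : Prop :=
  ∀ s : ℂ, -(1/2) < s.re → s.re < 0 →
    MemLp (fun x : Circ => ((1:ℂ) - fourier 1 x) ^ s) 2 hm ∧
    ∀ n : ℤ, n < 0 → fourierCoeff (T := (1:ℝ)) (fun x : Circ => ((1:ℂ) - fourier 1 x) ^ s) n = 0

/-- the exponents used for the test functions -/
noncomputable def sk (ξ : ℝ) (k : ℕ) : ℂ := -(1/2) + 1 / ((k:ℂ) + 3) + (ξ:ℂ) * Complex.I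

/-- J. growth and concentration of the power functions -/
def TaskGrow : Prop :=
  ∀ ξ : ℝ,
    Tendsto (fun k : ℕ => ∫ x : Circ, ‖((1:ℂ) - fourier 1 x) ^ (sk ξ k)‖ ^ 2 ∂hm) atTop atTop ∧
    ∀ ε : ℝ, 0 < ε → ∃ C : ℝ, ∀ k : ℕ, ∀ x : Circ, ε ≤ ‖x‖ →
      ‖((1:ℂ) - fourier 1 x) ^ (sk ξ k)‖ ≤ C

/-- K. a multiplier with one-sided limits zero at `x0` kills concentrating sequences -/
def TaskConcMul : Prop :=
  ∀ (h : ℕ → L2) (x0 : ℝ), (∀ k, ‖h k‖ ≤ 1) → Conc h x0 →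
    ∀ (g : Circ → ℂ) (M : L2 →L[ℂ] L2), PC g → IsMul g M → RLim g x0 0 → LLim g x0 0 →
      Tendsto (fun k => ‖M (h k)‖) atTop (𝓝 0)

/-- L. compact operators kill concentrating sequences -/
def TaskConcCompact : Prop :=
  ∀ (h : ℕ → L2) (x0 : ℝ), (∀ k, ‖h k‖ ≤ 1) → Conc h x0 →
    ∀ (K : L2 →L[ℂ] L2), IsCompactOperator K → Tendsto (fun k => ‖K (h k)‖) atTop (𝓝 0)

/-- M. concentrating Hardy functions `h` and anti-Hardy functions `g ≈ G h` -/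
def TaskTest1 : Prop :=
  TaskHardy → TaskGrow →
  ∀ (P : L2 →L[ℂ] L2), IsP P → ∀ (x0 μ : ℝ), 0 < μ → μ < 1 →
    ∃ (h g : ℕ → L2) (G : Circ → ℂ),
      (∀ k, ‖h k‖ = 1) ∧ (∀ k, P (h k) = h k) ∧ Conc h x0 ∧
      PC G ∧ RLim G x0 ((Real.sqrt ((1 - μ) / μ) : ℝ) : ℂ) ∧
      LLim G x0 (-((Real.sqrt (μ / (1 - μ)) : ℝ) : ℂ)) ∧
      (∀ k, P (g k) = 0) ∧
      ∀ M : L2 →L[ℂ] L2, IsMul G M → Tendsto (fun k => ‖g k - M (h k)‖) atTop (𝓝 0)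

/-- N. the test pairs -/
def TaskTest2 : Prop :=
  ∀ (P : L2 →L[ℂ] L2), IsP P → ∀ (x0 μ : ℝ), 0 < μ → μ < 1 →
    ∃ (u v : ℕ → L2),
      Tendsto (fun k => ‖u k‖) atTop (𝓝 1) ∧ Tendsto (fun k => ‖v k‖) atTop (𝓝 1) ∧
      (∀ k, inner ℂ (u k) (v k) = 0) ∧
      Tendsto (fun k => ‖P (u k) - ((μ:ℂ) • u k + (Real.sqrt (μ * (1 - μ)) : ℂ) • v k)‖)
        atTop (𝓝 0) ∧
      Tendsto (fun k => ‖P (v k) - ((Real.sqrt (μ * (1 - μ)) : ℂ) • u k + ((1 - μ : ℝ):ℂ) • v k)‖)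
        atTop (𝓝 0) ∧
      (∀ K : L2 →L[ℂ] L2, IsCompactOperator K →
        Tendsto (fun k => ‖K (u k)‖) atTop (𝓝 0) ∧ Tendsto (fun k => ‖K (v k)‖) atTop (𝓝 0)) ∧
      (∀ (g : Circ → ℂ) (M : L2 →L[ℂ] L2) (gp gm : ℂ), PC g → IsMul g M →
        RLim g x0 gp → LLim g x0 gm →
        Tendsto (fun k => ‖M (u k) - gp • u k‖) atTop (𝓝 0) ∧
        Tendsto (fun k => ‖M (v k) - gm • v k‖) atTop (𝓝 0))

/-- O. necessity: strong ellipticity gives positivity of all local forms -/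
def TaskNec : Prop :=
  TaskTest2 →
  ∀ (P : L2 →L[ℂ] L2), IsP P →
  ∀ (p q : Circ → ℂ) (Mp Mq : L2 →L[ℂ] L2), PC p → PC q → IsMul p Mp → IsMul q Mq →
    StrEll (Mp.comp P + Mq.comp (1 - P)) →
    ∃ γ : ℝ, 0 < γ ∧ ∀ (x0 : ℝ) (p1 q1 p2 q2 : ℂ),
      RLim p x0 p1 → RLim q x0 q1 → LLim p x0 p2 → LLim q x0 q2 →
      ∀ μ : ℝ, 0 < μ → μ < 1 → ∀ f1 f2 : ℂ,
        γ * (‖f1‖ ^ 2 + ‖f2‖ ^ 2) ≤ Form μ p1 q1 p2 q2 f1 f2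

/-- P. the basic facts on the Riesz projection -/
def TaskRiesz : Prop :=
  (∀ P : L2 →L[ℂ] L2, IsP P → IsSelfAdjoint P ∧ P.comp P = P) ∧
  (∀ S : L2 →L[ℂ] L2,
    (∀ n : ℤ, S (fourierLp (T := (1:ℝ)) 2 n) =
        (if 0 ≤ n then (1:ℂ) else -1) • fourierLp (T := (1:ℝ)) 2 n) →
    ∃ P : L2 →L[ℂ] L2, IsP P ∧ S = P - (1 - P))

end Pool.Agent.H199BE
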