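import Mathlib
import Pool.Agent.H199BE.Stmts

/-!
Task AlgSuff of project H199-BE (written by helper782).
-/

set_option autoImplicit false

open Filter Topology

namespace Pool.Agent.H199BE

namespace AlgSuff

lemma cone2 {x1 x2 y1 y2 u v a b : ℝ} (hx1 : 0 ≤ x1) (hx2 : 0 ≤ x2) (hy1 : 0 ≤ y1) (hy2 : 0 ≤ y2)
    (h1 : u ^ 2 ≤ x1 * x2) (h2 : v ^ 2 ≤ y1 * y2)
    (ha : 0 ≤ a) (hb : 0 ≤ b) : (a * u + b * v) ^ 2 ≤ (a * x1 + b * y1) * (a * x2 + b * y2) := by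
  have h3 : 2 * (u * v) ≤ x1 * y2 + y1 * x2 := by
    have h4 : u ^ 2 * v ^ 2 ≤ (x1 * x2) * (y1 * y2) := mul_le_mul h1 h2 (sq_nonneg _) (by positivity)
    have h5 : (2 * (u * v)) ^ 2 ≤ (x1 * y2 + y1 * x2) ^ 2 := by
      nlinarith [sq_nonneg (x1 * y2 - y1 * x2)]
    exact (abs_le_of_sq_le_sq' h5 (by positivity)).2
  nlinarith [mul_le_mul_of_nonneg_left h1 (sq_nonneg a), mul_le_mul_of_nonneg_left h2 (sq_nonneg b),
    mul_le_mul_of_nonneg_left h3 (mul_nonneg ha hb)]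

lemma cone2' {x1 x2 y1 y2 a b : ℝ} {K K' : ℂ} (hx1 : 0 ≤ x1) (hx2 : 0 ≤ x2) (hy1 : 0 ≤ y1)
    (hy2 : 0 ≤ y2) (h1 : ‖K‖ ^ 2 ≤ x1 * x2) (h2 : ‖K'‖ ^ 2 ≤ y1 * y2)
    (ha : 0 ≤ a) (hb : 0 ≤ b) : ‖a • K + b • K'‖ ^ 2 ≤ (a * x1 + b * y1) * (a * x2 + b * y2) := by
  refine le_trans ?_ (cone2 hx1 hx2 hy1 hy2 h1 h2 ha hb)
  refine pow_le_pow_left₀ (norm_nonneg _) ?_ 2
  refine (norm_add_le _ _).trans ?_
  rw [norm_smul, norm_smul, Real.norm_of_nonneg ha, Real.norm_of_nonneg hb]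

lemma core_pos (a1 a2 b1 b2 X1 X2 Y1 Y2 k l : ℝ)
    (hc : ∀ a b c : ℝ, 0 ≤ a → 0 ≤ b → 0 ≤ c → 0 < a + b + c → a + b * a1 + c * b1 = 0 →
      b * a2 + c * b2 = 0 → False)
    (hX1 : 0 ≤ X1) (hX2 : 0 ≤ X2) (hY1 : 0 ≤ Y1) (hY2 : 0 ≤ Y2)
    (h1 : k ^ 2 + l ^ 2 ≤ X1 * X2) (h2 : k ^ 2 + l ^ 2 ≤ Y1 * Y2)
    (r1 : X1 - k + (a1 * (Y1 + k) - a2 * l) = 0) (i1 : -l + (a1 * l + a2 * (Y1 + k)) = 0)
    (r2 : X2 - k + (b1 * (Y2 + k) + b2 * l) = 0) (i2 : l - b1 * l + b2 * (Y2 + k) = 0)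
    (hl : 0 < l) : False := by
  have hl2 : 0 < l ^ 2 := by positivity
  have hX1' : 0 < X1 := by
    rcases hX1.lt_or_eq with h | h
    · exact h
    · exfalso; rw [← h] at h1; nlinarith [sq_nonneg k]
  have hX2' : 0 < X2 := by
    rcases hX2.lt_or_eq with h | h
    · exact h
    · exfalso; rw [← h] at h1; nlinarith [sq_nonneg k]
  have hD1 : 0 < (Y1 + k) ^ 2 + l ^ 2 := by positivity
  have hD2 : 0 < (Y2 + k) ^ 2 + l ^ 2 := by positivity
  have ea2 : a2 * ((Y1 + k) ^ 2 + l ^ 2) = l * (X1 + Y1) := by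
    linear_combination (Y1 + k) * i1 - l * r1
  have ea1 : a1 * ((Y1 + k) ^ 2 + l ^ 2) = (k - X1) * (Y1 + k) + l ^ 2 := by
    linear_combination (Y1 + k) * r1 + l * i1
  have eb2 : b2 * ((Y2 + k) ^ 2 + l ^ 2) = - (l * (X2 + Y2)) := by
    linear_combination l * r2 + (Y2 + k) * i2
  have eb1 : b1 * ((Y2 + k) ^ 2 + l ^ 2) = (k - X2) * (Y2 + k) + l ^ 2 := by
    linear_combination (Y2 + k) * r2 - l * i2
  have hN : (a2 * b1 - a1 * b2) * (((Y1 + k) ^ 2 + l ^ 2) * ((Y2 + k) ^ 2 + l ^ 2)) =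
      - (l * ((Y1 * Y2 - (k ^ 2 + l ^ 2)) * (X1 + X2 - 2 * k) +
        (X1 * X2 - (k ^ 2 + l ^ 2)) * (Y1 + Y2 + 2 * k))) := by
    have e : (a2 * b1 - a1 * b2) * (((Y1 + k) ^ 2 + l ^ 2) * ((Y2 + k) ^ 2 + l ^ 2)) =
      (a2 * ((Y1 + k) ^ 2 + l ^ 2)) * (b1 * ((Y2 + k) ^ 2 + l ^ 2)) -
      (a1 * ((Y1 + k) ^ 2 + l ^ 2)) * (b2 * ((Y2 + k) ^ 2 + l ^ 2)) := by ring
    rw [e, ea2, ea1, eb2, eb1]
    ring
  have hs1 : 0 ≤ X1 + X2 - 2 * k := by
    have : (2 * k) ^ 2 ≤ (X1 + X2) ^ 2 := by nlinarith [sq_nonneg (X1 - X2)]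
    have := (abs_le_of_sq_le_sq' this (by positivity)).2
    linarith
  have hs2 : 0 ≤ Y1 + Y2 + 2 * k := by
    have : (2 * k) ^ 2 ≤ (Y1 + Y2) ^ 2 := by nlinarith [sq_nonneg (Y1 - Y2)]
    have := (abs_le_of_sq_le_sq' this (by positivity)).1
    linarith
  have ha2 : 0 < a2 := by
    by_contra h
    push Not at h
    have h5 := mul_nonpos_of_nonpos_of_nonneg h hD1.le
    have h6 : 0 < l * (X1 + Y1) := by positivity
    linarith
  have hb2 : b2 < 0 := by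
    by_contra h
    push Not at h
    have h5 := mul_nonneg h hD2.le
    have h6 : 0 < l * (X2 + Y2) := by positivity
    linarith
  have hNle : a2 * b1 - a1 * b2 ≤ 0 := by
    by_contra h
    push Not at h
    have h5 := mul_pos h (mul_pos hD1 hD2)
    have h6 : 0 ≤ l * ((Y1 * Y2 - (k ^ 2 + l ^ 2)) * (X1 + X2 - 2 * k) +
        (X1 * X2 - (k ^ 2 + l ^ 2)) * (Y1 + Y2 + 2 * k)) :=
      mul_nonneg hl.le (add_nonneg (mul_nonneg (by linarith) hs1) (mul_nonneg (by linarith) hs2))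
    linarith
  exact hc (-(a2 * b1 - a1 * b2)) (-b2) a2 (by linarith) (by linarith) ha2.le (by linarith)
    (by ring) (by ring)

lemma core_zero (a1 b1 X1 X2 Y1 Y2 k : ℝ) (a2 b2 : ℝ)
    (hc : ∀ a b c : ℝ, 0 ≤ a → 0 ≤ b → 0 ≤ c → 0 < a + b + c → a + b * a1 + c * b1 = 0 →
      b * a2 + c * b2 = 0 → False)
    (hX1 : 0 ≤ X1) (hX2 : 0 ≤ X2) (hY1 : 0 ≤ Y1) (hY2 : 0 ≤ Y2)
    (h1 : k ^ 2 ≤ X1 * X2) (h2 : k ^ 2 ≤ Y1 * Y2) (hs : X1 + X2 + Y1 + Y2 = 1)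
    (r1 : X1 - k + a1 * (Y1 + k) = 0) (i1 : a2 * (Y1 + k) = 0)
    (r2 : X2 - k + b1 * (Y2 + k) = 0) (i2 : b2 * (Y2 + k) = 0) : False := by
  have t1 : k ≤ X1 → 0 ≤ Y1 + k → 0 < X1 + Y1 → False := fun h h' h'' =>
    hc (X1 - k) (Y1 + k) 0 (by linarith) h' le_rfl (by linarith) (by linarith) (by linarith)
  have t2 : k ≤ X2 → 0 ≤ Y2 + k → 0 < X2 + Y2 → False := fun h h' h'' =>
    hc (X2 - k) 0 (Y2 + k) (by linarith) le_rfl h' (by linarith) (by linarith) (by linarith)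
  rcases le_or_gt 0 k with hk | hk
  · have hX : k ≤ X1 ∨ k ≤ X2 := by
      by_contra h
      push Not at h
      nlinarith
    rcases hX with h | h
    · rcases (add_nonneg hX1 hY1).lt_or_eq with h3 | h3
      · exact t1 h (by linarith) h3
      · have e1 : X1 = 0 := by linarith
        have e2 : Y1 = 0 := by linarith
        exact t2 (by linarith) (by linarith) (by linarith)
    · rcases (add_nonneg hX2 hY2).lt_or_eq with h3 | h3
      · exact t2 h (by linarith) h3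
      · have e1 : X2 = 0 := by linarith
        have e2 : Y2 = 0 := by linarith
        exact t1 (by linarith) (by linarith) (by linarith)
  · have hY : -k ≤ Y1 ∨ -k ≤ Y2 := by
      by_contra h
      push Not at h
      nlinarith
    rcases hY with h | h
    · exact t1 (by linarith) (by linarith) (by linarith)
    · exact t2 (by linarith) (by linarith) (by linarith)

lemma not_zero (α β : ℂ)
    (hc : ∀ a b c : ℝ, 0 ≤ a → 0 ≤ b → 0 ≤ c → 0 < a + b + c → (a : ℂ) + b * α + c * β ≠ 0)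
    (X1 X2 Y1 Y2 : ℝ) (K : ℂ) (hX1 : 0 ≤ X1) (hX2 : 0 ≤ X2) (hY1 : 0 ≤ Y1) (hY2 : 0 ≤ Y2)
    (h1 : ‖K‖ ^ 2 ≤ X1 * X2) (h2 : ‖K‖ ^ 2 ≤ Y1 * Y2) (hs : X1 + X2 + Y1 + Y2 = 1)
    (e1 : (X1 : ℂ) - K + α * (Y1 + K) = 0)
    (e2 : (X2 : ℂ) - (starRingEnd ℂ) K + β * (Y2 + (starRingEnd ℂ) K) = 0) : False := by
  rw [Complex.sq_norm, Complex.normSq_apply] at h1 h2
  have hc' : ∀ a b c : ℝ, 0 ≤ a → 0 ≤ b → 0 ≤ c → 0 < a + b + c → a + b * α.re + c * β.re = 0 →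
      b * α.im + c * β.im = 0 → False := by
    intro a b c ha hb hcc hpos hr hi
    apply hc a b c ha hb hcc hpos
    apply Complex.ext
    · simpa using hr
    · simpa using hi
  have r1 := congrArg Complex.re e1
  have i1 := congrArg Complex.im e1
  have r2 := congrArg Complex.re e2
  have i2 := congrArg Complex.im e2
  simp only [Complex.add_re, Complex.sub_re, Complex.mul_re, Complex.ofReal_re, Complex.add_im,
    Complex.ofReal_im, Complex.sub_im, Complex.mul_im, Complex.zero_re, Complex.zero_im,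
    Complex.conj_re, Complex.conj_im, zero_add] at r1 i1 r2 i2
  generalize α.re = a1 at *
  generalize α.im = a2 at *
  generalize β.re = b1 at *
  generalize β.im = b2 at *
  generalize K.re = k at *
  generalize K.im = l at *
  rcases lt_trichotomy l 0 with hl | hl | hl
  · refine core_pos a1 (-a2) b1 (-b2) X1 X2 Y1 Y2 k (-l) ?_ hX1 hX2 hY1 hY2 (by linarith)
      (by linarith) (by linarith) (by linarith) (by linarith) (by linarith) (by linarith)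
    intro a b c ha hb hcc hpos hr hi
    exact hc' a b c ha hb hcc hpos hr (by linarith)
  · subst hl
    exact core_zero a1 b1 X1 X2 Y1 Y2 k a2 b2 hc' hX1 hX2 hY1 hY2 (by linarith) (by linarith) hs
      (by linarith) (by linarith) (by linarith) (by linarith)
  · exact core_pos a1 a2 b1 b2 X1 X2 Y1 Y2 k l hc' hX1 hX2 hY1 hY2 (by linarith)
      (by linarith) (by linarith) (by linarith) (by linarith) (by linarith) hl

/-- parameter space -/
abbrev V : Type := ℝ × ℝ × ℝ × ℝ × ℂ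

/-- parameter set -/
def CC : Set V := {v | 0 ≤ v.1 ∧ 0 ≤ v.2.1 ∧ 0 ≤ v.2.2.1 ∧ 0 ≤ v.2.2.2.1 ∧
  ‖v.2.2.2.2‖ ^ 2 ≤ v.1 * v.2.1 ∧ ‖v.2.2.2.2‖ ^ 2 ≤ v.2.2.1 * v.2.2.2.1 ∧
  v.1 + v.2.1 + v.2.2.1 + v.2.2.2.1 = 1}

lemma convex_CC : Convex ℝ CC := by
  rintro ⟨x1, x2, y1, y2, K⟩ ⟨h1, h2, h3, h4, h5, h6, h7⟩ ⟨x1', x2', y1', y2', K'⟩
    ⟨h1', h2', h3', h4', h5', h6', h7'⟩ a b ha hb hab
  dsimp only at *
  refine ⟨?_, ?_, ?_, ?_, ?_, ?_, ?_⟩
  · show 0 ≤ a * x1 + b * x1'; positivity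
  · show 0 ≤ a * x2 + b * x2'; positivity
  · show 0 ≤ a * y1 + b * y1'; positivity
  · show 0 ≤ a * y2 + b * y2'; positivity
  · exact cone2' h1 h2 h1' h2' h5 h5' ha hb
  · exact cone2' h3 h4 h3' h4' h6 h6' ha hb
  · show (a * x1 + b * x1') + (a * x2 + b * x2') + (a * y1 + b * y1') + (a * y2 + b * y2') = 1
    have : a * (x1 + x2 + y1 + y2) + b * (x1' + x2' + y1' + y2') = 1 := by
      rw [h7, h7']; linarith
    linarith

lemma isCompact_CC : IsCompact CC := by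
  have hK : IsCompact ((Set.Icc (0:ℝ) 1) ×ˢ (Set.Icc (0:ℝ) 1) ×ˢ (Set.Icc (0:ℝ) 1) ×ˢ
      (Set.Icc (0:ℝ) 1) ×ˢ (Metric.closedBall (0:ℂ) 1)) :=
    isCompact_Icc.prod (isCompact_Icc.prod (isCompact_Icc.prod (isCompact_Icc.prod
      (isCompact_closedBall 0 1))))
  refine hK.of_isClosed_subset ?_ ?_
  · unfold CC
    refine IsClosed.and (isClosed_le (by fun_prop) (by fun_prop)) ?_
    refine IsClosed.and (isClosed_le (by fun_prop) (by fun_prop)) ?_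
    refine IsClosed.and (isClosed_le (by fun_prop) (by fun_prop)) ?_
    refine IsClosed.and (isClosed_le (by fun_prop) (by fun_prop)) ?_
    refine IsClosed.and (isClosed_le (by fun_prop) (by fun_prop)) ?_
    refine IsClosed.and (isClosed_le (by fun_prop) (by fun_prop)) ?_
    exact isClosed_eq (by fun_prop) (by fun_prop)
  · rintro ⟨x1, x2, y1, y2, K⟩ ⟨h1, h2, h3, h4, h5, h6, h7⟩
    dsimp only at *
    refine ⟨⟨h1, by linarith⟩, ⟨h2, by linarith⟩, ⟨h3, by linarith⟩, ⟨h4, by linarith⟩, ?_⟩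
    rw [mem_closedBall_zero_iff]
    have : ‖K‖ ^ 2 ≤ 1 ^ 2 := by
      have : x1 * x2 ≤ 1 * 1 := mul_le_mul (by linarith) (by linarith) h2 (by norm_num)
      nlinarith
    exact (abs_le_of_sq_le_sq' this (by norm_num)).2

/-- the linear map -/
noncomputable def W (α β : ℂ) : V →ₗ[ℝ] ℂ × ℂ where
  toFun v := ((v.1 : ℂ) - v.2.2.2.2 + α * ((v.2.2.1 : ℂ) + v.2.2.2.2),
    (v.2.1 : ℂ) - (starRingEnd ℂ) v.2.2.2.2 + β * ((v.2.2.2.1 : ℂ) + (starRingEnd ℂ) v.2.2.2.2))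
  map_add' := by
    intro u v
    refine Prod.ext ?_ ?_
    · simp only [Prod.fst_add, Prod.snd_add, Complex.ofReal_add]; ring
    · simp only [Prod.fst_add, Prod.snd_add, Complex.ofReal_add, map_add]; ring
  map_smul' := by
    intro c u
    refine Prod.ext ?_ ?_
    · simp only [Prod.smul_fst, Prod.smul_snd, smul_eq_mul, Complex.ofReal_mul, RingHom.id_apply,
        Complex.real_smul]; ring
    · simp only [Prod.smul_fst, Prod.smul_snd, smul_eq_mul, Complex.ofReal_mul, RingHom.id_apply,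
        Complex.real_smul, map_mul, Complex.conj_ofReal]; ring

lemma continuous_W (α β : ℂ) : Continuous (W α β) := LinearMap.continuous_of_finiteDimensional _

/-- the separating functional -/
lemma exists_t (α β : ℂ)
    (hc : ∀ a b c : ℝ, 0 ≤ a → 0 ≤ b → 0 ≤ c → 0 < a + b + c → (a : ℂ) + b * α + c * β ≠ 0) :
    ∃ t1 t2 : ℂ, ∀ v ∈ CC, 0 < (t1 * (W α β v).1 + t2 * (W α β v).2).re := by
  have h0 : (0 : ℂ × ℂ) ∉ W α β '' CC := by
    rintro ⟨⟨x1, x2, y1, y2, K⟩, ⟨h1, h2, h3, h4, h5, h6, h7⟩, hv⟩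
    exact not_zero α β hc x1 x2 y1 y2 K h1 h2 h3 h4 h5 h6 h7 (congrArg Prod.fst hv)
      (congrArg Prod.snd hv)
  obtain ⟨f, u, hu, hf⟩ := geometric_hahn_banach_point_closed (convex_CC.linear_image (W α β))
    (isCompact_CC.image (continuous_W α β)).isClosed h0
  rw [map_zero] at hu
  refine ⟨⟨f (1, 0), - f (Complex.I, 0)⟩, ⟨f (0, 1), - f (0, Complex.I)⟩, fun v hv => ?_⟩
  have key : ∀ w : ℂ × ℂ, f w = ((⟨f (1, 0), - f (Complex.I, 0)⟩ : ℂ) * w.1 +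
      (⟨f (0, 1), - f (0, Complex.I)⟩ : ℂ) * w.2).re := by
    intro w
    have e : w = w.1.re • ((1, 0) : ℂ × ℂ) + w.1.im • ((Complex.I, 0) : ℂ × ℂ) +
        w.2.re • ((0, 1) : ℂ × ℂ) + w.2.im • ((0, Complex.I) : ℂ × ℂ) := by
      refine Prod.ext ?_ ?_ <;> apply Complex.ext <;> simp
    conv_lhs => rw [e]
    rw [map_add, map_add, map_add, map_smul, map_smul, map_smul, map_smul]
    simp only [smul_eq_mul, Complex.add_re, Complex.mul_re]
    ring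
  rw [← key]
  exact hu.trans (hf _ ⟨v, hv, rfl⟩)

lemma suff' (α β : ℂ)
    (hc : ∀ a b c : ℝ, 0 ≤ a → 0 ≤ b → 0 ≤ c → 0 < a + b + c → (a : ℂ) + b * α + c * β ≠ 0) :
    ∃ t1 t2 : ℂ, Good (t1 * α) t1 (t2 * β) t2 := by
  obtain ⟨t1, t2, ht⟩ := exists_t α β hc
  have ht' : ∀ (x1 x2 y1 y2 : ℝ) (K : ℂ), 0 ≤ x1 → 0 ≤ x2 → 0 ≤ y1 → 0 ≤ y2 →
      ‖K‖ ^ 2 ≤ x1 * x2 → ‖K‖ ^ 2 ≤ y1 * y2 → x1 + x2 + y1 + y2 = 1 →
      0 < t1.re * x1 + t2.re * x2 + (t1 * α).re * y1 + (t2 * β).re * y2 +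
        (((t1 * α - t1) + (starRingEnd ℂ) (t2 * β - t2)) * K).re := by
    intro x1 x2 y1 y2 K h1 h2 h3 h4 h5 h6 h7
    have := ht (x1, x2, y1, y2, K) ⟨h1, h2, h3, h4, h5, h6, h7⟩
    have e : (t1 * (W α β (x1, x2, y1, y2, K)).1 + t2 * (W α β (x1, x2, y1, y2, K)).2).re =
        t1.re * x1 + t2.re * x2 + (t1 * α).re * y1 + (t2 * β).re * y2 +
        (((t1 * α - t1) + (starRingEnd ℂ) (t2 * β - t2)) * K).re := by
      show (t1 * ((x1 : ℂ) - K + α * ((y1 : ℂ) + K)) +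
        t2 * ((x2 : ℂ) - (starRingEnd ℂ) K + β * ((y2 : ℂ) + (starRingEnd ℂ) K))).re = _
      simp only [Complex.add_re, Complex.sub_re, Complex.mul_re, Complex.ofReal_re, Complex.add_im,
        Complex.ofReal_im, Complex.sub_im, Complex.mul_im, Complex.conj_re, Complex.conj_im]
      ring
    rwa [e] at this
  have A1 : 0 < t1.re := by
    have := ht' 1 0 0 0 0 (by norm_num) le_rfl le_rfl le_rfl (by simp) (by simp) (by norm_num)
    rw [mul_zero (_ + _), Complex.zero_re] at this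
    linarith
  have A2 : 0 < t2.re := by
    have := ht' 0 1 0 0 0 le_rfl (by norm_num) le_rfl le_rfl (by simp) (by simp) (by norm_num)
    rw [mul_zero (_ + _), Complex.zero_re] at this
    linarith
  have B1 : 0 < (t1 * α).re := by
    have := ht' 0 0 1 0 0 le_rfl le_rfl (by norm_num) le_rfl (by simp) (by simp) (by norm_num)
    rw [mul_zero (_ + _), Complex.zero_re] at this
    linarith
  have B2 : 0 < (t2 * β).re := by
    have := ht' 0 0 0 1 0 le_rfl le_rfl le_rfl (by norm_num) (by simp) (by simp) (by norm_num)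
    rw [mul_zero (_ + _), Complex.zero_re] at this
    linarith
  refine ⟨t1, t2, B1, A1, B2, A2, ?_⟩
  set Z : ℂ := (t1 * α - t1) + (starRingEnd ℂ) (t2 * β - t2) with hZ
  rw [Real.sqrt_mul A1.le, Real.sqrt_mul B1.le]
  obtain ⟨g1, hg1, eg1⟩ : ∃ g : ℝ, 0 < g ∧ g = Real.sqrt t1.re := ⟨_, Real.sqrt_pos.2 A1, rfl⟩
  obtain ⟨g2, hg2, eg2⟩ : ∃ g : ℝ, 0 < g ∧ g = Real.sqrt t2.re := ⟨_, Real.sqrt_pos.2 A2, rfl⟩
  obtain ⟨f1, hf1, ef1⟩ : ∃ g : ℝ, 0 < g ∧ g = Real.sqrt (t1 * α).re := ⟨_, Real.sqrt_pos.2 B1, rfl⟩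
  obtain ⟨f2, hf2, ef2⟩ : ∃ g : ℝ, 0 < g ∧ g = Real.sqrt (t2 * β).re := ⟨_, Real.sqrt_pos.2 B2, rfl⟩
  have sg1 : t1.re = g1 ^ 2 := by rw [eg1, Real.sq_sqrt A1.le]
  have sg2 : t2.re = g2 ^ 2 := by rw [eg2, Real.sq_sqrt A2.le]
  have sf1 : (t1 * α).re = f1 ^ 2 := by rw [ef1, Real.sq_sqrt B1.le]
  have sf2 : (t2 * β).re = f2 ^ 2 := by rw [ef2, Real.sq_sqrt B2.le]
  rw [← eg1, ← eg2, ← ef1, ← ef2]
  rw [sg1, sg2, sf1, sf2] at ht'
  set s : ℝ := g2 / g1 + g1 / g2 + f2 / f1 + f1 / f2 with hs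
  have hs0 : 0 < s := by positivity
  have hr : 0 < 1 / s := by positivity
  set r : ℝ := 1 / s with hrdef
  have hrs : r * s = 1 := by rw [hrdef]; field_simp
  set K : ℂ := -((r : ℂ) * ((starRingEnd ℂ) Z / (‖Z‖ : ℂ))) with hKdef
  have hKn : ‖K‖ ≤ r := by
    rw [hKdef, norm_neg, norm_mul, norm_div, RCLike.norm_conj, Complex.norm_real, Complex.norm_real,
      Real.norm_of_nonneg hr.le, norm_norm]
    calc r * (‖Z‖ / ‖Z‖) ≤ r * 1 := by
          apply mul_le_mul_of_nonneg_left (div_self_le_one _) hr.le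
      _ = r := mul_one _
  have hK2 : ‖K‖ ^ 2 ≤ r ^ 2 := pow_le_pow_left₀ (norm_nonneg _) hKn 2
  have hZK : (Z * K).re = -(r * ‖Z‖) := by
    rcases eq_or_ne Z 0 with h | h
    · rw [hKdef, h]; simp
    · have hn : (‖Z‖ : ℂ) ≠ 0 := by exact_mod_cast (norm_pos_iff.2 h).ne'
      have e : Z * K = ((-(r * ‖Z‖) : ℝ) : ℂ) := by
        have e2 : Z * (starRingEnd ℂ) Z = (‖Z‖ : ℂ) ^ 2 := Complex.mul_conj' Z
        rw [hKdef]
        push_cast
        field_simp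
        linear_combination (-(r : ℂ)) * e2
      rw [e, Complex.ofReal_re]
  have hmain := ht' (r * (g2 / g1)) (r * (g1 / g2)) (r * (f2 / f1)) (r * (f1 / f2)) K
    (by positivity) (by positivity) (by positivity) (by positivity)
    (by
      have : r * (g2 / g1) * (r * (g1 / g2)) = r ^ 2 := by field_simp
      rw [this]; exact hK2)
    (by
      have : r * (f2 / f1) * (r * (f1 / f2)) = r ^ 2 := by field_simp
      rw [this]; exact hK2)
    (by rw [← hrs, hs]; ring)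
  rw [hZK] at hmain
  have e3 : g1 ^ 2 * (r * (g2 / g1)) + g2 ^ 2 * (r * (g1 / g2)) + f1 ^ 2 * (r * (f2 / f1)) +
      f2 ^ 2 * (r * (f1 / f2)) + -(r * ‖Z‖) = r * (2 * (g1 * g2) + 2 * (f1 * f2) - ‖Z‖) := by
    field_simp
    ring
  rw [e3] at hmain
  have := (mul_pos_iff_of_pos_left hr).1 hmain
  linarith

end AlgSuff

open AlgSuff in
theorem algSuff_ok : TaskAlgSuff := by
  intro cp cm dp dm h
  have h00 := h 0 0 le_rfl zero_le_one le_rfl zero_le_one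
  simp only [Complex.ofReal_zero, mul_zero, sub_zero, mul_one, zero_add] at h00
  have hdp : dp ≠ 0 := left_ne_zero_of_mul h00
  have hdm : dm ≠ 0 := right_ne_zero_of_mul h00
  obtain ⟨t1, t2, hg⟩ := suff' (cp / dp) (cm / dm) (by
    intro a b c ha hb hc hpos h0
    rcases (add_nonneg hb hc).lt_or_eq with hbc | hbc
    · have hT : (a + b + c) ≠ 0 := hpos.ne'
      refine h (b / (b + c)) ((b + c) / (a + b + c)) (by positivity)
        ((div_le_one hbc).2 (by linarith)) (by positivity) ((div_le_one hpos).2 (by linarith)) ?_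
      have hbc' : ((b : ℂ) + c) ≠ 0 := by exact_mod_cast hbc.ne'
      have hT' : ((a : ℂ) + b + c) ≠ 0 := by exact_mod_cast hT
      have e : (cp * dm * ((b / (b + c) : ℝ) : ℂ) + cm * dp * (1 - ((b / (b + c) : ℝ) : ℂ))) *
          (((b + c) / (a + b + c) : ℝ) : ℂ) + dp * dm * (1 - (((b + c) / (a + b + c) : ℝ) : ℂ)) =
          dp * dm / ((a : ℂ) + b + c) * ((a : ℂ) + b * (cp / dp) + c * (cm / dm)) := by
        push_cast
        field_simp
        ring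
      rw [e, h0, mul_zero]
    · have hb0 : b = 0 := by linarith
      have hc0 : c = 0 := by linarith
      subst hb0 hc0
      simp only [Complex.ofReal_zero, zero_mul, add_zero, Complex.ofReal_eq_zero] at h0
      linarith)
  refine ⟨t1 / dp, t2 / dm, ?_⟩
  have e1 : t1 / dp * cp = t1 * (cp / dp) := by ring
  have e2 : t1 / dp * dp = t1 := div_mul_cancel₀ t1 hdp
  have e3 : t2 / dm * cm = t2 * (cm / dm) := by ring
  have e4 : t2 / dm * dm = t2 := div_mul_cancel₀ t2 hdm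
  rw [e1, e2, e3, e4]
  exact hg

end Pool.Agent.H199BE
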