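import Pool.Agent.H199BE.Basic

set_option autoImplicit false
open MeasureTheory Filter Topology

namespace Pool.Agent.H199BE

/-! ### strong ellipticity: adjoint and congruence -/

theorem StrEll.adj {B : L2 →L[ℂ] L2} (h : StrEll B) : StrEll (ContinuousLinearMap.adjoint B) := by
  obtain ⟨D, K, hD, hK, hc, he⟩ := h
  refine ⟨D, K, hD, hK, hc, ?_⟩
  rw [← he, ContinuousLinearMap.adjoint_adjoint, add_comm]

theorem StrEll.conj {B X Y : L2 →L[ℂ] L2} (h : StrEll B) (hYX : Y.comp X = 1) :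
    StrEll ((ContinuousLinearMap.adjoint X).comp (B.comp X)) := by
  obtain ⟨D, K, hD, hK, ⟨c, hc, hpos⟩, he⟩ := h
  refine ⟨(ContinuousLinearMap.adjoint X).comp (D.comp X),
    (ContinuousLinearMap.adjoint X).comp (K.comp X), ?_, ?_, ?_, ?_⟩
  · rw [ContinuousLinearMap.isSelfAdjoint_iff'] at hD ⊢
    rw [ContinuousLinearMap.adjoint_comp, ContinuousLinearMap.adjoint_comp,
      ContinuousLinearMap.adjoint_adjoint, hD, ContinuousLinearMap.comp_assoc]
  · exact (hK.comp_clm X).clm_comp (ContinuousLinearMap.adjoint X)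
  · have hY : ∀ x : L2, ‖x‖ ≤ ‖Y‖ * ‖X x‖ := by
      intro x
      have h1 : Y (X x) = x := by
        have := congrArg (fun L : L2 →L[ℂ] L2 => L x) hYX
        simpa using this
      calc ‖x‖ = ‖Y (X x)‖ := by rw [h1]
        _ ≤ ‖Y‖ * ‖X x‖ := Y.le_opNorm _
    refine ⟨c / (‖Y‖ + 1) ^ 2, by positivity, ?_⟩
    intro x
    have h2 : inner ℂ (((ContinuousLinearMap.adjoint X).comp (D.comp X)) x) x
        = inner ℂ (D (X x)) (X x) := by
      rw [ContinuousLinearMap.comp_apply, ContinuousLinearMap.adjoint_inner_left,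
        ContinuousLinearMap.comp_apply]
    rw [h2]
    refine le_trans ?_ (hpos (X x))
    have h3 : ‖x‖ ≤ (‖Y‖ + 1) * ‖X x‖ := by
      refine (hY x).trans ?_
      have := norm_nonneg (X x)
      nlinarith
    have h4 : ‖x‖ ^ 2 ≤ (‖Y‖ + 1) ^ 2 * ‖X x‖ ^ 2 := by
      rw [← mul_pow]
      exact pow_le_pow_left₀ (norm_nonneg _) h3 2
    rw [div_mul_eq_mul_div, div_le_iff₀ (by positivity)]
    nlinarith
  · have h5 : (ContinuousLinearMap.adjoint X).comp (D.comp X)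
        + (ContinuousLinearMap.adjoint X).comp (K.comp X)
        = (ContinuousLinearMap.adjoint X).comp ((D + K).comp X) := by
      rw [ContinuousLinearMap.add_comp, ContinuousLinearMap.comp_add]
    rw [h5, ← he, ContinuousLinearMap.adjoint_comp, ContinuousLinearMap.adjoint_comp,
      ContinuousLinearMap.adjoint_adjoint, ContinuousLinearMap.comp_assoc,
      ContinuousLinearMap.smul_comp, ContinuousLinearMap.comp_smul, ContinuousLinearMap.add_comp,
      ContinuousLinearMap.comp_add]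

/-! ### piecewise continuity of combinations -/

theorem RLim.conj {a : Circ → ℂ} {x : ℝ} {r : ℂ} (h : RLim a x r) :
    RLim (fun t => (starRingEnd ℂ) (a t)) x ((starRingEnd ℂ) r) :=
  (Complex.continuous_conj.tendsto r).comp h

theorem LLim.conj {a : Circ → ℂ} {x : ℝ} {r : ℂ} (h : LLim a x r) :
    LLim (fun t => (starRingEnd ℂ) (a t)) x ((starRingEnd ℂ) r) :=
  (Complex.continuous_conj.tendsto r).comp h

theorem PC.conj {a : Circ → ℂ} (h : PC a) : PC (fun t => (starRingEnd ℂ) (a t)) := by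
  intro x
  obtain ⟨⟨l, hl⟩, ⟨r, hr⟩⟩ := h x
  exact ⟨⟨_, hl.conj⟩, ⟨_, hr.conj⟩⟩

theorem PC.add {a b : Circ → ℂ} (ha : PC a) (hb : PC b) : PC (fun t => a t + b t) := by
  intro x
  obtain ⟨⟨l, hl⟩, ⟨r, hr⟩⟩ := ha x
  obtain ⟨⟨l', hl'⟩, ⟨r', hr'⟩⟩ := hb x
  exact ⟨⟨_, Tendsto.add hl hl'⟩, ⟨_, Tendsto.add hr hr'⟩⟩

theorem PC.sub {a b : Circ → ℂ} (ha : PC a) (hb : PC b) : PC (fun t => a t - b t) := by
  intro x
  obtain ⟨⟨l, hl⟩, ⟨r, hr⟩⟩ := ha x
  obtain ⟨⟨l', hl'⟩, ⟨r', hr'⟩⟩ := hb x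
  exact ⟨⟨_, Tendsto.sub hl hl'⟩, ⟨_, Tendsto.sub hr hr'⟩⟩

theorem PC.mul {a b : Circ → ℂ} (ha : PC a) (hb : PC b) : PC (fun t => a t * b t) := by
  intro x
  obtain ⟨⟨l, hl⟩, ⟨r, hr⟩⟩ := ha x
  obtain ⟨⟨l', hl'⟩, ⟨r', hr'⟩⟩ := hb x
  exact ⟨⟨_, Tendsto.mul hl hl'⟩, ⟨_, Tendsto.mul hr hr'⟩⟩

theorem RLim.unique {a : Circ → ℂ} {x : ℝ} {r r' : ℂ} (h : RLim a x r) (h' : RLim a x r') : r = r' :=
  tendsto_nhds_unique h h'

theorem LLim.unique {a : Circ → ℂ} {x : ℝ} {r r' : ℂ} (h : LLim a x r) (h' : LLim a x r') : r = r' :=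
  tendsto_nhds_unique h h'

theorem PC.inv {a : Circ → ℂ} (h : PC a) (hr : ∀ x r, RLim a x r → r ≠ 0)
    (hl : ∀ x r, LLim a x r → r ≠ 0) : PC (fun t => (a t)⁻¹) := by
  intro x
  obtain ⟨⟨l, hl1⟩, ⟨r, hr1⟩⟩ := h x
  exact ⟨⟨_, Tendsto.inv₀ hl1 (hl x l hl1)⟩, ⟨_, Tendsto.inv₀ hr1 (hr x r hr1)⟩⟩

/-! ### commutators -/

/-- `B` and its adjoint commute with continuous functions modulo compact operators -/
def CommC (B : L2 →L[ℂ] L2) : Prop :=
  (∀ (g : C(Circ, ℂ)) (M : L2 →L[ℂ] L2), IsMul (⇑g) M → IsCompactOperator (B.comp M - M.comp B)) ∧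
  (∀ (g : C(Circ, ℂ)) (M : L2 →L[ℂ] L2), IsMul (⇑g) M →
      IsCompactOperator ((ContinuousLinearMap.adjoint B).comp M
        - M.comp (ContinuousLinearMap.adjoint B)))

theorem comm_aux (P Mp Mq M : L2 →L[ℂ] L2) (hp : Mp.comp M = M.comp Mp)
    (hq : Mq.comp M = M.comp Mq) (hc : IsCompactOperator (M.comp P - P.comp M)) :
    IsCompactOperator (((Mp.comp P + Mq.comp (1 - P)).comp M
      - M.comp (Mp.comp P + Mq.comp (1 - P)) : L2 →L[ℂ] L2)) := by
  have h1 : ((Mp.comp P + Mq.comp (1 - P)).comp M - M.comp (Mp.comp P + Mq.comp (1 - P)) : L2 →L[ℂ] L2)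
      = (Mq - Mp).comp (M.comp P - P.comp M) := by
    apply ContinuousLinearMap.ext
    intro f
    have e1 : ∀ x, Mp (M x) = M (Mp x) := fun x => by
      have := congrArg (fun L : L2 →L[ℂ] L2 => L x) hp; simpa using this
    have e2 : ∀ x, Mq (M x) = M (Mq x) := fun x => by
      have := congrArg (fun L : L2 →L[ℂ] L2 => L x) hq; simpa using this
    simp only [ContinuousLinearMap.comp_apply, add_apply,
      sub_apply, one_apply_eq_self, map_sub, map_add, e1, e2]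
    abel
  rw [h1]
  exact hc.clm_comp (Mq - Mp)

theorem comm_aux2 (P Mp Mq M : L2 →L[ℂ] L2) (hp : Mp.comp M = M.comp Mp)
    (hq : Mq.comp M = M.comp Mq) (hc : IsCompactOperator (M.comp P - P.comp M)) :
    IsCompactOperator (((P.comp Mp + (1 - P).comp Mq).comp M
      - M.comp (P.comp Mp + (1 - P).comp Mq) : L2 →L[ℂ] L2)) := by
  have h1 : ((P.comp Mp + (1 - P).comp Mq).comp M - M.comp (P.comp Mp + (1 - P).comp Mq) : L2 →L[ℂ] L2)
      = (M.comp P - P.comp M).comp (Mq - Mp) := by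
    apply ContinuousLinearMap.ext
    intro f
    have e1 : ∀ x, Mp (M x) = M (Mp x) := fun x => by
      have := congrArg (fun L : L2 →L[ℂ] L2 => L x) hp; simpa using this
    have e2 : ∀ x, Mq (M x) = M (Mq x) := fun x => by
      have := congrArg (fun L : L2 →L[ℂ] L2 => L x) hq; simpa using this
    simp only [ContinuousLinearMap.comp_apply, add_apply,
      sub_apply, one_apply_eq_self, map_sub, map_add, e1, e2]
    abel
  rw [h1]
  exact hc.comp_clm (Mq - Mp)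

theorem IsMul.commute {a b : Circ → ℂ} {M N : L2 →L[ℂ] L2} (ha : IsMul a M) (hb : IsMul b N) :
    M.comp N = N.comp M :=
  IsMul.ext (ha.comp hb) (hb.comp ha) (fun x => mul_comm _ _)

theorem commC_ok (hComm : TaskComm) {P : L2 →L[ℂ] L2} (hP : IsP P) {p q : Circ → ℂ}
    {Mp Mq : L2 →L[ℂ] L2} (hp : IsMul p Mp) (hq : IsMul q Mq) :
    CommC (Mp.comp P + Mq.comp (1 - P)) := by
  refine ⟨?_, ?_⟩
  · intro g M hM
    exact comm_aux P Mp Mq M (hp.commute hM) (hq.commute hM) (hComm P hP g M hM)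
  · intro g M hM
    have h1 : ContinuousLinearMap.adjoint (Mp.comp P + Mq.comp (1 - P))
        = P.comp (ContinuousLinearMap.adjoint Mp) + (1 - P).comp (ContinuousLinearMap.adjoint Mq) := by
      have hPs := hP.isSelfAdjoint
      rw [ContinuousLinearMap.isSelfAdjoint_iff'] at hPs
      have hQs : ContinuousLinearMap.adjoint (1 - P) = 1 - P := by
        rw [map_sub, hPs]
        congr 1
        exact ContinuousLinearMap.adjoint_id
      rw [map_add, ContinuousLinearMap.adjoint_comp, ContinuousLinearMap.adjoint_comp, hPs, hQs]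
    rw [h1]
    exact comm_aux2 P _ _ M (hp.adjoint.commute hM) (hq.adjoint.commute hM) (hComm P hP g M hM)

/-- sufficiency: locally good symbols give strong ellipticity -/
theorem strEll_of_good (hComm : TaskComm) (hGlue : TaskGlue) (hLoc : TaskLoc)
    (hTwo : TaskTwoProj) {P : L2 →L[ℂ] L2} (hP : IsP P) {p q : Circ → ℂ}
    {Mp Mq : L2 →L[ℂ] L2} (hp : IsMul p Mp) (hq : IsMul q Mq) (hpPC : PC p) (hqPC : PC q)
    (hgood : ∀ (x : ℝ) (p1 q1 p2 q2 : ℂ), RLim p x p1 → RLim q x q1 → LLim p x p2 → LLim q x q2 →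
      Good p1 q1 p2 q2) :
    StrEll (Mp.comp P + Mq.comp (1 - P)) := by
  obtain ⟨hc1, hc2⟩ := commC_ok hComm hP hp hq
  refine hGlue _ hc1 hc2 ?_
  intro t
  obtain ⟨x0, rfl⟩ := QuotientAddGroup.mk_surjective t
  obtain ⟨⟨p2, hp2⟩, ⟨p1, hp1⟩⟩ := hpPC x0
  obtain ⟨⟨q2, hq2⟩, ⟨q1, hq1⟩⟩ := hqPC x0
  exact hLoc hTwo P hP.isSelfAdjoint hP.idem p q Mp Mq hp hq x0 p1 q1 p2 q2 hp1 hq1 hp2 hq2
    (hgood x0 p1 q1 p2 q2 hp1 hq1 hp2 hq2)

theorem cond3_conj {cp cm dp dm : ℂ} (h : Cond3 cp cm dp dm) :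
    Cond3 ((starRingEnd ℂ) cp) ((starRingEnd ℂ) cm) ((starRingEnd ℂ) dp) ((starRingEnd ℂ) dm) := by
  intro μ ν h1 h2 h3 h4 h5
  apply h μ ν h1 h2 h3 h4
  have := congrArg (starRingEnd ℂ) h5
  simp only [map_add, map_mul, Complex.conj_conj, Complex.conj_ofReal, map_sub, map_one,
    map_zero] at this
  exact this

theorem good_ne {θ1 cp dp θ2 cm dm : ℂ} (h : Good (θ1 * cp) (θ1 * dp) (θ2 * cm) (θ2 * dm)) :
    θ1 ≠ 0 ∧ θ2 ≠ 0 := by
  obtain ⟨h1, _, h3, _, _⟩ := h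
  constructor
  · rintro rfl; simp at h1
  · rintro rfl; simp at h3

/-- the symbol condition at all points -/
def AllCond3 (a b : Circ → ℂ) : Prop :=
  ∀ x : ℝ, ∀ ap am bp bm : ℂ, RLim a x ap → LLim a x am → RLim b x bp → LLim b x bm →
    Cond3 (ap + bp) (am + bm) (ap - bp) (am - bm)

end Pool.Agent.H199BE
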