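import Pool.Agent.H199BE.Stmts

set_option autoImplicit false
open MeasureTheory Filter Topology

namespace Pool.Agent.H199BE

/-! ### multiplication operators -/

theorem IsMul.add {a b : Circ → ℂ} {M N : L2 →L[ℂ] L2} (ha : IsMul a M) (hb : IsMul b N) :
    IsMul (fun x => a x + b x) (M + N) := by
  intro f
  have h1 : ((M + N) f : L2) = M f + N f := rfl
  rw [h1]
  filter_upwards [Lp.coeFn_add (M f) (N f), ha f, hb f] with x h2 h3 h4
  rw [h2, Pi.add_apply, h3, h4]; ring

theorem IsMul.sub {a b : Circ → ℂ} {M N : L2 →L[ℂ] L2} (ha : IsMul a M) (hb : IsMul b N) :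
    IsMul (fun x => a x - b x) (M - N) := by
  intro f
  have h1 : ((M - N) f : L2) = M f - N f := rfl
  rw [h1]
  filter_upwards [Lp.coeFn_sub (M f) (N f), ha f, hb f] with x h2 h3 h4
  rw [h2, Pi.sub_apply, h3, h4]; ring

theorem IsMul.comp {a b : Circ → ℂ} {M N : L2 →L[ℂ] L2} (ha : IsMul a M) (hb : IsMul b N) :
    IsMul (fun x => a x * b x) (M.comp N) := by
  intro f
  have h1 : ((M.comp N) f : L2) = M (N f) := rfl
  rw [h1]
  filter_upwards [ha (N f), hb f] with x h3 h4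
  rw [h3, h4]; ring

theorem isMul_one : IsMul (fun _ => 1) (1 : L2 →L[ℂ] L2) := by
  intro f
  have h1 : ((1 : L2 →L[ℂ] L2) f : L2) = f := rfl
  rw [h1]
  filter_upwards with x
  rw [one_mul]

theorem IsMul.ext {a b : Circ → ℂ} {M N : L2 →L[ℂ] L2} (ha : IsMul a M) (hb : IsMul b N)
    (hab : ∀ x, a x = b x) : M = N := by
  apply ContinuousLinearMap.ext
  intro f
  apply Lp.ext
  filter_upwards [ha f, hb f] with x h3 h4
  rw [h3, h4, hab x]

theorem IsMul.congr {a b : Circ → ℂ} {M : L2 →L[ℂ] L2} (ha : IsMul a M)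
    (hab : ∀ x, a x = b x) : IsMul b M := by
  have : a = b := funext hab
  rw [← this]; exact ha

theorem IsMul.aesm {a : Circ → ℂ} {M : L2 →L[ℂ] L2} (ha : IsMul a M) :
    AEStronglyMeasurable a hm := by
  have h1 := ha (fourierLp (T := (1:ℝ)) 2 0)
  have h2 : (fourierLp (T := (1:ℝ)) 2 0 : Circ → ℂ) =ᵐ[hm] fun x => fourier 0 x := by
    exact coeFn_fourierLp 2 0
  have h3 : AEStronglyMeasurable (M (fourierLp (T := (1:ℝ)) 2 0) : Circ → ℂ) hm :=
    Lp.aestronglyMeasurable _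
  refine h3.congr ?_
  filter_upwards [h1, h2] with x h4 h5
  rw [h4, h5]; simp

theorem IsMul.memLp_conj {a : Circ → ℂ} {M : L2 →L[ℂ] L2} (ha : IsMul a M) (f : L2) :
    MemLp (fun x => (starRingEnd ℂ) (a x) * f x) 2 hm := by
  have hM : MemLp (M f : Circ → ℂ) 2 hm := Lp.memLp _
  refine MemLp.of_le hM ?_ ?_
  · exact (Complex.continuous_conj.comp_aestronglyMeasurable ha.aesm).mul (Lp.aestronglyMeasurable f)
  · filter_upwards [ha f] with x hx
    rw [hx, norm_mul, norm_mul, RCLike.norm_conj]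

theorem IsMul.adjoint {a : Circ → ℂ} {M : L2 →L[ℂ] L2} (ha : IsMul a M) :
    IsMul (fun x => (starRingEnd ℂ) (a x)) (ContinuousLinearMap.adjoint M) := by
  intro f
  have hkey : ContinuousLinearMap.adjoint M f = (ha.memLp_conj f).toLp _ := by
    apply ext_inner_right ℂ
    intro h
    rw [ContinuousLinearMap.adjoint_inner_left, L2.inner_def, L2.inner_def]
    apply integral_congr_ae
    filter_upwards [ha h, (ha.memLp_conj f).coeFn_toLp] with x h1 h2
    rw [h1, h2]
    simp only [RCLike.inner_apply, map_mul, Complex.conj_conj]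
    ring
  rw [hkey]
  exact (ha.memLp_conj f).coeFn_toLp

/-! ### the Riesz projection -/

theorem inner_fourierLp (m n : ℤ) :
    inner ℂ (fourierLp (T := (1:ℝ)) 2 m) (fourierLp (T := (1:ℝ)) 2 n) = if m = n then (1:ℂ) else 0 := by
  have := orthonormal_fourier (T := (1:ℝ))
  rw [orthonormal_iff_ite] at this
  exact this m n

theorem ext_fourier {A B : L2 →L[ℂ] L2}
    (h : ∀ n : ℤ, A (fourierLp (T := (1:ℝ)) 2 n) = B (fourierLp (T := (1:ℝ)) 2 n)) : A = B := by
  apply ContinuousLinearMap.ext_on (s := Set.range (fourierLp (T := (1:ℝ)) 2))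
  · have := span_fourierLp_closure_eq_top (T := (1:ℝ)) (p := 2) (by norm_num)
    rw [← Submodule.dense_iff_topologicalClosure_eq_top] at this
    exact this
  · rintro _ ⟨n, rfl⟩
    exact h n

theorem IsP.idem {P : L2 →L[ℂ] L2} (hP : IsP P) : P.comp P = P := by
  apply ext_fourier
  intro n
  have h1 : (P.comp P) (fourierLp (T := (1:ℝ)) 2 n) = P (P (fourierLp (T := (1:ℝ)) 2 n)) := rfl
  rw [h1, hP n]
  split_ifs with h
  · rw [hP n, if_pos h]
  · rw [map_zero]

theorem IsP.isSelfAdjoint {P : L2 →L[ℂ] L2} (hP : IsP P) : IsSelfAdjoint P := by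
  rw [ContinuousLinearMap.isSelfAdjoint_iff']
  symm
  apply ext_fourier
  intro n
  -- show P e_n = P* e_n
  have hd : Dense ((Submodule.span ℂ (Set.range (fourierLp (T := (1:ℝ)) 2)) : Submodule ℂ L2) : Set L2) := by
    have := span_fourierLp_closure_eq_top (T := (1:ℝ)) (p := 2) (by norm_num)
    rwa [← Submodule.dense_iff_topologicalClosure_eq_top] at this
  have hb : (innerSL ℂ (P (fourierLp (T := (1:ℝ)) 2 n)) : L2 →L[ℂ] ℂ)
      = innerSL ℂ (ContinuousLinearMap.adjoint P (fourierLp (T := (1:ℝ)) 2 n)) := by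
    apply ContinuousLinearMap.ext_on (s := Set.range (fourierLp (T := (1:ℝ)) 2)) hd
    rintro _ ⟨m, rfl⟩
    rw [innerSL_apply_apply, innerSL_apply_apply, ContinuousLinearMap.adjoint_inner_left, hP n, hP m]
    by_cases h1 : 0 ≤ n <;> by_cases h2 : 0 ≤ m
    · simp [h1, h2]
    · have : n ≠ m := by omega
      simp [h1, h2, inner_fourierLp, this]
    · have : n ≠ m := by omega
      simp [h1, h2, inner_fourierLp, this]
    · simp [h1, h2]
  apply ext_inner_right ℂ
  intro v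
  have := congrArg (fun L : L2 →L[ℂ] ℂ => L v) hb
  simpa only [innerSL_apply_apply] using this

theorem riesz_ok : TaskRiesz := by
  refine ⟨fun P hP => ⟨hP.isSelfAdjoint, hP.idem⟩, ?_⟩
  intro S hS
  refine ⟨(1/2:ℂ) • (1 + S), ?_, ?_⟩
  · intro n
    have h1 : ((1/2:ℂ) • (1 + S) : L2 →L[ℂ] L2) (fourierLp (T := (1:ℝ)) 2 n)
        = (1/2:ℂ) • (fourierLp (T := (1:ℝ)) 2 n + S (fourierLp (T := (1:ℝ)) 2 n)) := rfl
    rw [h1, hS n]
    split_ifs with h
    · rw [one_smul, ← two_smul ℂ, smul_smul]; norm_num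
    · rw [neg_one_smul, add_neg_cancel, smul_zero]
  · apply ContinuousLinearMap.ext
    intro f
    have h1 : ((1/2:ℂ) • (1 + S) - (1 - (1/2:ℂ) • (1 + S)) : L2 →L[ℂ] L2) f
        = (1/2:ℂ) • (f + S f) - (f - (1/2:ℂ) • (f + S f)) := rfl
    rw [h1]
    module

end Pool.Agent.H199BE
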