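import Pool.Agent.H199BE.Stmts

/-! Task A of the project BE: commutators of the Riesz projection with continuous functions are
compact. -/

set_option autoImplicit false

open MeasureTheory Filter Topology Set

namespace Pool.Agent.H199BE

/-- multiplication by continuous functions as a continuous linear map into the operators -/
noncomputable def cmulL : C(Circ, ℂ) →L[ℂ] (L2 →L[ℂ] L2) :=
  ((ContinuousLinearMap.mul ℂ ℂ).holderL hm ⊤ 2 2).comp (ContinuousMap.toLp ⊤ hm ℂ)

theorem cmulL_isMul (g : C(Circ, ℂ)) : IsMul (⇑g) (cmulL g) := by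
  intro f
  have h1 : (cmulL g) f =
      (ContinuousLinearMap.mul ℂ ℂ).holder 2 (ContinuousMap.toLp ⊤ hm ℂ g) f := rfl
  rw [h1]
  have h2 := (ContinuousLinearMap.mul ℂ ℂ).coeFn_holder (r := 2)
    (ContinuousMap.toLp (E := ℂ) ⊤ hm ℂ g) f
  have h3 := ContinuousMap.coeFn_toLp (p := ⊤) (𝕜 := ℂ) hm g
  filter_upwards [h2, h3] with x hx hy
  rw [hx, hy]
  rfl

theorem isMul_unique {a : Circ → ℂ} {M N : L2 →L[ℂ] L2} (hM : IsMul a M) (hN : IsMul a N) :
    M = N := by
  ext1 f
  apply Lp.ext
  exact (hM f).trans (hN f).symm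

theorem cmul_fourier (k n : ℤ) : cmulL (fourier k) (fourierLp (T := (1:ℝ)) 2 n) =
    fourierLp (T := (1:ℝ)) 2 (n + k) := by
  apply Lp.ext
  have h1 := cmulL_isMul (fourier k) (fourierLp (T := (1:ℝ)) 2 n)
  have h2 := coeFn_fourierLp (T := (1:ℝ)) 2 n
  have h3 := coeFn_fourierLp (T := (1:ℝ)) 2 (n + k)
  filter_upwards [h1, h2, h3] with x hx hy hz
  rw [hx, hy, hz, fourier_add, mul_comm]

/-- the commutator with the multiplication by `g` -/
noncomputable def cm (P : L2 →L[ℂ] L2) (g : C(Circ, ℂ)) : L2 →L[ℂ] L2 :=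
  (cmulL g).comp P - P.comp (cmulL g)

theorem cm_cont (P : L2 →L[ℂ] L2) : Continuous (cm P) := by
  unfold cm
  have h1 : Continuous fun g : C(Circ, ℂ) => (cmulL g).comp P :=
    cmulL.continuous.clm_comp continuous_const
  have h2 : Continuous fun g : C(Circ, ℂ) => P.comp (cmulL g) :=
    continuous_const.clm_comp cmulL.continuous
  exact h1.sub h2

theorem cm_add (P : L2 →L[ℂ] L2) (g h : C(Circ, ℂ)) : cm P (g + h) = cm P g + cm P h := by
  unfold cm
  rw [map_add, ContinuousLinearMap.add_comp, ContinuousLinearMap.comp_add]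
  abel

theorem cm_smul (P : L2 →L[ℂ] L2) (c : ℂ) (g : C(Circ, ℂ)) : cm P (c • g) = c • cm P g := by
  unfold cm
  rw [map_smul, ContinuousLinearMap.smul_comp, ContinuousLinearMap.comp_smul, smul_sub]

theorem rank_one_compact (e w : L2) :
    IsCompactOperator ((innerSL ℂ e).smulRight w : L2 →L[ℂ] L2) := by
  have h1 : IsCompactOperator (innerSL ℂ e : L2 →L[ℂ] ℂ) :=
    isCompactOperator_of_locallyCompactSpace_dom _
  have h2 := h1.clm_comp (ContinuousLinearMap.toSpanSingleton ℂ w)
  exact h2

theorem sum_compact {ι : Type*} (s : Finset ι) (F : ι → L2 →L[ℂ] L2)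
    (h : ∀ i ∈ s, IsCompactOperator (F i)) : IsCompactOperator (∑ i ∈ s, F i : L2 →L[ℂ] L2) := by
  classical
  induction s using Finset.induction_on with
  | empty =>
    simp only [Finset.sum_empty]
    exact isCompactOperator_zero
  | insert a s ha ih =>
    rw [Finset.sum_insert ha]
    have h1 := h a (Finset.mem_insert_self a s)
    have h2 := ih fun i hi => h i (Finset.mem_insert_of_mem hi)
    exact h1.add h2

theorem cm_fourier (P : L2 →L[ℂ] L2) (hP : IsP P) (k : ℤ) :
    IsCompactOperator (cm P (fourier k)) := by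
  set C := cm P (fourier k) with hC
  have hval : ∀ n : ℤ, n ∉ Finset.Icc (-|k|) |k| → C (fourierLp (T := (1:ℝ)) 2 n) = 0 := by
    intro n hn
    have h1 : C (fourierLp (T := (1:ℝ)) 2 n) =
        cmulL (fourier k) (P (fourierLp (T := (1:ℝ)) 2 n)) -
          P (cmulL (fourier k) (fourierLp (T := (1:ℝ)) 2 n)) := rfl
    rw [h1, hP n, cmul_fourier, hP (n + k)]
    have hk := abs_nonneg k
    have h2 : -|k| ≤ k := neg_abs_le k
    have h3 : k ≤ |k| := le_abs_self k
    rw [Finset.mem_Icc, not_and_or, not_le, not_le] at hn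
    rcases hn with hn | hn
    · rw [if_neg (by omega), if_neg (by omega)]
      simp
    · rw [if_pos (by omega), if_pos (by omega), cmul_fourier, sub_self]
  have hsum : C = ∑ m ∈ Finset.Icc (-|k|) |k|,
      ((innerSL ℂ (fourierLp (T := (1:ℝ)) 2 m)).smulRight (C (fourierLp (T := (1:ℝ)) 2 m)) :
        L2 →L[ℂ] L2) := by
    have hd : Dense (Submodule.span ℂ (range (fourierLp (T := (1:ℝ)) 2)) : Set L2) := by
      have h1 := span_fourierLp_closure_eq_top (T := (1:ℝ)) (p := 2) (by norm_num)
      intro x
      have h2 : x ∈ (Submodule.span ℂ (range (fourierLp (T := (1:ℝ)) 2))).topologicalClosure := by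
        rw [h1]; trivial
      exact h2
    refine ContinuousLinearMap.ext_on hd ?_
    rintro _ ⟨n, rfl⟩
    rw [ContinuousLinearMap.sum_apply]
    have ho := orthonormal_iff_ite.1 (orthonormal_fourier (T := (1:ℝ)))
    have h3 : ∀ m ∈ Finset.Icc (-|k|) |k|,
        ((innerSL ℂ (fourierLp (T := (1:ℝ)) 2 m)).smulRight (C (fourierLp (T := (1:ℝ)) 2 m)) :
          L2 →L[ℂ] L2) (fourierLp (T := (1:ℝ)) 2 n) =
        if m = n then C (fourierLp (T := (1:ℝ)) 2 m) else 0 := by
      intro m _
      rw [ContinuousLinearMap.smulRight_apply, innerSL_apply_apply, ho m n]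
      split_ifs <;> simp
    rw [Finset.sum_congr rfl h3, Finset.sum_ite_eq']
    split_ifs with h4
    · rfl
    · exact hval n h4
  rw [hsum]
  exact sum_compact _ _ fun m _ => rank_one_compact _ _

theorem cm_compact (P : L2 →L[ℂ] L2) (hP : IsP P) (g : C(Circ, ℂ)) :
    IsCompactOperator (cm P g) := by
  let V : Submodule ℂ C(Circ, ℂ) :=
    { carrier := {g | IsCompactOperator (cm P g)}
      add_mem' := by
        intro a b ha hb
        show IsCompactOperator (cm P (a + b))
        rw [cm_add]
        exact IsCompactOperator.add ha hb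
      zero_mem' := by
        show IsCompactOperator (cm P 0)
        have h0 : cm P 0 = 0 := by
          unfold cm
          simp
        rw [h0]
        exact isCompactOperator_zero
      smul_mem' := by
        intro c a ha
        show IsCompactOperator (cm P (c • a))
        rw [cm_smul]
        exact IsCompactOperator.smul ha c }
  have hV : IsClosed (V : Set C(Circ, ℂ)) := by
    have h1 : IsClosed {f : L2 →L[ℂ] L2 | IsCompactOperator f} :=
      isClosed_setOfPred_isCompactOperator
    exact h1.preimage (cm_cont P)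
  have hle : Submodule.span ℂ (range (fourier (T := (1:ℝ)))) ≤ V := by
    rw [Submodule.span_le]
    rintro _ ⟨k, rfl⟩
    exact cm_fourier P hP k
  have h2 := Submodule.topologicalClosure_minimal _ hle hV
  rw [span_fourier_closure_eq_top] at h2
  exact h2 (Submodule.mem_top (x := g))

theorem comm_ok : TaskComm := by
  intro P hP g M hM
  have h1 : M = cmulL g := isMul_unique hM (cmulL_isMul g)
  rw [h1]
  exact cm_compact P hP g

end Pool.Agent.H199BE
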