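import Pool.Agent.H199BE.Stmts

/-!
Task L of project BE (helper199), done by helper49: compact operators kill sequences
concentrating at a point.
-/

set_option autoImplicit false
open MeasureTheory Filter Topology

namespace Pool.Agent.H199BE.ConcCompact

open Pool.Agent.H199BE

/-- restriction of `f` to a measurable set -/
noncomputable def res (A : Set Circ) (hA : MeasurableSet A) (f : L2) : L2 :=
  MemLp.toLp (A.indicator f) ((Lp.memLp f).indicator hA)

theorem res_ae (A : Set Circ) (hA : MeasurableSet A) (f : L2) :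
    (res A hA f : Circ → ℂ) =ᵐ[hm] A.indicator f := MemLp.coeFn_toLp _

theorem norm_sq_eq (f : L2) : ‖f‖ ^ 2 = ∫ x, ‖f x‖ ^ 2 ∂hm := by
  have h1 : (inner ℂ f f : ℂ) = ((‖f‖ ^ 2 : ℝ) : ℂ) := by
    rw [inner_self_eq_norm_sq_to_K]; norm_cast
  rw [L2.inner_def] at h1
  have h2 : (∫ x, (inner ℂ (f x) (f x) : ℂ) ∂hm) = ((∫ x, ‖f x‖ ^ 2 ∂hm : ℝ) : ℂ) := by
    rw [← integral_complex_ofReal]
    refine integral_congr_ae (Eventually.of_forall fun x => ?_)
    show (inner ℂ (f x) (f x) : ℂ) = ((‖f x‖ ^ 2 : ℝ) : ℂ)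
    rw [inner_self_eq_norm_sq_to_K]; norm_cast
  rw [h2] at h1
  exact (Complex.ofReal_injective h1).symm

theorem res_norm_sq (A : Set Circ) (hA : MeasurableSet A) (f : L2) :
    ‖res A hA f‖ ^ 2 = ∫ x in A, ‖f x‖ ^ 2 ∂hm := by
  rw [norm_sq_eq, ← integral_indicator hA]
  refine integral_congr_ae ?_
  filter_upwards [res_ae A hA f] with x hx
  rw [hx]
  by_cases h : x ∈ A <;> simp [h]

theorem inner_split (A : Set Circ) (hA : MeasurableSet A) (f g : L2) :
    (inner ℂ f g : ℂ) = inner ℂ (res A hA f) g + inner ℂ f (res Aᶜ hA.compl g) := by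
  rw [L2.inner_def, L2.inner_def, L2.inner_def,
    ← integral_add (L2.integrable_inner _ _) (L2.integrable_inner _ _)]
  refine integral_congr_ae ?_
  filter_upwards [res_ae A hA f, res_ae Aᶜ hA.compl g] with x h1 h2
  rw [h1, h2]
  by_cases h : x ∈ A <;> simp [h]

theorem sq_integrable (f : L2) : Integrable (fun x => ‖f x‖ ^ 2) hm := by
  have := (Lp.memLp f).integrable_norm_pow (p := 2) (by norm_num)
  simpa using this

/-- the part of a fixed function near a point is small -/
theorem near_small (w : L2) (x0 : ℝ) :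
    Tendsto (fun n : ℕ => ∫ x in {x : Circ | ‖x - (x0 : Circ)‖ < 1 / ((n : ℝ) + 1)}, ‖w x‖ ^ 2 ∂hm)
      atTop (𝓝 0) := by
  have hmeas : ∀ n : ℕ, MeasurableSet {x : Circ | ‖x - (x0 : Circ)‖ < 1 / ((n : ℝ) + 1)} :=
    fun n => measurableSet_lt (by fun_prop) measurable_const
  have hanti : Antitone (fun n : ℕ => {x : Circ | ‖x - (x0 : Circ)‖ < 1 / ((n : ℝ) + 1)}) := by
    intro m n hmn x hx
    simp only [Set.mem_ofPred_eq] at *
    refine lt_of_lt_of_le hx ?_
    apply one_div_le_one_div_of_le (by positivity)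
    have : (m : ℝ) ≤ n := by exact_mod_cast hmn
    linarith
  have h := tendsto_setIntegral_of_antitone (μ := (hm : Measure Circ)) (f := fun x => ‖w x‖ ^ 2)
    hmeas hanti ⟨0, (sq_integrable w).integrableOn⟩
  have hI : (⋂ n : ℕ, {x : Circ | ‖x - (x0 : Circ)‖ < 1 / ((n : ℝ) + 1)}) = {(x0 : Circ)} := by
    ext x
    simp only [Set.mem_iInter, Set.mem_ofPred_eq, Set.mem_singleton_iff]
    constructor
    · intro hx
      have h0 : ‖x - (x0 : Circ)‖ ≤ 0 := by
        refine ge_of_tendsto' (tendsto_one_div_add_atTop_nhds_zero_nat (𝕜 := ℝ)) ?_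
        intro n
        exact (hx n).le
      have := norm_le_zero_iff.mp h0
      exact sub_eq_zero.mp this
    · intro hx n
      rw [hx, sub_self, norm_zero]
      positivity
  rw [hI] at h
  have hz : (hm : Measure Circ) {(x0 : Circ)} = 0 := by
    have h1 : (volume : Measure Circ) = (hm : Measure Circ) := by
      rw [AddCircle.volume_eq_smul_haarAddCircle]; simp
    rw [← h1, ← Metric.closedBall_zero, AddCircle.volume_closedBall]
    simp
  rw [setIntegral_measure_zero _ hz] at h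
  exact h

theorem weak (h : ℕ → L2) (x0 : ℝ) (hb : ∀ k, ‖h k‖ ≤ 1) (hc : Conc h x0) (w : L2) :
    Tendsto (fun k => (inner ℂ (h k) w : ℂ)) atTop (𝓝 0) := by
  rw [tendsto_zero_iff_norm_tendsto_zero, Metric.tendsto_atTop]
  intro δ hδ
  -- choose the neighbourhood
  have hδ2 : 0 < (δ / 2) ^ 2 := by positivity
  obtain ⟨n, hn⟩ := ((near_small w x0).eventually (gt_mem_nhds hδ2)).exists
  set ε : ℝ := 1 / ((n : ℝ) + 1) with hε
  have hεpos : 0 < ε := by positivity
  set A : Set Circ := {x : Circ | ε ≤ ‖x - (x0 : Circ)‖} with hAdef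
  have hA : MeasurableSet A := measurableSet_le measurable_const (by fun_prop)
  have hAc : Aᶜ = {x : Circ | ‖x - (x0 : Circ)‖ < 1 / ((n : ℝ) + 1)} := by
    ext x; simp [hAdef, hε]
  have hW : 0 < (δ / (2 * (‖w‖ + 1))) ^ 2 := by positivity
  have hev := (hc ε hεpos).eventually (gt_mem_nhds hW)
  obtain ⟨N, hN⟩ := eventually_atTop.mp hev
  refine ⟨N, fun k hk => ?_⟩
  have hk1 := hN k hk
  rw [dist_zero_right, norm_norm]
  have h1 : ‖res A hA (h k)‖ < δ / (2 * (‖w‖ + 1)) := by
    have h3 : ‖res A hA (h k)‖ ^ 2 < (δ / (2 * (‖w‖ + 1))) ^ 2 := by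
      rw [res_norm_sq]; exact hk1
    exact lt_of_pow_lt_pow_left₀ 2 (by positivity) h3
  have h2 : ‖res Aᶜ hA.compl w‖ < δ / 2 := by
    have h3 : ‖res Aᶜ hA.compl w‖ ^ 2 < (δ / 2) ^ 2 := by
      rw [res_norm_sq, hAc]; exact hn
    exact lt_of_pow_lt_pow_left₀ 2 (by positivity) h3
  calc ‖(inner ℂ (h k) w : ℂ)‖
      = ‖(inner ℂ (res A hA (h k)) w : ℂ) + inner ℂ (h k) (res Aᶜ hA.compl w)‖ := by
        rw [← inner_split]
    _ ≤ ‖(inner ℂ (res A hA (h k)) w : ℂ)‖ + ‖(inner ℂ (h k) (res Aᶜ hA.compl w) : ℂ)‖ :=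
        norm_add_le _ _
    _ ≤ ‖res A hA (h k)‖ * ‖w‖ + ‖h k‖ * ‖res Aᶜ hA.compl w‖ :=
        add_le_add (norm_inner_le_norm _ _) (norm_inner_le_norm _ _)
    _ ≤ (δ / (2 * (‖w‖ + 1))) * ‖w‖ + 1 * ‖res Aᶜ hA.compl w‖ :=
        add_le_add (mul_le_mul_of_nonneg_right h1.le (norm_nonneg _))
          (mul_le_mul_of_nonneg_right (hb k) (norm_nonneg _))
    _ < δ / 2 + δ / 2 := by
        have h4 : (δ / (2 * (‖w‖ + 1))) * ‖w‖ ≤ δ / 2 := by
          have hw := norm_nonneg w
          rw [div_mul_eq_mul_div, div_le_div_iff₀ (by positivity) (by positivity)]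
          nlinarith
        linarith
    _ = δ := by ring

theorem concCompact_ok : TaskConcCompact := by
  intro h x0 hb hc K hK
  rw [← tendsto_zero_iff_norm_tendsto_zero]
  have hC : IsCompact (closure (K '' Metric.closedBall (0 : L2) 1)) :=
    IsCompactOperator.isCompact_closure_image_closedBall hK 1
  refine hC.tendsto_nhds_of_unique_mapClusterPt ?_ ?_
  · refine Eventually.of_forall fun k => subset_closure ⟨h k, ?_, rfl⟩
    rw [mem_closedBall_zero_iff]
    exact hb k
  · intro y _ hy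
    have key : ∀ z : L2, (inner ℂ y z : ℂ) = 0 := by
      intro z
      have hcont : ContinuousAt (fun v : L2 => (inner ℂ v z : ℂ)) y :=
        (Continuous.inner continuous_id continuous_const).continuousAt
      have h1 : MapClusterPt (inner ℂ y z : ℂ) atTop
          ((fun v : L2 => (inner ℂ v z : ℂ)) ∘ fun k => K (h k)) :=
        hy.continuousAt_comp hcont
      have h2 : Tendsto ((fun v : L2 => (inner ℂ v z : ℂ)) ∘ fun k => K (h k)) atTop (𝓝 0) := by
        have h3 := weak h x0 hb hc (ContinuousLinearMap.adjoint K z)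
        refine h3.congr fun k => ?_
        simp only [Function.comp]
        rw [ContinuousLinearMap.adjoint_inner_right]
      have h4 : ClusterPt (inner ℂ y z : ℂ) (𝓝 0) := ClusterPt.mono h1 h2
      exact (eq_of_nhds_neBot h4)
    have := key y
    exact inner_self_eq_zero.mp this

end Pool.Agent.H199BE.ConcCompact
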