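import Pool.Agent.H199BE.Stmts

set_option autoImplicit false
open MeasureTheory Filter Topology

namespace Pool.Agent.H199BE

theorem norm_sq_L2 (f : L2) : ‖f‖ ^ 2 = ∫ x, ‖f x‖ ^ 2 ∂hm := by
  have h := MeasureTheory.L2.inner_def (𝕜 := ℂ) f f
  have h1 : (inner ℂ f f : ℂ) = ((‖f‖ ^ 2 : ℝ) : ℂ) := by
    rw [inner_self_eq_norm_sq_to_K]; norm_cast
  have h2 : ∀ x, (inner ℂ (f x) (f x) : ℂ) = ((‖f x‖ ^ 2 : ℝ) : ℂ) := by
    intro x; rw [inner_self_eq_norm_sq_to_K]; norm_cast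
  simp_rw [h2] at h
  rw [h1, integral_complex_ofReal] at h
  exact_mod_cast h

theorem hm_singleton (x : Circ) : hm {x} = 0 := by
  haveI : Nontrivial Circ := ⟨⟨((1/2 : ℝ) : Circ), 0, by
    intro h
    obtain ⟨n, hn⟩ := (AddCircle.coe_eq_zero_iff (1:ℝ)).1 h
    have h2 : ((2 * n : ℤ) : ℝ) = 1 := by
      push_cast
      simp only [zsmul_eq_mul, mul_one] at hn
      rw [hn]; norm_num
    have h3 : (2 * n : ℤ) = 1 := by exact_mod_cast h2
    omega⟩⟩
  haveI : NullSingletonClass hm := inferInstance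
  exact measure_singleton _

theorem near_lift (x0 ε : ℝ) (x : Circ) (hx : ‖x - (x0 : Circ)‖ < ε) :
    ∃ s : ℝ, |s - x0| < ε ∧ (s : Circ) = x := by
  induction x using QuotientAddGroup.induction_on with
  | H y =>
    have h1 : ‖((y - x0 : ℝ) : Circ)‖ < ε := by simpa using hx
    rw [AddCircle.norm_eq] at h1
    refine ⟨y - round ((1:ℝ)⁻¹ * (y - x0)) * 1, ?_, ?_⟩
    · convert h1 using 2; ring
    · have : (((round ((1:ℝ)⁻¹ * (y - x0)) : ℝ) * 1 : ℝ) : Circ) = 0 := by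
        rw [mul_one]
        have := AddCircle.coe_period (1:ℝ)
        rw [show ((round ((1:ℝ)⁻¹ * (y - x0)) : ℤ) : ℝ) = (round ((1:ℝ)⁻¹ * (y - x0)) : ℤ) • (1:ℝ) by simp]
        rw [AddCircle.coe_zsmul, this, smul_zero]
      change (((y - round ((1:ℝ)⁻¹ * (y - x0)) * 1 : ℝ)) : Circ) = (y : Circ)
      rw [AddCircle.coe_sub, this, sub_zero]

theorem ConcMul_ok : TaskConcMul := by
  intro h x0 hb hc g M _ hM hR hL
  rw [Metric.tendsto_atTop]
  intro η hη
  -- choose ε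
  have hR' : ∀ᶠ s : ℝ in 𝓝[>] x0, ‖g (↑s : Circ)‖ < η / 2 := by
    have := (tendsto_zero_iff_norm_tendsto_zero.1 hR).eventually_lt_const (half_pos hη)
    exact this
  have hL' : ∀ᶠ s : ℝ in 𝓝[<] x0, ‖g (↑s : Circ)‖ < η / 2 := by
    have := (tendsto_zero_iff_norm_tendsto_zero.1 hL).eventually_lt_const (half_pos hη)
    exact this
  have hN : ∀ᶠ s : ℝ in 𝓝[≠] x0, ‖g (↑s : Circ)‖ < η / 2 := by
    rw [← Set.Iio_union_Ioi, nhdsWithin_union]
    exact eventually_sup.2 ⟨hL', hR'⟩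
  rw [eventually_nhdsWithin_iff, Metric.eventually_nhds_iff] at hN
  obtain ⟨ε, hε, hN⟩ := hN
  -- the far set
  set F : Set Circ := {x : Circ | ε ≤ ‖x - (x0 : Circ)‖} with hF
  have hFm : MeasurableSet F := by
    apply IsClosed.measurableSet
    exact isClosed_le continuous_const (by fun_prop)
  have hfar : ∀ k, ∃ u : L2, (u : Circ → ℂ) =ᵐ[hm] F.indicator (h k) := fun k =>
    ⟨((Lp.memLp (h k)).indicator hFm).toLp _, MemLp.coeFn_toLp _⟩
  choose u hu using hfar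
  have hun : ∀ k, ‖u k‖ ^ 2 = ∫ x in F, ‖h k x‖ ^ 2 ∂hm := by
    intro k
    rw [norm_sq_L2, ← integral_indicator hFm]
    apply integral_congr_ae
    filter_upwards [hu k] with x hx
    rw [hx]
    by_cases hxF : x ∈ F
    · simp [hxF]
    · simp [hxF]
  have hnull : ∀ᵐ x ∂hm, x ≠ (x0 : Circ) := by
    have : hm {(x0 : Circ)} = 0 := hm_singleton _
    rw [ae_iff]; simpa using this
  have hnear : ∀ k, ‖M (h k - u k)‖ ≤ η / 2 * ‖h k‖ := by
    intro k
    apply Lp.norm_le_mul_norm_of_ae_le_mul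
    filter_upwards [hM (h k - u k), Lp.coeFn_sub (h k) (u k), hu k, hnull] with x h1 h2 h3 h4
    rw [h1, h2]
    simp only [Pi.sub_apply]
    rw [h3]
    by_cases hxF : x ∈ F
    · simp only [Set.indicator_of_mem hxF, sub_self, mul_zero, norm_zero]
      positivity
    · simp only [Set.indicator_of_notMem hxF, sub_zero, norm_mul]
      have hx1 : ‖x - (x0 : Circ)‖ < ε := by simpa [hF] using hxF
      obtain ⟨s, hs1, hs2⟩ := near_lift x0 ε x hx1
      have hs3 : s ≠ x0 := by rintro rfl; exact h4 hs2.symm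
      have := hN (y := s) (by rw [Real.dist_eq]; exact hs1) hs3
      rw [hs2] at this
      exact mul_le_mul_of_nonneg_right this.le (norm_nonneg _)
  have hc' := hc ε hε
  have hsq : Tendsto (fun k => ‖M‖ * ‖u k‖) atTop (𝓝 0) := by
    have h1 : Tendsto (fun k => Real.sqrt (‖u k‖ ^ 2)) atTop (𝓝 (Real.sqrt 0)) := by
      apply (Real.continuous_sqrt.tendsto 0).comp
      simp_rw [hun]; exact hc'
    have h2 : (fun k => Real.sqrt (‖u k‖ ^ 2)) = fun k => ‖u k‖ := by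
      funext k; exact Real.sqrt_sq (norm_nonneg _)
    rw [h2, Real.sqrt_zero] at h1
    simpa using h1.const_mul ‖M‖
  obtain ⟨N, hN2⟩ := (Metric.tendsto_atTop.1 hsq) (η / 2) (half_pos hη)
  refine ⟨N, fun k hk => ?_⟩
  have h1 := hN2 k hk
  rw [Real.dist_eq, sub_zero, abs_of_nonneg (by positivity)] at h1
  rw [Real.dist_eq, sub_zero, abs_of_nonneg (norm_nonneg _)]
  have h2 : M (h k) = M (h k - u k) + M (u k) := by rw [← map_add, sub_add_cancel]
  rw [h2]
  calc ‖M (h k - u k) + M (u k)‖ ≤ ‖M (h k - u k)‖ + ‖M (u k)‖ := norm_add_le _ _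
    _ ≤ η / 2 * ‖h k‖ + ‖M‖ * ‖u k‖ := add_le_add (hnear k) (M.le_opNorm _)
    _ ≤ η / 2 * 1 + ‖M‖ * ‖u k‖ := by
        have := hb k
        gcongr
    _ < η := by linarith

end Pool.Agent.H199BE
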