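import Pool.Agent.H199BE.Assembly

set_option autoImplicit false
open MeasureTheory Filter Topology

namespace Pool.Agent.H199BE

/-! ### the first operator form -/

theorem decomp1 {P S Ma Mb MΘ : L2 →L[ℂ] L2} (hS : S = P - (1 - P)) :
    MΘ.comp (Ma + Mb.comp S)
      = (MΘ.comp (Ma + Mb)).comp P + (MΘ.comp (Ma - Mb)).comp (1 - P) := by
  apply ContinuousLinearMap.ext
  intro f
  simp only [hS, ContinuousLinearMap.comp_apply, add_apply, sub_apply, one_apply_eq_self, map_sub,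
    map_add]
  abel

theorem decomp2 {P S Ma Mb : L2 →L[ℂ] L2} (hS : S = P - (1 - P)) :
    Ma + S.comp Mb = P.comp (Ma + Mb) + (1 - P).comp (Ma - Mb) := by
  apply ContinuousLinearMap.ext
  intro f
  simp only [hS, ContinuousLinearMap.comp_apply, add_apply, sub_apply, one_apply_eq_self, map_sub,
    map_add]
  abel

section

variable (hComm : TaskComm) (hGlue : TaskGlue) (hPCmul : TaskPCmul) (hTwo : TaskTwoProj)
  (hLoc : TaskLoc) (hAlgS : TaskAlgSuff) (hAlgN : TaskAlgNec) (hTheta : TaskTheta)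
  (hTest2 : TaskTest2) (hNec : TaskNec)

include hComm hGlue hTwo hLoc hAlgS hTheta in
/-- sufficiency, common part: a multiplier `Θ` for `c`, `d` -/
theorem suff_core {c d : Circ → ℂ} (hc : PC c) (hd : PC d)
    (h3 : ∀ (x : ℝ) (cp cm dp dm : ℂ), RLim c x cp → LLim c x cm → RLim d x dp → LLim d x dm →
      Cond3 cp cm dp dm)
    {P : L2 →L[ℂ] L2} (hP : IsP P) {Mc Md : L2 →L[ℂ] L2} (hMc : IsMul c Mc) (hMd : IsMul d Md) :
    ∃ Θ : Circ → ℂ, PC Θ ∧ (∀ t, Θ t ≠ 0) ∧ (∀ x r, RLim Θ x r → r ≠ 0) ∧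
      (∀ x r, LLim Θ x r → r ≠ 0) ∧
      ∀ MΘ : L2 →L[ℂ] L2, IsMul Θ MΘ →
        StrEll ((MΘ.comp Mc).comp P + (MΘ.comp Md).comp (1 - P)) := by
  obtain ⟨Θ, hΘ, hΘ0, hgood⟩ := hTheta c d hc hd (fun x cp cm dp dm h1 h2 h4 h5 =>
    hAlgS cp cm dp dm (h3 x cp cm dp dm h1 h2 h4 h5))
  have hne : ∀ x rp rm, RLim Θ x rp → LLim Θ x rm → rp ≠ 0 ∧ rm ≠ 0 := by
    intro x rp rm h1 h2
    obtain ⟨⟨cm, hcm⟩, ⟨cp, hcp⟩⟩ := hc x
    obtain ⟨⟨dm, hdm⟩, ⟨dp, hdp⟩⟩ := hd x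
    exact good_ne (hgood x cp cm dp dm rp rm hcp hcm hdp hdm h1 h2)
  refine ⟨Θ, hΘ, hΘ0, ?_, ?_, ?_⟩
  · intro x r hr
    obtain ⟨⟨l, hl⟩, _⟩ := hΘ x
    exact (hne x r l hr hl).1
  · intro x l hl
    obtain ⟨_, ⟨r, hr⟩⟩ := hΘ x
    exact (hne x r l hr hl).2
  · intro MΘ hMΘ
    refine strEll_of_good hComm hGlue hLoc hTwo hP (hMΘ.comp hMc) (hMΘ.comp hMd) (hΘ.mul hc)
      (hΘ.mul hd) ?_
    intro x p1 q1 p2 q2 hp1 hq1 hp2 hq2
    obtain ⟨⟨cm, hcm⟩, ⟨cp, hcp⟩⟩ := hc x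
    obtain ⟨⟨dm, hdm⟩, ⟨dp, hdp⟩⟩ := hd x
    obtain ⟨⟨θm, hθm⟩, ⟨θp, hθp⟩⟩ := hΘ x
    have e1 : p1 = θp * cp := hp1.unique (Tendsto.mul hθp hcp)
    have e2 : q1 = θp * dp := hq1.unique (Tendsto.mul hθp hdp)
    have e3 : p2 = θm * cm := hp2.unique (Tendsto.mul hθm hcm)
    have e4 : q2 = θm * dm := hq2.unique (Tendsto.mul hθm hdm)
    rw [e1, e2, e3, e4]
    exact hgood x cp cm dp dm θp θm hcp hcm hdp hdm hθp hθm

include hAlgN hTest2 hNec in
/-- necessity, common part -/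
theorem nec_core {c d Θ : Circ → ℂ} (hc : PC c) (hd : PC d) (hΘ : PC Θ)
    {P : L2 →L[ℂ] L2} (hP : IsP P) {Mc Md MΘ : L2 →L[ℂ] L2} (hMc : IsMul c Mc) (hMd : IsMul d Md)
    (hMΘ : IsMul Θ MΘ)
    (hE : StrEll ((MΘ.comp Mc).comp P + (MΘ.comp Md).comp (1 - P))) :
    ∀ (x : ℝ) (cp cm dp dm : ℂ), RLim c x cp → LLim c x cm → RLim d x dp → LLim d x dm →
      Cond3 cp cm dp dm := by
  intro x cp cm dp dm hcp hcm hdp hdm
  obtain ⟨γ, hγ, hform⟩ := hNec hTest2 P hP (fun t => Θ t * c t) (fun t => Θ t * d t)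
    (MΘ.comp Mc) (MΘ.comp Md) (hΘ.mul hc) (hΘ.mul hd) (hMΘ.comp hMc) (hMΘ.comp hMd) hE
  obtain ⟨⟨θm, hθm⟩, ⟨θp, hθp⟩⟩ := hΘ x
  refine hAlgN cp cm dp dm θp θm γ hγ ?_
  intro μ h0 h1 f1 f2
  exact hform x (θp * cp) (θp * dp) (θm * cm) (θm * dm) (Tendsto.mul hθp hcp)
    (Tendsto.mul hθp hdp) (Tendsto.mul hθm hcm) (Tendsto.mul hθm hdm) μ h0 h1 f1 f2

include hTest2 in
/-- if `M_Θ B` is strongly elliptic then the one-sided limits of `Θ` do not vanish -/
theorem limits_ne {Θ : Circ → ℂ} (hΘ : PC Θ) {P : L2 →L[ℂ] L2} (hP : IsP P)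
    {MΘ B : L2 →L[ℂ] L2} (hMΘ : IsMul Θ MΘ) (hE : StrEll (MΘ.comp B)) (x : ℝ) (rp rm : ℂ)
    (hrp : RLim Θ x rp) (hrm : LLim Θ x rm) : rp ≠ 0 ∧ rm ≠ 0 := by
  obtain ⟨D, K, hD, hK, ⟨c, hc, hpos⟩, he⟩ := hE
  obtain ⟨u, v, hu, hv, _, _, _, hcomp, hmul⟩ := hTest2 P hP x (1/2) (by norm_num) (by norm_num)
  obtain ⟨hKu, hKv⟩ := hcomp K hK
  obtain ⟨hMu, hMv⟩ := hmul _ _ _ _ hΘ.conj hMΘ.adjoint hrp.conj hrm.conj
  -- general argument
  have key : ∀ w : ℕ → L2, Tendsto (fun k => ‖w k‖) atTop (𝓝 1) →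
      Tendsto (fun k => ‖K (w k)‖) atTop (𝓝 0) →
      Tendsto (fun k => ‖ContinuousLinearMap.adjoint MΘ (w k)‖) atTop (𝓝 0) → False := by
    intro w hw hKw hMw
    have h1 : ∀ k, c * ‖w k‖ ^ 2 ≤
        ‖B‖ * ‖w k‖ * ‖ContinuousLinearMap.adjoint MΘ (w k)‖ + ‖K (w k)‖ * ‖w k‖ := by
      intro k
      have h2 := hpos (w k)
      have h3 : (inner ℂ ((D + K) (w k)) (w k)).re
          = (inner ℂ (B (w k)) (ContinuousLinearMap.adjoint MΘ (w k))).re := by
        rw [← he]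
        have h4 : ((1/2 : ℂ) • (MΘ.comp B + ContinuousLinearMap.adjoint (MΘ.comp B)) : L2 →L[ℂ] L2)
            (w k) = (1/2 : ℂ) • (MΘ (B (w k)) + ContinuousLinearMap.adjoint (MΘ.comp B) (w k)) := rfl
        rw [h4, inner_smul_left, inner_add_left, ContinuousLinearMap.adjoint_inner_left,
          ContinuousLinearMap.adjoint_inner_right]
        have h5 : inner ℂ (w k) ((MΘ.comp B) (w k)) = (starRingEnd ℂ) (inner ℂ (MΘ (B (w k))) (w k)) := by
          rw [inner_conj_symm]; rfl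
        rw [h5]
        have h6 : (starRingEnd ℂ) (1/2 : ℂ) = 1/2 := by
          rw [show (1/2 : ℂ) = ((1/2 : ℝ) : ℂ) by norm_num, Complex.conj_ofReal]
        rw [h6, Complex.add_conj]
        rw [show (1/2 : ℂ) * ((2 * (inner ℂ (MΘ (B (w k))) (w k)).re : ℝ) : ℂ)
          = (((inner ℂ (MΘ (B (w k))) (w k)).re : ℝ) : ℂ) by push_cast; ring]
        rw [Complex.ofReal_re]
      have h7 : (inner ℂ ((D + K) (w k)) (w k)).re
          = (inner ℂ (D (w k)) (w k)).re + (inner ℂ (K (w k)) (w k)).re := by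
        rw [add_apply, inner_add_left, Complex.add_re]
      have h8 : |(inner ℂ (K (w k)) (w k)).re| ≤ ‖K (w k)‖ * ‖w k‖ :=
        (Complex.abs_re_le_norm _).trans (norm_inner_le_norm _ _)
      have h9 : (inner ℂ (B (w k)) (ContinuousLinearMap.adjoint MΘ (w k))).re
          ≤ ‖B‖ * ‖w k‖ * ‖ContinuousLinearMap.adjoint MΘ (w k)‖ := by
        refine (Complex.re_le_norm _).trans ((norm_inner_le_norm _ _).trans ?_)
        exact mul_le_mul_of_nonneg_right (B.le_opNorm _) (norm_nonneg _)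
      have h10 := abs_le.1 h8
      linarith [h10.1, h10.2]
    have h2 : Tendsto (fun k => c * ‖w k‖ ^ 2) atTop (𝓝 (c * 1 ^ 2)) :=
      (hw.pow 2).const_mul c
    have h3 : Tendsto (fun k => ‖B‖ * ‖w k‖ * ‖ContinuousLinearMap.adjoint MΘ (w k)‖
        + ‖K (w k)‖ * ‖w k‖) atTop (𝓝 (‖B‖ * 1 * 0 + 0 * 1)) :=
      ((hw.const_mul ‖B‖).mul hMw).add (hKw.mul hw)
    have h4 := le_of_tendsto_of_tendsto' h2 h3 h1
    simp only [one_pow, mul_one, mul_zero, zero_mul, add_zero] at h4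
    linarith
  constructor
  · rintro rfl
    refine key u hu hKu ?_
    simpa using hMu
  · rintro rfl
    refine key v hv hKv ?_
    simpa using hMv

/-- operator identities used for the second form -/
theorem conj_identity1 {P Mc Md MΘ MΨ : L2 →L[ℂ] L2} (hPs : ContinuousLinearMap.adjoint P = P)
    (hinv : MΘ.comp MΨ = 1) :
    (ContinuousLinearMap.adjoint (ContinuousLinearMap.adjoint MΘ)).comp
      ((ContinuousLinearMap.adjoint
        ((MΨ.comp (ContinuousLinearMap.adjoint Mc)).comp P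
          + (MΨ.comp (ContinuousLinearMap.adjoint Md)).comp (1 - P))).comp
            (ContinuousLinearMap.adjoint MΘ))
      = MΘ.comp (P.comp Mc + (1 - P).comp Md) := by
  have hQs : ContinuousLinearMap.adjoint (1 - P) = 1 - P := by
    rw [map_sub, hPs]
    congr 1
    exact ContinuousLinearMap.adjoint_id
  have hinv' : (ContinuousLinearMap.adjoint MΨ).comp (ContinuousLinearMap.adjoint MΘ) = 1 := by
    rw [← ContinuousLinearMap.adjoint_comp, hinv]
    exact ContinuousLinearMap.adjoint_id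
  have hinv2 : ∀ f, ContinuousLinearMap.adjoint MΨ (ContinuousLinearMap.adjoint MΘ f) = f := by
    intro f
    have := congrArg (fun L : L2 →L[ℂ] L2 => L f) hinv'
    simpa using this
  simp only [map_add, ContinuousLinearMap.adjoint_comp, ContinuousLinearMap.adjoint_adjoint,
    hPs, hQs]
  apply ContinuousLinearMap.ext
  intro f
  simp only [ContinuousLinearMap.comp_apply, add_apply, hinv2]

theorem conj_identity2 {P Mc Md MΘ MΨ : L2 →L[ℂ] L2} (hPs : ContinuousLinearMap.adjoint P = P)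
    (hinv : MΨ.comp MΘ = 1) :
    (ContinuousLinearMap.adjoint (ContinuousLinearMap.adjoint MΨ)).comp
      ((ContinuousLinearMap.adjoint (MΘ.comp (P.comp Mc + (1 - P).comp Md))).comp
            (ContinuousLinearMap.adjoint MΨ))
      = (MΨ.comp (ContinuousLinearMap.adjoint Mc)).comp P
          + (MΨ.comp (ContinuousLinearMap.adjoint Md)).comp (1 - P) := by
  have hQs : ContinuousLinearMap.adjoint (1 - P) = 1 - P := by
    rw [map_sub, hPs]
    congr 1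
    exact ContinuousLinearMap.adjoint_id
  have hinv' : (ContinuousLinearMap.adjoint MΘ).comp (ContinuousLinearMap.adjoint MΨ) = 1 := by
    rw [← ContinuousLinearMap.adjoint_comp, hinv]
    exact ContinuousLinearMap.adjoint_id
  have hinv2 : ∀ f, ContinuousLinearMap.adjoint MΘ (ContinuousLinearMap.adjoint MΨ f) = f := by
    intro f
    have := congrArg (fun L : L2 →L[ℂ] L2 => L f) hinv'
    simpa using this
  simp only [map_add, ContinuousLinearMap.adjoint_comp, ContinuousLinearMap.adjoint_adjoint,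
    hPs, hQs]
  apply ContinuousLinearMap.ext
  intro f
  simp only [ContinuousLinearMap.comp_apply, add_apply, hinv2, map_add]

include hComm hGlue hPCmul hTwo hLoc hAlgS hAlgN hTheta hTest2 hNec in
theorem final :
    ∀ (a b : Circ → ℂ), PC a → PC b → ∀ (S Ma Mb : L2 →L[ℂ] L2),
    (∀ n : ℤ, S (fourierLp (T := (1:ℝ)) 2 n) =
        (if 0 ≤ n then (1:ℂ) else -1) • fourierLp (T := (1:ℝ)) 2 n) →
    IsMul a Ma → IsMul b Mb →
    (AllCond3 a b ↔ ∃ Θ : Circ → ℂ, PC Θ ∧ (∀ t, Θ t ≠ 0) ∧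
      ∀ MΘ : L2 →L[ℂ] L2, IsMul Θ MΘ → StrEll (MΘ.comp (Ma + Mb.comp S))) ∧
    (AllCond3 a b ↔ ∃ Θ : Circ → ℂ, PC Θ ∧ (∀ t, Θ t ≠ 0) ∧
      ∀ MΘ : L2 →L[ℂ] L2, IsMul Θ MΘ → StrEll (MΘ.comp (Ma + S.comp Mb))) := by
  intro a b ha hb S Ma Mb hS hMa hMb
  obtain ⟨P, hP, hSP⟩ := riesz_ok.2 S hS
  have hPs : ContinuousLinearMap.adjoint P = P := by
    have := hP.isSelfAdjoint
    rwa [ContinuousLinearMap.isSelfAdjoint_iff'] at this
  have hc := ha.add hb
  have hd := ha.sub hb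
  have hMc := hMa.add hMb
  have hMd := hMa.sub hMb
  -- condition (3) in terms of c, d
  have hCc : AllCond3 a b ↔ ∀ (x : ℝ) (cp cm dp dm : ℂ), RLim (fun t => a t + b t) x cp →
      LLim (fun t => a t + b t) x cm → RLim (fun t => a t - b t) x dp →
      LLim (fun t => a t - b t) x dm → Cond3 cp cm dp dm := by
    constructor
    · intro h x cp cm dp dm h1 h2 h3 h4
      obtain ⟨⟨am, ham⟩, ⟨ap, hap⟩⟩ := ha x
      obtain ⟨⟨bm, hbm⟩, ⟨bp, hbp⟩⟩ := hb x
      have e1 : cp = ap + bp := h1.unique (Tendsto.add hap hbp)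
      have e2 : cm = am + bm := h2.unique (Tendsto.add ham hbm)
      have e3 : dp = ap - bp := h3.unique (Tendsto.sub hap hbp)
      have e4 : dm = am - bm := h4.unique (Tendsto.sub ham hbm)
      rw [e1, e2, e3, e4]
      exact h x ap am bp bm hap ham hbp hbm
    · intro h x ap am bp bm hap ham hbp hbm
      exact h x _ _ _ _ (Tendsto.add hap hbp) (Tendsto.add ham hbm) (Tendsto.sub hap hbp)
        (Tendsto.sub ham hbm)
  refine ⟨⟨?_, ?_⟩, ⟨?_, ?_⟩⟩
  · -- form 1, sufficiency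
    intro h
    obtain ⟨Θ, h1, h2, _, _, h5⟩ := suff_core hComm hGlue hTwo hLoc hAlgS hTheta hc hd (hCc.1 h) hP
      hMc hMd
    refine ⟨Θ, h1, h2, ?_⟩
    intro MΘ hMΘ
    rw [decomp1 hSP]
    exact h5 MΘ hMΘ
  · -- form 1, necessity
    rintro ⟨Θ, h1, h2, h3⟩
    obtain ⟨MΘ, hMΘ⟩ := hPCmul Θ h1
    have h4 := h3 MΘ hMΘ
    rw [decomp1 hSP] at h4
    exact hCc.2 (nec_core hAlgN hTest2 hNec hc hd h1 hP hMc hMd hMΘ h4)
  · -- form 2, sufficiency
    intro h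
    have h' := hCc.1 h
    obtain ⟨Θ', h1, h2, hr, hl, h5⟩ := suff_core hComm hGlue hTwo hLoc hAlgS hTheta hc.conj hd.conj
      (fun x cp cm dp dm g1 g2 g3 g4 => by
        have := cond3_conj (h' x _ _ _ _
          (show RLim (fun t => a t + b t) x ((starRingEnd ℂ) cp) by simpa using g1.conj)
          (show LLim (fun t => a t + b t) x ((starRingEnd ℂ) cm) by simpa using g2.conj)
          (show RLim (fun t => a t - b t) x ((starRingEnd ℂ) dp) by simpa using g3.conj)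
          (show LLim (fun t => a t - b t) x ((starRingEnd ℂ) dm) by simpa using g4.conj))
        simpa using this) hP hMc.adjoint hMd.adjoint
    refine ⟨fun t => (Θ' t)⁻¹, h1.inv hr hl, fun t => inv_ne_zero (h2 t), ?_⟩
    intro MΘ hMΘ
    obtain ⟨MΨ, hMΨ⟩ := hPCmul Θ' h1
    have e1 : MΘ.comp MΨ = 1 := IsMul.ext (hMΘ.comp hMΨ) isMul_one
      (fun t => inv_mul_cancel₀ (h2 t))
    have e2 : (ContinuousLinearMap.adjoint MΨ).comp (ContinuousLinearMap.adjoint MΘ) = 1 := by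
      rw [← ContinuousLinearMap.adjoint_comp, e1]
      exact ContinuousLinearMap.adjoint_id
    have h6 := (h5 MΨ hMΨ).adj.conj e2
    rw [conj_identity1 hPs e1] at h6
    rw [decomp2 hSP]
    exact h6
  · -- form 2, necessity
    rintro ⟨Θ, h1, h2, h3⟩
    obtain ⟨MΘ, hMΘ⟩ := hPCmul Θ h1
    have h4 := h3 MΘ hMΘ
    rw [decomp2 hSP] at h4
    have hne := limits_ne hTest2 h1 hP hMΘ h4
    have hr : ∀ x r, RLim Θ x r → r ≠ 0 := by
      intro x r hr
      obtain ⟨⟨l, hl⟩, _⟩ := h1 x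
      exact (hne x r l hr hl).1
    have hl : ∀ x r, LLim Θ x r → r ≠ 0 := by
      intro x l hl
      obtain ⟨_, ⟨r, hr⟩⟩ := h1 x
      exact (hne x r l hr hl).2
    have hinvPC : PC (fun t => (Θ t)⁻¹) := h1.inv hr hl
    obtain ⟨MΨ, hMΨ⟩ := hPCmul _ hinvPC
    have e1 : MΨ.comp MΘ = 1 := IsMul.ext (hMΨ.comp hMΘ) isMul_one
      (fun t => inv_mul_cancel₀ (h2 t))
    have e1' : MΘ.comp MΨ = 1 := IsMul.ext (hMΘ.comp hMΨ) isMul_one
      (fun t => mul_inv_cancel₀ (h2 t))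
    have e2 : (ContinuousLinearMap.adjoint MΘ).comp (ContinuousLinearMap.adjoint MΨ) = 1 := by
      rw [← ContinuousLinearMap.adjoint_comp, e1]
      exact ContinuousLinearMap.adjoint_id
    have h6 := h4.adj.conj e2
    rw [conj_identity2 hPs e1] at h6
    have h7 := nec_core hAlgN hTest2 hNec hc.conj hd.conj hinvPC hP hMc.adjoint hMd.adjoint hMΨ h6
    refine hCc.2 ?_
    intro x cp cm dp dm g1 g2 g3 g4
    have := cond3_conj (h7 x _ _ _ _ g1.conj g2.conj g3.conj g4.conj)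
    simpa using this

end

end Pool.Agent.H199BE
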