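import Mathlib
import Pool.Agent.H199BE.Stmts

/-! TaskGlue of project H199-BE (helper199), by helper471. -/

set_option autoImplicit false
open MeasureTheory Filter Topology

namespace Pool.Agent.H199BE

namespace Glue

theorem mul_memLp (g : C(Circ, ℂ)) (f : L2) : MemLp (fun x => g x * f x) 2 hm := by
  refine (Lp.memLp f).of_le_mul (c := ‖g‖) ?_ (Eventually.of_forall fun x => ?_)
  · exact g.continuous.aestronglyMeasurable.mul (Lp.aestronglyMeasurable f)
  · rw [norm_mul]
    gcongr
    exact g.norm_coe_le_norm x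

/-- multiplication by a continuous function -/
noncomputable def Ml (g : C(Circ, ℂ)) : L2 →ₗ[ℂ] L2 where
  toFun f := (mul_memLp g f).toLp _
  map_add' f h := by
    apply Lp.ext
    filter_upwards [(mul_memLp g (f + h)).coeFn_toLp, (mul_memLp g f).coeFn_toLp,
      (mul_memLp g h).coeFn_toLp, Lp.coeFn_add f h,
      Lp.coeFn_add ((mul_memLp g f).toLp _) ((mul_memLp g h).toLp _)] with x h1 h2 h3 h4 h5
    rw [h1, h5, Pi.add_apply, h2, h3, h4, Pi.add_apply]
    ring
  map_smul' c f := by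
    apply Lp.ext
    filter_upwards [(mul_memLp g (c • f)).coeFn_toLp, (mul_memLp g f).coeFn_toLp,
      Lp.coeFn_smul c f, Lp.coeFn_smul c ((mul_memLp g f).toLp _)] with x h1 h2 h3 h4
    rw [h1, RingHom.id_apply, h4, Pi.smul_apply, h2, h3, Pi.smul_apply]
    simp only [smul_eq_mul]
    ring

theorem Ml_coe (g : C(Circ, ℂ)) (f : L2) : (Ml g f : Circ → ℂ) =ᵐ[hm] fun x => g x * f x :=
  (mul_memLp g f).coeFn_toLp

noncomputable def Mc (g : C(Circ, ℂ)) : L2 →L[ℂ] L2 :=
  (Ml g).mkContinuous ‖g‖ fun f => by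
    refine Lp.norm_le_mul_norm_of_ae_le_mul ?_
    filter_upwards [Ml_coe g f] with x h1
    rw [h1, norm_mul]
    gcongr
    exact g.norm_coe_le_norm x

theorem Mc_mul (g : C(Circ, ℂ)) : IsMul (⇑g) (Mc g) := fun f => Ml_coe g f

/-- real functions give self-adjoint operators -/
theorem Mc_symm (g : C(Circ, ℂ)) (hg : ∀ x, (starRingEnd ℂ) (g x) = g x) (f h : L2) :
    inner ℂ (Mc g f) h = inner ℂ f (Mc g h) := by
  rw [L2.inner_def, L2.inner_def]
  refine integral_congr_ae ?_
  filter_upwards [Mc_mul g f, Mc_mul g h] with x h1 h2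
  rw [h1, h2]
  simp only [RCLike.inner_apply, map_mul, hg]
  ring

theorem Mc_adj (g : C(Circ, ℂ)) (hg : ∀ x, (starRingEnd ℂ) (g x) = g x) :
    ContinuousLinearMap.adjoint (Mc g) = Mc g := by
  symm
  rw [ContinuousLinearMap.eq_adjoint_iff]
  exact fun f h => Mc_symm g hg f h

theorem exists_min {ι : Type*} [Fintype ι] (γ : ι → ℝ) (h : ∀ i, 0 < γ i) :
    ∃ c : ℝ, 0 < c ∧ ∀ i, c ≤ γ i := by
  classical
  by_cases he : Nonempty ι
  · obtain ⟨i, hi⟩ := Finite.exists_min γ
    exact ⟨γ i, h i, hi⟩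
  · exact ⟨1, one_pos, fun i => absurd ⟨i⟩ he⟩

/-- square partition of unity -/
theorem exists_pou (U : Circ → Set Circ) (hU : ∀ t, U t ∈ 𝓝 t) :
    ∃ (F : Finset Circ) (g : F → C(Circ, ℂ)), (∀ i x, (starRingEnd ℂ) (g i x) = g i x) ∧
      (∀ x, ∑ i, g i x * g i x = 1) ∧ ∀ (i : F) (x : Circ), x ∉ U i → g i x = 0 := by
  obtain ⟨F, -, hF⟩ := isCompact_univ.elim_nhds_subcover (fun t => interior (U t))
    (fun t _ => interior_mem_nhds.2 (hU t))
  obtain ⟨f, hf⟩ := PartitionOfUnity.exists_isSubordinate (X := Circ) (ι := F) (s := Set.univ)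
    isClosed_univ (fun i => interior (U i)) (fun i => isOpen_interior) (by
      intro x hx
      have := hF hx
      simp only [Set.mem_iUnion] at this ⊢
      obtain ⟨t, ht, hx⟩ := this
      exact ⟨⟨t, ht⟩, hx⟩)
  refine ⟨F, fun i => ⟨fun x => (Real.sqrt (f i x) : ℂ), by fun_prop⟩, ?_, ?_, ?_⟩
  · intro i x
    simp
  · intro x
    simp only [ContinuousMap.coe_mk]
    have h1 := f.sum_eq_one (Set.mem_univ x)
    rw [finsum_eq_sum_of_fintype] at h1
    have h2 : ∀ i : F, ((Real.sqrt (f i x) : ℝ) : ℂ) * ((Real.sqrt (f i x) : ℝ) : ℂ) =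
        ((f i x : ℝ) : ℂ) := by
      intro i
      rw [← Complex.ofReal_mul, Real.mul_self_sqrt (f.nonneg i x)]
    simp only [h2]
    rw [← Complex.ofReal_sum, h1, Complex.ofReal_one]
  · intro i x hx
    simp only [ContinuousMap.coe_mk]
    have h1 : f i x = 0 := by
      by_contra h
      exact hx (interior_subset (hf i (subset_tsupport _ h)))
    rw [h1]
    simp

theorem compact_sum {ι : Type*} (s : Finset ι) (T : ι → L2 →L[ℂ] L2)
    (h : ∀ i ∈ s, IsCompactOperator (T i)) :
    IsCompactOperator ((∑ i ∈ s, T i : L2 →L[ℂ] L2) : L2 → L2) := by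
  classical
  induction s using Finset.induction_on with
  | empty =>
    simp only [Finset.sum_empty]
    exact isCompactOperator_zero
  | insert a s ha ih =>
    rw [Finset.sum_insert ha]
    exact (h a (Finset.mem_insert_self _ _)).add (ih fun i hi => h i (Finset.mem_insert_of_mem hi))

theorem main (B : L2 →L[ℂ] L2)
    (h1 : ∀ (g : C(Circ, ℂ)) (M : L2 →L[ℂ] L2), IsMul (⇑g) M →
      IsCompactOperator (B.comp M - M.comp B))
    (h2 : ∀ (g : C(Circ, ℂ)) (M : L2 →L[ℂ] L2), IsMul (⇑g) M →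
      IsCompactOperator ((ContinuousLinearMap.adjoint B).comp M
        - M.comp (ContinuousLinearMap.adjoint B)))
    (h3 : ∀ t : Circ, ∃ U ∈ 𝓝 t, ∃ γ : ℝ, 0 < γ ∧ ∀ f : L2, (∀ᵐ y ∂hm, y ∉ U → f y = 0) →
      γ * ‖f‖ ^ 2 ≤ (inner ℂ (B f) f).re) :
    StrEll B := by
  classical
  choose U hU γ hγ hB using h3
  obtain ⟨F, g, hg1, hg2, hg3⟩ := exists_pou U hU
  obtain ⟨c, hc, hcγ⟩ := exists_min (fun i : F => γ i) (fun i => hγ i)
  set M : F → L2 →L[ℂ] L2 := fun i => Mc (g i) with hM
  have hMadj : ∀ i, ContinuousLinearMap.adjoint (M i) = M i := fun i => Mc_adj _ (hg1 i)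
  have hsum : ∑ i, (M i).comp (M i) = 1 := by
    ext f
    have e1 : (∑ i, (M i).comp (M i)) f = ∑ i, M i (M i f) := by
      rw [_root_.sum_apply]
      rfl
    rw [e1]
    have e2 : ((∑ i, M i (M i f) : L2) : Circ → ℂ) =ᵐ[hm] fun x => ∑ i, (M i (M i f) : Circ → ℂ) x := by
      have := Lp.coeFn_finsetSum (p := 2) (μ := hm) Finset.univ (fun i => M i (M i f))
      filter_upwards [this] with x hx
      rw [hx, Finset.sum_apply]
    have e3 : ∀ᵐ x ∂hm, ∀ i, (M i (M i f) : Circ → ℂ) x = g i x * (g i x * f x) := by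
      rw [ae_all_iff]
      intro i
      filter_upwards [Mc_mul (g i) (M i f), Mc_mul (g i) f] with x a1 a2
      rw [hM]
      simp only
      rw [a1]
      congr 1
    filter_upwards [e2, e3] with x a1 a2
    rw [a1]
    simp only [a2, ← mul_assoc]
    rw [← Finset.sum_mul, hg2, one_mul]
    rfl
  set B' : L2 →L[ℂ] L2 := ∑ i, (M i).comp (B.comp (M i)) with hB'
  set C : L2 →L[ℂ] L2 := B - B' with hC
  have hCeq : C = ∑ i, (B.comp (M i) - (M i).comp B).comp (M i) := by
    have e1 : B = ∑ i, B.comp ((M i).comp (M i)) := by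
      rw [← ContinuousLinearMap.comp_finsetSum, hsum]
      rfl
    rw [hC, hB']
    conv_lhs => rw [e1]
    rw [← Finset.sum_sub_distrib]
    refine Finset.sum_congr rfl fun i _ => ?_
    conv_lhs => rw [← e1]
    ext f
    simp
  have hCc : IsCompactOperator C := by
    rw [hCeq]
    refine compact_sum _ (fun i => (B.comp (M i) - (M i).comp B).comp (M i)) fun i _ => ?_
    exact (h1 (g i) (M i) (Mc_mul (g i))).comp_clm (M i)
  have hB'adj : ContinuousLinearMap.adjoint B' =
      ∑ i, (M i).comp ((ContinuousLinearMap.adjoint B).comp (M i)) := by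
    rw [hB', map_sum]
    refine Finset.sum_congr rfl fun i _ => ?_
    rw [ContinuousLinearMap.adjoint_comp, ContinuousLinearMap.adjoint_comp, hMadj i]
    rfl
  have hCadjeq : ContinuousLinearMap.adjoint C =
      ∑ i, ((ContinuousLinearMap.adjoint B).comp (M i) -
        (M i).comp (ContinuousLinearMap.adjoint B)).comp (M i) := by
    have e1 : ContinuousLinearMap.adjoint B =
        ∑ i, (ContinuousLinearMap.adjoint B).comp ((M i).comp (M i)) := by
      rw [← ContinuousLinearMap.comp_finsetSum, hsum]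
      rfl
    rw [hC, map_sub, hB'adj]
    conv_lhs => rw [e1]
    rw [← Finset.sum_sub_distrib]
    refine Finset.sum_congr rfl fun i _ => ?_
    conv_lhs => rw [← e1]
    ext f
    simp
  have hCadjc : IsCompactOperator (ContinuousLinearMap.adjoint C) := by
    rw [hCadjeq]
    refine compact_sum _ (fun i => ((ContinuousLinearMap.adjoint B).comp (M i) -
        (M i).comp (ContinuousLinearMap.adjoint B)).comp (M i)) fun i _ => ?_
    exact (h2 (g i) (M i) (Mc_mul (g i))).comp_clm (M i)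
  refine ⟨(1/2 : ℂ) • (B' + ContinuousLinearMap.adjoint B'),
    (1/2 : ℂ) • (C + ContinuousLinearMap.adjoint C), ?_, ?_, ⟨c, hc, ?_⟩, ?_⟩
  · have e : IsSelfAdjoint (B' + ContinuousLinearMap.adjoint B') := by
      rw [← ContinuousLinearMap.star_eq_adjoint]
      exact IsSelfAdjoint.add_star_self B'
    exact IsSelfAdjoint.smul (by simp [isSelfAdjoint_iff]) e
  · exact (hCc.add hCadjc).smul (1/2 : ℂ)
  · intro x
    have e1 : (inner ℂ (((1/2 : ℂ) • (B' + ContinuousLinearMap.adjoint B')) x) x).re =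
        (inner ℂ (B' x) x).re := by
      rw [_root_.smul_apply, _root_.add_apply, inner_smul_left,
        inner_add_left, ContinuousLinearMap.adjoint_inner_left]
      have e2 : (inner ℂ x (B' x)).re = (inner ℂ (B' x) x).re := by
        rw [← inner_conj_symm (B' x) x, Complex.conj_re]
      have e3 : (starRingEnd ℂ) (1 / 2 : ℂ) = ((1 / 2 : ℝ) : ℂ) := by
        rw [show (1 / 2 : ℂ) = ((1 / 2 : ℝ) : ℂ) by norm_num, Complex.conj_ofReal]
      rw [e3, Complex.re_ofReal_mul, Complex.add_re, e2]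
      ring
    have e2 : inner ℂ (B' x) x = ∑ i, inner ℂ (B (M i x)) (M i x) := by
      rw [hB', _root_.sum_apply, sum_inner]
      refine Finset.sum_congr rfl fun i _ => ?_
      exact Mc_symm (g i) (hg1 i) _ _
    have e3 : ‖x‖ ^ 2 = ∑ i, ‖M i x‖ ^ 2 := by
      have e4 : inner ℂ x x = ∑ i, inner ℂ (M i x) (M i x) := by
        have e5 : (∑ i, (M i).comp (M i)) x = x := by rw [hsum]; rfl
        have e6 : ∀ i : F, inner ℂ (M i (M i x)) x = inner ℂ (M i x) (M i x) :=
          fun i => Mc_symm (g i) (hg1 i) _ _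
        calc inner ℂ x x = inner ℂ ((∑ i, (M i).comp (M i)) x) x := by rw [e5]
          _ = inner ℂ (∑ i, M i (M i x)) x := by rw [_root_.sum_apply]; rfl
          _ = ∑ i, inner ℂ (M i (M i x)) x := by rw [sum_inner]
          _ = _ := Finset.sum_congr rfl fun i _ => e6 i
      have e8 := congrArg Complex.re e4
      rw [Complex.re_sum] at e8
      have e9 : ∀ y : L2, (inner ℂ y y).re = ‖y‖ ^ 2 := by
        intro y
        rw [inner_self_eq_norm_sq_to_K]
        norm_cast
      simpa only [e9] using e8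
    rw [e1, e2, Complex.re_sum, e3, Finset.mul_sum]
    refine Finset.sum_le_sum fun i _ => ?_
    refine (mul_le_mul_of_nonneg_right (hcγ i) (by positivity)).trans ?_
    refine hB i (M i x) ?_
    filter_upwards [Mc_mul (g i) x] with y hy hyU
    show (M i x : Circ → ℂ) y = 0
    rw [hM]
    simp only
    rw [hy, hg3 i y hyU, zero_mul]
  · rw [← smul_add]
    congr 1
    rw [hC, map_sub]
    abel

end Glue

theorem glue_ok : TaskGlue := fun B h1 h2 h3 => Glue.main B h1 h2 h3

end Pool.Agent.H199BE
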