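import Pool.Agent.H199BE.Stmts

/-!
Project BE, TaskGrow (helper510).
-/

set_option autoImplicit false
open MeasureTheory Filter Topology

namespace Pool.Agent.H199BE
namespace Grow

theorem norm_w (y : ℝ) : ‖(1:ℂ) - fourier 1 ((y : ℝ) : Circ)‖ = 2 * |Real.sin (Real.pi * y)| := by
  have h := Complex.norm_exp_I_mul_ofReal_sub_one (2 * Real.pi * y)
  rw [norm_sub_rev, fourier_coe_apply]
  have h2 : (2 * (Real.pi:ℂ) * Complex.I * ((1:ℤ):ℂ) * (y:ℂ) / ((1:ℝ):ℂ)) =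
      Complex.I * ((2 * Real.pi * y : ℝ) : ℂ) := by
    push_cast; ring
  have h3 : 2 * Real.pi * y / 2 = Real.pi * y := by ring
  rw [h2, h, Real.norm_eq_abs, abs_mul, abs_of_pos (by norm_num : (0:ℝ) < 2), h3]

theorem norm_w_le (y : ℝ) : ‖(1:ℂ) - fourier 1 ((y : ℝ) : Circ)‖ ≤ 2 * Real.pi * |y| := by
  rw [norm_w]
  have h := Real.abs_sin_le_abs (x := Real.pi * y)
  rw [abs_mul, abs_of_pos Real.pi_pos] at h
  linarith

theorem le_norm_w (y : ℝ) (hy : |y| ≤ 1 / 2) :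
    4 * |y| ≤ ‖(1:ℂ) - fourier 1 ((y : ℝ) : Circ)‖ := by
  rw [norm_w]
  have h1 : |Real.pi * y| ≤ Real.pi / 2 := by
    rw [abs_mul, abs_of_pos Real.pi_pos]
    nlinarith [Real.pi_pos]
  have h := Real.mul_abs_le_abs_sin h1
  rw [abs_mul, abs_of_pos Real.pi_pos] at h
  have h2 : 2 / Real.pi * (Real.pi * |y|) = 2 * |y| := by
    field_simp
  rw [h2] at h
  linarith

theorem exists_rep (x : Circ) : ∃ y : ℝ, |y| ≤ 1 / 2 ∧ ((y : ℝ) : Circ) = x ∧ ‖x‖ = |y| := by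
  induction x using QuotientAddGroup.induction_on with
  | H y =>
    refine ⟨y - round y, abs_sub_round y, ?_, ?_⟩
    · have : ((round y : ℝ) : Circ) = 0 := by
        have := AddCircle.coe_eq_zero_iff (1:ℝ) (x := (round y : ℝ))
        rw [this]
        exact ⟨round y, by simp⟩
      rw [AddCircle.coe_sub, this, sub_zero]
    · exact UnitAddCircle.norm_eq

theorem sk_re (ξ : ℝ) (k : ℕ) : (sk ξ k).re = -(1/2) + 1 / ((k:ℝ) + 3) := by
  have h : sk ξ k = ((-(1/2) + 1 / ((k:ℝ) + 3) : ℝ) : ℂ) + (ξ:ℂ) * Complex.I := by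
    unfold sk; push_cast; ring
  rw [h, Complex.add_re, Complex.ofReal_re, Complex.re_ofReal_mul, Complex.I_re]
  ring

theorem sk_im (ξ : ℝ) (k : ℕ) : (sk ξ k).im = ξ := by
  have h : sk ξ k = ((-(1/2) + 1 / ((k:ℝ) + 3) : ℝ) : ℂ) + (ξ:ℂ) * Complex.I := by
    unfold sk; push_cast; ring
  rw [h, Complex.add_im, Complex.ofReal_im, Complex.im_ofReal_mul, Complex.I_im]
  ring

theorem frac_bd (k : ℕ) : 0 < 1 / ((k:ℝ) + 3) ∧ 1 / ((k:ℝ) + 3) ≤ 1 / 3 := by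
  constructor
  · positivity
  · apply one_div_le_one_div_of_le (by norm_num)
    have : (0:ℝ) ≤ k := Nat.cast_nonneg k
    linarith

theorem sk_re_neg (ξ : ℝ) (k : ℕ) : (sk ξ k).re < 0 := by
  rw [sk_re]; have := frac_bd k; linarith

theorem sk_ne (ξ : ℝ) (k : ℕ) : sk ξ k ≠ 0 := by
  intro h
  have := sk_re_neg ξ k
  rw [h] at this
  simp at this

theorem arg_bd (z s : ℂ) : |z.arg * s.im| ≤ Real.pi * |s.im| := by
  rw [abs_mul]
  exact mul_le_mul_of_nonneg_right (Complex.abs_arg_le_pi z) (abs_nonneg _)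

theorem cpow_le (z s : ℂ) (hz : z ≠ 0) : ‖z ^ s‖ ≤ ‖z‖ ^ s.re * Real.exp (Real.pi * |s.im|) := by
  rw [Complex.norm_cpow_of_ne_zero hz, div_eq_mul_inv, ← Real.exp_neg]
  apply mul_le_mul_of_nonneg_left _ (by positivity)
  apply Real.exp_le_exp.2
  have := (abs_le.1 (arg_bd z s)).1
  linarith

theorem le_cpow (z s : ℂ) (hz : z ≠ 0) : ‖z‖ ^ s.re * Real.exp (-(Real.pi * |s.im|)) ≤ ‖z ^ s‖ := by
  rw [Complex.norm_cpow_of_ne_zero hz, div_eq_mul_inv, ← Real.exp_neg]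
  apply mul_le_mul_of_nonneg_left _ (by positivity)
  apply Real.exp_le_exp.2
  have := (abs_le.1 (arg_bd z s)).2
  linarith

/-- upper bound for `y ≠ 0`, `|y| ≤ 1/2` -/
theorem up (ξ : ℝ) (k : ℕ) (y : ℝ) (hy : |y| ≤ 1 / 2) (h0 : y ≠ 0) :
    ‖((1:ℂ) - fourier 1 ((y : ℝ) : Circ)) ^ (sk ξ k)‖ ≤
      (4 * |y|) ^ (-(1/2) + 1 / ((k:ℝ) + 3) : ℝ) * Real.exp (Real.pi * |ξ|) := by
  have h1 := le_norm_w y hy
  have h2 : 0 < 4 * |y| := by positivity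
  have h3 : (1:ℂ) - fourier 1 ((y : ℝ) : Circ) ≠ 0 := by
    intro h
    rw [h, norm_zero] at h1
    linarith
  refine (cpow_le _ _ h3).trans ?_
  rw [sk_im, sk_re]
  apply mul_le_mul_of_nonneg_right _ (Real.exp_pos _).le
  apply Real.rpow_le_rpow_of_nonpos h2 h1
  have := frac_bd k
  linarith

/-- lower bound for `y ≠ 0`, `|y| ≤ 1/2` -/
theorem lo (ξ : ℝ) (k : ℕ) (y : ℝ) (hy : |y| ≤ 1 / 2) (h0 : y ≠ 0) :
    (2 * Real.pi * |y|) ^ (-(1/2) + 1 / ((k:ℝ) + 3) : ℝ) * Real.exp (-(Real.pi * |ξ|)) ≤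
    ‖((1:ℂ) - fourier 1 ((y : ℝ) : Circ)) ^ (sk ξ k)‖ := by
  have h1 := le_norm_w y hy
  have h2 : 0 < 4 * |y| := by positivity
  have h3 : (1:ℂ) - fourier 1 ((y : ℝ) : Circ) ≠ 0 := by
    intro h
    rw [h, norm_zero] at h1
    linarith
  refine le_trans ?_ (le_cpow _ _ h3)
  rw [sk_im, sk_re]
  apply mul_le_mul_of_nonneg_right _ (Real.exp_pos _).le
  apply Real.rpow_le_rpow_of_nonpos (by linarith) (norm_w_le y)
  have := frac_bd k
  linarith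

theorem at_zero (ξ : ℝ) (k : ℕ) : ((1:ℂ) - fourier 1 (((0:ℝ) : ℝ) : Circ)) ^ (sk ξ k) = 0 := by
  have : (1:ℂ) - fourier 1 (((0:ℝ) : ℝ) : Circ) = 0 := by
    rw [← norm_eq_zero, norm_w]; simp
  rw [this, Complex.zero_cpow (sk_ne ξ k)]

theorem bdd (ξ : ℝ) (ε : ℝ) (hε : 0 < ε) : ∃ C : ℝ, ∀ k : ℕ, ∀ x : Circ, ε ≤ ‖x‖ →
      ‖((1:ℂ) - fourier 1 x) ^ (sk ξ k)‖ ≤ C := by
  refine ⟨(1 + (4 * ε) ^ (-(1/2) : ℝ)) * Real.exp (Real.pi * |ξ|), ?_⟩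
  intro k x hx
  obtain ⟨y, hy1, rfl, hy3⟩ := exists_rep x
  rw [hy3] at hx
  have h0 : y ≠ 0 := by
    rintro rfl
    simp at hx
    linarith
  refine (up ξ k y hy1 h0).trans ?_
  apply mul_le_mul_of_nonneg_right _ (Real.exp_pos _).le
  have hf := frac_bd k
  have h4 : (0:ℝ) < 4 * ε := by linarith
  have h5 : (4 * |y|) ^ (-(1/2) + 1 / ((k:ℝ) + 3) : ℝ) ≤
      (4 * ε) ^ (-(1/2) + 1 / ((k:ℝ) + 3) : ℝ) :=
    Real.rpow_le_rpow_of_nonpos h4 (by linarith) (by linarith)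
  refine h5.trans ?_
  rcases le_or_gt 1 (4 * ε) with h6 | h6
  · have h7 : (4 * ε) ^ (-(1/2) + 1 / ((k:ℝ) + 3) : ℝ) ≤ 1 :=
      Real.rpow_le_one_of_one_le_of_nonpos h6 (by linarith)
    have h8 : (0:ℝ) ≤ (4 * ε) ^ (-(1/2) : ℝ) := by positivity
    linarith
  · have h7 : (4 * ε) ^ (-(1/2) + 1 / ((k:ℝ) + 3) : ℝ) ≤ (4 * ε) ^ (-(1/2) : ℝ) :=
      Real.rpow_le_rpow_of_exponent_ge h4 h6.le (by linarith)
    linarith

/-- the function on the real line -/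
noncomputable def F (ξ : ℝ) (k : ℕ) (y : ℝ) : ℝ :=
  ‖((1:ℂ) - fourier 1 ((y : ℝ) : Circ)) ^ (sk ξ k)‖ ^ 2

theorem meas (ξ : ℝ) (k : ℕ) : Measurable (F ξ k) := by
  unfold F
  have h1 : Continuous (fun y : ℝ => (1:ℂ) - fourier 1 ((y : ℝ) : Circ)) := by
    apply Continuous.sub continuous_const
    exact (map_continuous (fourier 1)).comp (AddCircle.continuous_mk' 1)
  have h2 : Measurable (fun y : ℝ => ((1:ℂ) - fourier 1 ((y : ℝ) : Circ)) ^ (sk ξ k)) :=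
    h1.measurable.pow_const _
  exact (h2.norm).pow_const 2

theorem abs_int (r : ℝ) (hr : -1 < r) :
    IntervalIntegrable (fun y : ℝ => |y| ^ r) volume (-(1/2)) (1/2) := by
  have hpos : IntervalIntegrable (fun y : ℝ => |y| ^ r) volume 0 (1/2) := by
    have h := intervalIntegral.intervalIntegrable_rpow' (a := 0) (b := 1/2) hr
    refine h.congr ?_
    intro y hy
    rw [Set.uIoc_of_le (by norm_num)] at hy
    simp only
    rw [abs_of_pos hy.1]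
  have hneg : IntervalIntegrable (fun y : ℝ => |y| ^ r) volume (-(1/2)) 0 := by
    have h := (IntervalIntegrable.iff_comp_neg (f := fun y : ℝ => |y| ^ r)).1 hpos
    simpa [abs_neg] using h.symm
  exact hneg.trans hpos

theorem F_le (ξ : ℝ) (k : ℕ) (y : ℝ) (hy : |y| ≤ 1 / 2) :
    F ξ k y ≤ Real.exp (2 * Real.pi * |ξ|) * |y| ^ (-1 + 2 / ((k:ℝ) + 3) : ℝ) := by
  by_cases h0 : y = 0
  · subst h0
    unfold F
    rw [at_zero, norm_zero, zero_pow two_ne_zero]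
    positivity
  · have h1 := up ξ k y hy h0
    have hy0 : 0 < |y| := abs_pos.2 h0
    have hf := frac_bd k
    have h2 : F ξ k y ≤ ((4 * |y|) ^ (-(1/2) + 1 / ((k:ℝ) + 3) : ℝ) * Real.exp (Real.pi * |ξ|)) ^ 2 := by
      unfold F
      exact pow_le_pow_left₀ (norm_nonneg _) h1 2
    refine h2.trans ?_
    rw [mul_pow, ← Real.rpow_natCast, ← Real.rpow_mul (by positivity), ← Real.exp_nat_mul]
    have e1 : (-(1/2) + 1 / ((k:ℝ) + 3)) * ((2:ℕ):ℝ) = -1 + 2 / ((k:ℝ) + 3) := by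
      push_cast; ring
    have e2 : ((2:ℕ):ℝ) * (Real.pi * |ξ|) = 2 * Real.pi * |ξ| := by push_cast; ring
    rw [e1, e2, mul_comm]
    apply mul_le_mul_of_nonneg_left _ (Real.exp_pos _).le
    apply Real.rpow_le_rpow_of_nonpos hy0 (by linarith)
    have : 2 / ((k:ℝ) + 3) = 2 * (1 / ((k:ℝ) + 3)) := by ring
    rw [this]; linarith

theorem le_F (ξ : ℝ) (k : ℕ) (y : ℝ) (hy0 : 0 < y) (hy : y ≤ 1 / 2) :
    Real.exp (-(2 * Real.pi * |ξ|)) / (2 * Real.pi) * y ^ (-1 + 2 / ((k:ℝ) + 3) : ℝ) ≤ F ξ k y := by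
  have hab : |y| = y := abs_of_pos hy0
  have h1 := lo ξ k y (by rw [hab]; exact hy) hy0.ne'
  rw [hab] at h1
  have hf := frac_bd k
  have h2 : ((2 * Real.pi * y) ^ (-(1/2) + 1 / ((k:ℝ) + 3) : ℝ) * Real.exp (-(Real.pi * |ξ|))) ^ 2 ≤
      F ξ k y := by
    unfold F
    exact pow_le_pow_left₀ (by positivity) h1 2
  refine le_trans ?_ h2
  rw [mul_pow, ← Real.rpow_natCast, ← Real.rpow_mul (by positivity), ← Real.exp_nat_mul]
  have e1 : (-(1/2) + 1 / ((k:ℝ) + 3)) * ((2:ℕ):ℝ) = -1 + 2 / ((k:ℝ) + 3) := by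
    push_cast; ring
  have e2 : ((2:ℕ):ℝ) * (-(Real.pi * |ξ|)) = -(2 * Real.pi * |ξ|) := by push_cast; ring
  rw [e1, e2, Real.mul_rpow (by positivity) hy0.le]
  have h3 : (2 * Real.pi) ^ (-1 : ℝ) ≤ (2 * Real.pi) ^ (-1 + 2 / ((k:ℝ) + 3) : ℝ) := by
    apply Real.rpow_le_rpow_of_exponent_le
    · nlinarith [Real.pi_gt_three]
    · have : 0 < 2 / ((k:ℝ) + 3) := by positivity
      linarith
  rw [Real.rpow_neg_one] at h3
  have h4 : 0 ≤ y ^ (-1 + 2 / ((k:ℝ) + 3) : ℝ) := by positivity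
  calc Real.exp (-(2 * Real.pi * |ξ|)) / (2 * Real.pi) * y ^ (-1 + 2 / ((k:ℝ) + 3) : ℝ)
      = (2 * Real.pi)⁻¹ * y ^ (-1 + 2 / ((k:ℝ) + 3) : ℝ) * Real.exp (-(2 * Real.pi * |ξ|)) := by
        rw [div_eq_mul_inv]; ring
    _ ≤ _ := by
        apply mul_le_mul_of_nonneg_right _ (Real.exp_pos _).le
        exact mul_le_mul_of_nonneg_right h3 h4

theorem F_int (ξ : ℝ) (k : ℕ) : IntervalIntegrable (F ξ k) volume (-(1/2)) (1/2) := by
  have hr : (-1:ℝ) < -1 + 2 / ((k:ℝ) + 3) := by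
    have : 0 < 2 / ((k:ℝ) + 3) := by positivity
    linarith
  have h1 := (abs_int _ hr).const_mul (Real.exp (2 * Real.pi * |ξ|))
  refine h1.mono_fun' (meas ξ k).aestronglyMeasurable ?_
  rw [Filter.EventuallyLE, ae_restrict_iff' measurableSet_uIoc]
  refine Filter.Eventually.of_forall ?_
  intro y hy
  rw [Set.uIoc_of_le (by norm_num)] at hy
  have h2 : |y| ≤ 1 / 2 := abs_le.2 ⟨hy.1.le, hy.2⟩
  have h3 : 0 ≤ F ξ k y := by unfold F; positivity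
  rw [Real.norm_eq_abs, abs_of_nonneg h3]
  exact F_le ξ k y h2

theorem int_eq (ξ : ℝ) (k : ℕ) :
    ∫ x : Circ, ‖((1:ℂ) - fourier 1 x) ^ (sk ξ k)‖ ^ 2 ∂hm = ∫ y in (-(1/2):ℝ)..(1/2), F ξ k y := by
  rw [AddCircle.integral_haarAddCircle, inv_one, one_smul,
    ← AddCircle.intervalIntegral_preimage 1 (-(1/2))]
  have : (-(1/2):ℝ) + 1 = 1/2 := by norm_num
  rw [this]
  rfl

theorem low (ξ : ℝ) (k : ℕ) :
    Real.exp (-(2 * Real.pi * |ξ|)) / (2 * Real.pi) / 4 * ((k:ℝ) + 3) ≤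
      ∫ x : Circ, ‖((1:ℂ) - fourier 1 x) ^ (sk ξ k)‖ ^ 2 ∂hm := by
  rw [int_eq]
  have hr : (-1:ℝ) < -1 + 2 / ((k:ℝ) + 3) := by
    have : 0 < 2 / ((k:ℝ) + 3) := by positivity
    linarith
  have hF := F_int ξ k
  have hF1 : IntervalIntegrable (F ξ k) volume (-(1/2)) 0 :=
    hF.mono_set (by
      rw [Set.uIcc_of_le (by norm_num), Set.uIcc_of_le (by norm_num)]
      exact Set.Icc_subset_Icc le_rfl (by norm_num))
  have hF2 : IntervalIntegrable (F ξ k) volume 0 (1/2) :=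
    hF.mono_set (by
      rw [Set.uIcc_of_le (by norm_num), Set.uIcc_of_le (by norm_num)]
      exact Set.Icc_subset_Icc (by norm_num) le_rfl)
  have h1 : (∫ y in (-(1/2):ℝ)..(1/2), F ξ k y) =
      (∫ y in (-(1/2):ℝ)..0, F ξ k y) + ∫ y in (0:ℝ)..(1/2), F ξ k y :=
    (intervalIntegral.integral_add_adjacent_intervals hF1 hF2).symm
  have h2 : 0 ≤ ∫ y in (-(1/2):ℝ)..0, F ξ k y := by
    apply intervalIntegral.integral_nonneg (by norm_num)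
    intro y _
    unfold F; positivity
  have hI := (intervalIntegral.intervalIntegrable_rpow' (a := 0) (b := 1/2) hr).const_mul
    (Real.exp (-(2 * Real.pi * |ξ|)) / (2 * Real.pi))
  have h3 : (∫ y in (0:ℝ)..(1/2), Real.exp (-(2 * Real.pi * |ξ|)) / (2 * Real.pi) *
      y ^ (-1 + 2 / ((k:ℝ) + 3) : ℝ)) ≤ ∫ y in (0:ℝ)..(1/2), F ξ k y := by
    apply intervalIntegral.integral_mono_on_of_le_Ioo (by norm_num) hI hF2
    intro y hy
    exact le_F ξ k y hy.1 hy.2.le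
  rw [intervalIntegral.integral_const_mul, integral_rpow (Or.inl hr)] at h3
  have e1 : (-1 + 2 / ((k:ℝ) + 3) + 1) = 2 / ((k:ℝ) + 3) := by ring
  have hk : (0:ℝ) < (k:ℝ) + 3 := by positivity
  rw [e1, Real.zero_rpow (by positivity), sub_zero] at h3
  have h4 : (1/2 : ℝ) ≤ (1/2 : ℝ) ^ (2 / ((k:ℝ) + 3)) := by
    have : (1/2 : ℝ) ^ (1:ℝ) ≤ (1/2 : ℝ) ^ (2 / ((k:ℝ) + 3)) := by
      apply Real.rpow_le_rpow_of_exponent_ge (by norm_num) (by norm_num)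
      rw [div_le_one hk]
      have : (0:ℝ) ≤ k := Nat.cast_nonneg k
      linarith
    rwa [Real.rpow_one] at this
  have h5 : (1/4 : ℝ) * ((k:ℝ) + 3) ≤ (1/2 : ℝ) ^ (2 / ((k:ℝ) + 3)) / (2 / ((k:ℝ) + 3)) := by
    rw [le_div_iff₀ (by positivity)]
    calc (1/4 : ℝ) * ((k:ℝ) + 3) * (2 / ((k:ℝ) + 3)) = 1/2 := by field_simp; norm_num
      _ ≤ _ := h4
  have hc : 0 ≤ Real.exp (-(2 * Real.pi * |ξ|)) / (2 * Real.pi) := by positivity
  have h6 := mul_le_mul_of_nonneg_left h5 hc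
  rw [h1]
  linarith

end Grow

/-- TaskGrow of project BE -/
theorem grow_ok : TaskGrow := by
  intro ξ
  refine ⟨?_, fun ε hε => Grow.bdd ξ ε hε⟩
  refine tendsto_atTop_mono (Grow.low ξ) ?_
  apply Tendsto.const_mul_atTop (by positivity)
  exact tendsto_atTop_add_const_right _ _ tendsto_natCast_atTop_atTop

end Pool.Agent.H199BE
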