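import Pool.Agent.H199BE.Stmts

/-!
Task I of project BE: the power function `(1-z)^s`, `-1/2 < Re s < 0`, is in the Hardy space.
(helper991)
-/

set_option autoImplicit false
open MeasureTheory Filter Topology Set

namespace Pool.Agent.H199BE

namespace HardyAux

noncomputable def zz (y : ℝ) : ℂ := Complex.exp (2 * Real.pi * Complex.I * y)

theorem zz_eq (y : ℝ) : zz y = Complex.exp (Complex.I * ((2 * Real.pi * y : ℝ) : ℂ)) := by
  unfold zz
  congr 1
  push_cast
  ring

theorem norm_zz (y : ℝ) : ‖zz y‖ = 1 := by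
  rw [zz_eq, mul_comm, Complex.norm_exp_ofReal_mul_I]

theorem continuous_zz : Continuous zz := by
  unfold zz
  fun_prop

theorem four_min_le {y : ℝ} (h0 : 0 < y) (h1 : y < 1) :
    4 * min y (1 - y) ≤ ‖1 - zz y‖ := by
  rw [← norm_neg, neg_sub, zz_eq, Complex.norm_exp_I_mul_ofReal_sub_one]
  have hs : 2 * min y (1 - y) ≤ Real.sin (Real.pi * y) := by
    rcases le_total y (1 / 2) with h | h
    · have := Real.mul_le_sin (x := Real.pi * y) (by positivity) (by nlinarith [Real.pi_pos])
      have h2 : 2 / Real.pi * (Real.pi * y) = 2 * y := by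
        field_simp
      rw [h2] at this
      exact (mul_le_mul_of_nonneg_left (min_le_left _ _) (by norm_num)).trans this
    · have := Real.mul_le_sin (x := Real.pi * (1 - y)) (by
        apply mul_nonneg Real.pi_pos.le; linarith) (by nlinarith [Real.pi_pos])
      have h2 : 2 / Real.pi * (Real.pi * (1 - y)) = 2 * (1 - y) := by
        field_simp
      rw [h2] at this
      have h3 : Real.sin (Real.pi * (1 - y)) = Real.sin (Real.pi * y) := by
        rw [mul_sub, mul_one, Real.sin_pi_sub]
      rw [h3] at this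
      exact (mul_le_mul_of_nonneg_left (min_le_right _ _) (by norm_num)).trans this
  have h4 : 2 * Real.pi * y / 2 = Real.pi * y := by ring
  rw [h4, Real.norm_eq_abs]
  have h5 := le_abs_self (2 * Real.sin (Real.pi * y))
  linarith

theorem norm_sub_le {z : ℂ} (hz : ‖z‖ = 1) {ρ : ℝ} (h0 : 0 ≤ ρ) (h1 : ρ ≤ 1) :
    ‖1 - z‖ ≤ 2 * ‖1 - (ρ : ℂ) * z‖ := by
  have e1 : 1 - z = (1 - (ρ : ℂ) * z) + ((ρ : ℂ) - 1) * z := by ring
  have e2 : ‖((ρ : ℂ) - 1) * z‖ = 1 - ρ := by
    rw [norm_mul, hz, mul_one]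
    have : ((ρ : ℂ) - 1) = ((ρ - 1 : ℝ) : ℂ) := by push_cast; ring
    rw [this, Complex.norm_real, Real.norm_eq_abs, abs_of_nonpos (by linarith)]
    ring
  have e3 : 1 - ρ ≤ ‖1 - (ρ : ℂ) * z‖ := by
    have h := norm_sub_norm_le (1 : ℂ) ((ρ : ℂ) * z)
    rw [norm_one, norm_mul, hz, mul_one, Complex.norm_real, Real.norm_eq_abs,
      abs_of_nonneg h0] at h
    exact h
  calc ‖1 - z‖ = ‖(1 - (ρ : ℂ) * z) + ((ρ : ℂ) - 1) * z‖ := by rw [← e1]
    _ ≤ ‖1 - (ρ : ℂ) * z‖ + ‖((ρ : ℂ) - 1) * z‖ := norm_add_le _ _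
    _ ≤ 2 * ‖1 - (ρ : ℂ) * z‖ := by rw [e2]; linarith

theorem norm_cpow_bound {w : ℂ} (hw : w ≠ 0) (s : ℂ) :
    ‖w ^ s‖ ≤ Real.exp (Real.pi * |s.im|) * ‖w‖ ^ s.re := by
  rw [Complex.norm_cpow_of_ne_zero hw, div_eq_mul_inv, ← Real.exp_neg, mul_comm]
  apply mul_le_mul_of_nonneg_right _ (Real.rpow_nonneg (norm_nonneg _) _)
  apply Real.exp_le_exp.mpr
  have h1 : |Complex.arg w * s.im| ≤ Real.pi * |s.im| := by
    rw [abs_mul]
    exact mul_le_mul_of_nonneg_right (Complex.abs_arg_le_pi w) (abs_nonneg _)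
  have h2 := neg_abs_le (Complex.arg w * s.im)
  linarith

theorem min_rpow_le {y σ : ℝ} (h0 : 0 < y) (h1 : y < 1) :
    (min y (1 - y)) ^ σ ≤ y ^ σ + (1 - y) ^ σ := by
  have ha : 0 ≤ y ^ σ := Real.rpow_nonneg h0.le _
  have hb : 0 ≤ (1 - y) ^ σ := Real.rpow_nonneg (by linarith) _
  rcases min_choice y (1 - y) with h | h <;> rw [h] <;> linarith

theorem main_bound (s : ℂ) (hs : s.re < 0) {y : ℝ} (h0 : 0 < y) (h1 : y < 1) {ρ : ℝ}
    (hρ0 : 0 ≤ ρ) (hρ1 : ρ ≤ 1) :
    ‖(1 - (ρ : ℂ) * zz y) ^ s‖ ≤ Real.exp (Real.pi * |s.im|) * (min y (1 - y)) ^ s.re := by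
  have hm : 0 < min y (1 - y) := lt_min h0 (by linarith)
  have e1 := four_min_le h0 h1
  have e2 := norm_sub_le (norm_zz y) hρ0 hρ1
  have e3 : min y (1 - y) ≤ ‖1 - (ρ : ℂ) * zz y‖ := by linarith
  have hne : (1 - (ρ : ℂ) * zz y) ≠ 0 := by
    intro h
    rw [h, norm_zero] at e3
    linarith
  refine (norm_cpow_bound hne s).trans ?_
  apply mul_le_mul_of_nonneg_left _ (Real.exp_pos _).le
  exact Real.rpow_le_rpow_of_nonpos hm e3 hs.le

theorem ii_rpow (r : ℝ) (hr : -1 < r) :
    IntervalIntegrable (fun y : ℝ => y ^ r + (1 - y) ^ r) volume 0 1 := by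
  have h1 : IntervalIntegrable (fun y : ℝ => y ^ r) volume 0 1 :=
    intervalIntegral.intervalIntegrable_rpow' hr
  have h2 : IntervalIntegrable (fun y : ℝ => (1 - y) ^ r) volume 0 1 := by
    have := h1.comp_sub_left 1
    simp only [sub_zero, sub_self] at this
    exact this.symm
  exact h1.add h2

/-- the circle integral vanishes -/
theorem coeff_zero (s : ℂ) (m : ℕ) {ρ : ℝ} (hρ0 : 0 ≤ ρ) (hρ1 : ρ < 1) :
    ∫ y in (0:ℝ)..1, (zz y) ^ (m + 1) * (1 - (ρ : ℂ) * zz y) ^ s = 0 := by
  set g : ℂ → ℂ := fun z => z ^ m * (1 - (ρ : ℂ) * z) ^ s with hg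
  have hsl : ∀ z : ℂ, ‖z‖ ≤ 1 → (1 - (ρ : ℂ) * z) ∈ Complex.slitPlane := by
    intro z hz
    left
    have h1 : ((ρ : ℂ) * z).re ≤ ρ := by
      have h2 : ((ρ : ℂ) * z).re = ρ * z.re := by simp
      rw [h2]
      have h3 := (Complex.abs_re_le_norm z).trans hz
      have h4 := (abs_le.mp h3).2
      nlinarith
    simp only [Complex.sub_re, Complex.one_re]
    linarith
  have hdiff : ∀ z : ℂ, ‖z‖ ≤ 1 → DifferentiableAt ℂ g z := by
    intro z hz
    have h1 : DifferentiableAt ℂ (fun z : ℂ => 1 - (ρ : ℂ) * z) z := by fun_prop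
    have h2 : DifferentiableAt ℂ (fun z : ℂ => (1 - (ρ : ℂ) * z) ^ s) z :=
      h1.cpow (differentiableAt_const s) (hsl z hz)
    exact (by fun_prop : DifferentiableAt ℂ (fun z : ℂ => z ^ m) z).mul h2
  have hC : (∮ z in C(0, 1), g z) = 0 := by
    apply Complex.circleIntegral_eq_zero_of_differentiable_on_off_countable zero_le_one
      Set.countable_empty
    · intro z hz
      have : ‖z‖ ≤ 1 := by simpa using hz
      exact (hdiff z this).continuousAt.continuousWithinAt
    · intro z hz
      have : ‖z‖ < 1 := by simpa using hz.1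
      exact hdiff z this.le
  have h1 : (∮ z in C(0, 1), g z) =
      ∫ θ in (0:ℝ)..(2 * Real.pi), Complex.I * ((zz (θ / (2 * Real.pi))) ^ (m + 1) *
        (1 - (ρ : ℂ) * zz (θ / (2 * Real.pi))) ^ s) := by
    rw [circleIntegral]
    congr 1
    funext θ
    have hz : zz (θ / (2 * Real.pi)) = circleMap 0 1 θ := by
      rw [zz_eq, circleMap]
      have : 2 * Real.pi * (θ / (2 * Real.pi)) = θ := by
        field_simp
      rw [this]
      simp [mul_comm]
    rw [hz, deriv_circleMap, hg, smul_eq_mul]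
    ring
  rw [h1, intervalIntegral.integral_const_mul] at hC
  have hC2 := (mul_eq_zero.mp hC).resolve_left Complex.I_ne_zero
  have h2 := intervalIntegral.integral_comp_div (a := 0) (b := 2 * Real.pi)
    (fun y : ℝ => (zz y) ^ (m + 1) * (1 - (ρ : ℂ) * zz y) ^ s) (c := 2 * Real.pi)
    (by positivity)
  rw [hC2, zero_div, div_self (by positivity)] at h2
  have h3 := (smul_eq_zero.mp h2.symm).resolve_left (by positivity)
  exact h3

end HardyAux

open HardyAux in
theorem hardy_ok : TaskHardy := by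
  intro s hs1 hs2
  have hf1 : ∀ y : ℝ, (fourier (T := (1:ℝ)) 1 (y : AddCircle (1:ℝ)) : ℂ) = zz y := by
    intro y
    rw [fourier_coe_apply]
    unfold zz
    congr 1
    push_cast
    ring
  have hmeas : Measurable (fun x : Circ => ((1:ℂ) - fourier 1 x) ^ s) := by
    apply Measurable.pow_const
    exact ((continuous_const.sub (fourier 1).continuous).measurable)
  set E : ℝ := Real.exp (Real.pi * |s.im|) with hE
  constructor
  · rw [memLp_haarAddCircle_iff, memLp_two_iff_integrable_sq_norm hmeas.aestronglyMeasurable]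
    have hmp := AddCircle.measurePreserving_mk (1:ℝ) 0
    rw [← hmp.integrable_comp (by
      exact (hmeas.norm.pow_const 2).aestronglyMeasurable)]
    have hb : IntegrableOn (fun y : ℝ => E ^ 2 * (y ^ (2 * s.re) + (1 - y) ^ (2 * s.re)))
        (Ioc 0 1) volume := by
      have := ((ii_rpow (2 * s.re) (by linarith)).const_mul (E ^ 2))
      rwa [intervalIntegrable_iff_integrableOn_Ioc_of_le zero_le_one] at this
    rw [zero_add]
    refine Integrable.mono' hb ?_ ?_
    · apply Measurable.aestronglyMeasurable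
      exact (hmeas.norm.pow_const 2).comp (AddCircle.measurable_mk')
    · rw [ae_restrict_iff' measurableSet_Ioc]
      have h1 : ∀ᵐ y : ℝ ∂volume, y ≠ 1 := by
        rw [ae_iff]; simp
      filter_upwards [h1] with y hy1 hy
      have hy0 : 0 < y := hy.1
      have hy2 : y < 1 := lt_of_le_of_ne hy.2 hy1
      have hb1 := main_bound s hs2 hy0 hy2 (ρ := 1) zero_le_one le_rfl
      rw [Complex.ofReal_one, one_mul] at hb1
      simp only [Function.comp_apply]
      rw [hf1, Real.norm_eq_abs, abs_of_nonneg (by positivity)]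
      have hm : 0 < min y (1 - y) := lt_min hy0 (by linarith)
      calc ‖(1 - zz y) ^ s‖ ^ 2 ≤ (E * (min y (1 - y)) ^ s.re) ^ 2 :=
            pow_le_pow_left₀ (norm_nonneg _) hb1 2
        _ = E ^ 2 * (min y (1 - y)) ^ (2 * s.re) := by
            rw [mul_pow, ← Real.rpow_natCast ((min y (1 - y)) ^ s.re) 2, ← Real.rpow_mul hm.le]
            congr 2
            push_cast
            ring
        _ ≤ _ := mul_le_mul_of_nonneg_left (min_rpow_le hy0 hy2) (by positivity)
  · intro n hn
    obtain ⟨m, rfl⟩ : ∃ m : ℕ, n = -((m : ℤ) + 1) := ⟨(-n - 1).toNat, by omega⟩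
    rw [fourierCoeff_eq_intervalIntegral _ _ 0]
    have key : ∫ y in (0:ℝ)..(0 + 1), fourier (T := (1:ℝ)) (- -((m:ℤ) + 1)) (y : AddCircle (1:ℝ)) •
        ((1:ℂ) - fourier 1 (y : AddCircle (1:ℝ))) ^ s =
        ∫ y in (0:ℝ)..1, (zz y) ^ (m + 1) * (1 - zz y) ^ s := by
      rw [zero_add]
      congr 1
      funext y
      rw [hf1, smul_eq_mul, fourier_coe_apply]
      congr 1
      unfold zz
      rw [← Complex.exp_nat_mul]
      congr 1
      push_cast
      ring
    rw [key]
    set ρ : ℕ → ℝ := fun k => 1 - 1 / ((k : ℝ) + 1) with hρ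
    have hρ0 : ∀ k, 0 ≤ ρ k := by
      intro k
      have : 1 / ((k : ℝ) + 1) ≤ 1 := by
        rw [div_le_one (by positivity)]
        have : (0:ℝ) ≤ k := Nat.cast_nonneg k
        linarith
      simp only [hρ]; linarith
    have hρ1 : ∀ k, ρ k < 1 := by
      intro k
      have : 0 < 1 / ((k : ℝ) + 1) := by positivity
      simp only [hρ]; linarith
    have hρt : Tendsto ρ atTop (𝓝 1) := by
      have := (tendsto_one_div_add_atTop_nhds_zero_nat (𝕜 := ℝ)).const_sub 1
      simpa [hρ] using this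
    have hlim : Tendsto (fun k => ∫ y in (0:ℝ)..1, (zz y) ^ (m + 1) *
        (1 - (ρ k : ℂ) * zz y) ^ s) atTop
        (𝓝 (∫ y in (0:ℝ)..1, (zz y) ^ (m + 1) * (1 - zz y) ^ s)) := by
      apply intervalIntegral.tendsto_integral_filter_of_dominated_convergence
        (fun y : ℝ => E * (y ^ s.re + (1 - y) ^ s.re))
      · apply Eventually.of_forall
        intro k
        apply Measurable.aestronglyMeasurable
        apply Measurable.mul
        · exact (continuous_zz.measurable).pow_const _
        · apply Measurable.pow_const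
          exact (continuous_const.sub (continuous_const.mul continuous_zz)).measurable
      · apply Eventually.of_forall
        intro k
        have h1 : ∀ᵐ y : ℝ ∂volume, y ≠ 1 := by
          rw [ae_iff]; simp
        filter_upwards [h1] with y hy1 hy
        rw [uIoc_of_le zero_le_one] at hy
        have hy2 : y < 1 := lt_of_le_of_ne hy.2 hy1
        rw [norm_mul, norm_pow, norm_zz, one_pow, one_mul]
        refine (main_bound s hs2 hy.1 hy2 (hρ0 k) (hρ1 k).le).trans ?_
        exact mul_le_mul_of_nonneg_left (min_rpow_le hy.1 hy2) (Real.exp_pos _).le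
      · exact (ii_rpow s.re (by linarith)).const_mul E
      · have h1 : ∀ᵐ y : ℝ ∂volume, y ≠ 1 := by
          rw [ae_iff]; simp
        filter_upwards [h1] with y hy1 hy
        rw [uIoc_of_le zero_le_one] at hy
        have hy2 : y < 1 := lt_of_le_of_ne hy.2 hy1
        apply Tendsto.const_mul
        have hne : (1 - zz y) ≠ 0 := by
          intro h
          have := four_min_le hy.1 hy2
          rw [h, norm_zero] at this
          have hm : 0 < min y (1 - y) := lt_min hy.1 (by linarith)
          linarith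
        have hsl : (1 - zz y) ∈ Complex.slitPlane := by
          left
          have h2 : (zz y).re ≤ 1 := by
            have := (Complex.abs_re_le_norm (zz y)).trans (norm_zz y).le
            exact (abs_le.mp this).2
          have h3 : (zz y).re ≠ 1 := by
            intro h
            apply hne
            have h4 : (zz y).im = 0 := by
              have h5 := Complex.sq_norm (zz y)
              rw [norm_zz, Complex.normSq_apply, h] at h5
              nlinarith
            apply Complex.ext <;> simp [h, h4]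
          simp only [Complex.sub_re, Complex.one_re]
          have := lt_of_le_of_ne h2 h3
          linarith
        have hc : Tendsto (fun k => (1 - (ρ k : ℂ) * zz y)) atTop (𝓝 (1 - zz y)) := by
          have h2 : Tendsto (fun k => ((ρ k : ℝ) : ℂ)) atTop (𝓝 ((1:ℝ) : ℂ)) :=
            (Complex.continuous_ofReal.tendsto 1).comp hρt
          have h3 := (h2.mul_const (zz y)).const_sub 1
          simpa using h3
        exact hc.cpow tendsto_const_nhds hsl
    have hz : ∀ k, ∫ y in (0:ℝ)..1, (zz y) ^ (m + 1) * (1 - (ρ k : ℂ) * zz y) ^ s = 0 :=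
      fun k => coeff_zero s m (hρ0 k) (hρ1 k)
    have h0 : ∫ y in (0:ℝ)..1, (zz y) ^ (m + 1) * (1 - zz y) ^ s = 0 := by
      apply tendsto_nhds_unique hlim
      simp only [hz]
      exact tendsto_const_nhds
    rw [h0, smul_zero]

end Pool.Agent.H199BE
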