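import Pool.Agent.H199BE.Stmts

set_option autoImplicit false
open MeasureTheory Filter Topology

namespace Pool.Agent.H199BE

theorem mul_aesm {a : Circ → ℂ} {M : L2 →L[ℂ] L2} (h : IsMul a M) : AEStronglyMeasurable a hm := by
  have h1 : MemLp (fun _ : Circ => (1 : ℂ)) 2 hm := memLp_const 1
  have h2 := h h1.toLp
  have h3 := h1.coeFn_toLp
  have h4 : (M h1.toLp : Circ → ℂ) =ᵐ[hm] a := by
    filter_upwards [h2, h3] with x hx hx'
    rw [hx, hx', mul_one]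
  exact (Lp.aestronglyMeasurable _).congr h4

theorem mul_adj {a : Circ → ℂ} {M : L2 →L[ℂ] L2} (h : IsMul a M) (f : L2) :
    ∃ H : L2, ((H : Circ → ℂ) =ᵐ[hm] fun x => (starRingEnd ℂ) (a x) * f x) ∧
      ∀ g : L2, inner ℂ (M g) f = inner ℂ g H := by
  have h1 : AEStronglyMeasurable (fun x => (starRingEnd ℂ) (a x) * f x) hm :=
    (Complex.continuous_conj.comp_aestronglyMeasurable (mul_aesm h)).mul
      (Lp.aestronglyMeasurable f)
  have h2 : MemLp (fun x => (starRingEnd ℂ) (a x) * f x) 2 hm := by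
    apply (Lp.memLp (M f)).congr_norm h1
    filter_upwards [h f] with x hx
    rw [hx, norm_mul, norm_mul, RCLike.norm_conj]
  refine ⟨h2.toLp, h2.coeFn_toLp, fun g => ?_⟩
  rw [L2.inner_def, L2.inner_def]
  apply integral_congr_ae
  filter_upwards [h g, h2.coeFn_toLp] with x hx hx'
  rw [hx, hx', RCLike.inner_apply, RCLike.inner_apply, map_mul]
  ring

theorem proj_norm {P : L2 →L[ℂ] L2} (hP : IsSelfAdjoint P) (hPP : P.comp P = P) (x : L2) :
    ‖P x‖ ≤ ‖x‖ ∧ ‖x - P x‖ ≤ ‖x‖ := by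
  have hs : ∀ x y : L2, inner ℂ (P x) y = inner ℂ x (P y) := hP.isSymmetric
  have hi : ∀ x, P (P x) = P x := fun x => by
    have := congrArg (fun T : L2 →L[ℂ] L2 => T x) hPP
    simpa using this
  constructor
  · have h1 : ‖P x‖ ^ 2 ≤ ‖x‖ * ‖P x‖ := by
      rw [← inner_self_eq_norm_sq (𝕜 := ℂ), hs, hi]
      exact (RCLike.re_le_norm _).trans (norm_inner_le_norm _ _)
    by_contra hc
    push Not at hc
    nlinarith [norm_nonneg x, norm_nonneg (P x)]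
  · have h1 : ‖x - P x‖ ^ 2 ≤ ‖x‖ * ‖x - P x‖ := by
      have h2 : inner ℂ (x - P x) (x - P x) = inner ℂ x (x - P x) := by
        rw [inner_sub_left, hs, map_sub, hi, sub_self, inner_zero_right, sub_zero]
      rw [← inner_self_eq_norm_sq (𝕜 := ℂ), h2]
      exact (RCLike.re_le_norm _).trans (norm_inner_le_norm _ _)
    by_contra hc
    push Not at hc
    nlinarith [norm_nonneg x, norm_nonneg (x - P x)]

theorem loc_right {p : Circ → ℂ} {x0 : ℝ} {p1 : ℂ} (h : RLim p x0 p1) {δ : ℝ} (hδ : 0 < δ) :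
    ∃ ε > 0, ∀ s : ℝ, x0 < s → s < x0 + ε → ‖p (s : AddCircle (1:ℝ)) - p1‖ ≤ δ := by
  have h1 : ∀ᶠ s : ℝ in 𝓝[>] x0, dist (p (s : AddCircle (1:ℝ))) p1 < δ := h (Metric.ball_mem_nhds _ hδ)
  obtain ⟨u, hu, hsub⟩ := mem_nhdsGT_iff_exists_Ioo_subset.1 h1
  refine ⟨u - x0, sub_pos.2 hu, fun s hs1 hs2 => ?_⟩
  have := hsub (⟨hs1, by linarith⟩ : s ∈ Set.Ioo x0 u)
  rw [← dist_eq_norm]
  exact le_of_lt this

theorem loc_left {p : Circ → ℂ} {x0 : ℝ} {p1 : ℂ} (h : LLim p x0 p1) {δ : ℝ} (hδ : 0 < δ) :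
    ∃ ε > 0, ∀ s : ℝ, s < x0 → x0 - ε < s → ‖p (s : AddCircle (1:ℝ)) - p1‖ ≤ δ := by
  have h1 : ∀ᶠ s : ℝ in 𝓝[<] x0, dist (p (s : AddCircle (1:ℝ))) p1 < δ := h (Metric.ball_mem_nhds _ hδ)
  obtain ⟨u, hu, hsub⟩ := mem_nhdsLT_iff_exists_Ioo_subset.1 h1
  refine ⟨x0 - u, sub_pos.2 hu, fun s hs1 hs2 => ?_⟩
  have := hsub (⟨by linarith, hs1⟩ : s ∈ Set.Ioo u x0)
  rw [← dist_eq_norm]
  exact le_of_lt this

theorem hm_single (x : Circ) : hm {x} = 0 := by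
  haveI : ConnectedSpace (AddCircle (1:ℝ)) := by
    have : Function.Surjective (fun s : ℝ => (s : AddCircle (1:ℝ))) := QuotientAddGroup.mk_surjective
    exact this.connectedSpace (AddCircle.continuous_mk' 1)
  haveI : Nontrivial (AddCircle (1:ℝ)) := by
    refine ⟨⟨((0:ℝ) : AddCircle (1:ℝ)), ((1/2 : ℝ) : AddCircle (1:ℝ)), fun h => ?_⟩⟩
    have h0 : ((1/2 : ℝ) : AddCircle (1:ℝ)) = 0 := h.symm
    rw [AddCircle.coe_eq_zero_iff] at h0
    obtain ⟨n, hn⟩ := h0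
    rw [zsmul_eq_mul, mul_one] at hn
    have h1 : ((2 * n : ℤ) : ℝ) = ((1 : ℤ) : ℝ) := by push_cast; linarith
    have h2 := Int.cast_injective h1
    omega
  haveI : (𝓝[≠] (0 : AddCircle (1:ℝ))).NeBot := inferInstance
  exact measure_singleton x

theorem loc_ok : TaskLoc := by
  intro hTP P hP hPP p q Mp Mq hMp hMq x0 p1 q1 p2 q2 hp1 hq1 hp2 hq2 hgood
  obtain ⟨γ, hγ, hpos⟩ := hTP p1 q1 p2 q2 hgood
  have hδ : 0 < γ / 8 := by positivity
  obtain ⟨ε1, hε1, hb1⟩ := loc_right hp1 hδ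
  obtain ⟨ε2, hε2, hb2⟩ := loc_right hq1 hδ
  obtain ⟨ε3, hε3, hb3⟩ := loc_left hp2 hδ
  obtain ⟨ε4, hε4, hb4⟩ := loc_left hq2 hδ
  set ε := min (min ε1 ε2) (min ε3 ε4) with hε
  have hε0 : 0 < ε := lt_min (lt_min hε1 hε2) (lt_min hε3 hε4)
  have e1 : ε ≤ ε1 := (min_le_left _ _).trans (min_le_left _ _)
  have e2 : ε ≤ ε2 := (min_le_left _ _).trans (min_le_right _ _)
  have e3 : ε ≤ ε3 := (min_le_right _ _).trans (min_le_left _ _)
  have e4 : ε ≤ ε4 := (min_le_right _ _).trans (min_le_right _ _)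
  let U : Set Circ := (fun s : ℝ => (s : AddCircle (1:ℝ))) '' Set.Ioo (x0 - ε) (x0 + ε)
  let A : Set Circ := (fun s : ℝ => (s : AddCircle (1:ℝ))) '' Set.Ioo x0 (x0 + ε)
  have hUo : IsOpen U := QuotientAddGroup.isOpenMap_coe _ isOpen_Ioo
  have hAo : IsOpen A := QuotientAddGroup.isOpenMap_coe _ isOpen_Ioo
  have hAm : MeasurableSet A := hAo.measurableSet
  refine ⟨U, hUo.mem_nhds ⟨x0, ⟨by linarith, by linarith⟩, rfl⟩, γ / 2, by positivity, fun f hf => ?_⟩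
  -- the splitting
  have hu0 : MemLp (A.indicator (f : Circ → ℂ)) 2 hm := (Lp.memLp f).indicator hAm
  set u : L2 := hu0.toLp with hu
  have huc : (u : Circ → ℂ) =ᵐ[hm] A.indicator (f : Circ → ℂ) := hu0.coeFn_toLp
  set v : L2 := f - u with hv
  have hvc : (v : Circ → ℂ) =ᵐ[hm] fun x => f x - A.indicator (f : Circ → ℂ) x := by
    filter_upwards [Lp.coeFn_sub f u, huc] with x hx hx'
    rw [hv, hx, Pi.sub_apply, hx']
  have huv : inner ℂ u v = 0 := by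
    rw [L2.inner_def]
    apply integral_eq_zero_of_ae
    filter_upwards [huc, hvc] with x hx hx'
    rw [hx, hx', RCLike.inner_apply, Pi.zero_apply]
    by_cases hxA : x ∈ A
    · rw [Set.indicator_of_mem hxA, sub_self, zero_mul]
    · rw [Set.indicator_of_notMem hxA, map_zero, mul_zero]
  have hfuv : u + v = f := by rw [hv]; abel
  have hnorm : ‖u‖ ^ 2 + ‖v‖ ^ 2 = ‖f‖ ^ 2 := by
    rw [← hfuv, sq, sq, sq]
    exact (norm_add_sq_eq_norm_sq_add_norm_sq_of_inner_eq_zero u v huv).symm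
  have hnull : ∀ᵐ x ∂hm, x ≠ (x0 : Circ) := by
    rw [ae_iff]
    simp only [ne_eq, not_not, Set.ofPred_eq_eq_singleton]
    exact hm_single _
  -- closeness
  have hclose : ∀ (r : Circ → ℂ) (r1 r2 : ℂ) (H : L2),
      ((H : Circ → ℂ) =ᵐ[hm] fun x => (starRingEnd ℂ) (r x) * f x) →
      (∀ s : ℝ, x0 < s → s < x0 + ε → ‖r (s : AddCircle (1:ℝ)) - r1‖ ≤ γ / 8) →
      (∀ s : ℝ, s < x0 → x0 - ε < s → ‖r (s : AddCircle (1:ℝ)) - r2‖ ≤ γ / 8) →
      ‖H - ((starRingEnd ℂ) r1 • u + (starRingEnd ℂ) r2 • v)‖ ≤ γ / 8 * ‖f‖ := by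
    intro r r1 r2 H hH hr1 hr2
    apply Lp.norm_le_mul_norm_of_ae_le_mul
    filter_upwards [Lp.coeFn_sub H ((starRingEnd ℂ) r1 • u + (starRingEnd ℂ) r2 • v),
      Lp.coeFn_add ((starRingEnd ℂ) r1 • u) ((starRingEnd ℂ) r2 • v),
      Lp.coeFn_smul ((starRingEnd ℂ) r1) u, Lp.coeFn_smul ((starRingEnd ℂ) r2) v, huc, hvc, hH,
      hnull, hf] with x h1 h2 h3 h4 h5 h6 h7 h8 h9
    rw [h1, Pi.sub_apply, h2, Pi.add_apply, h3, h4, Pi.smul_apply, Pi.smul_apply, h5, h6, h7,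
      smul_eq_mul, smul_eq_mul]
    by_cases hxA : x ∈ A
    · rw [Set.indicator_of_mem hxA, sub_self, mul_zero, add_zero, ← sub_mul, ← map_sub, norm_mul,
        RCLike.norm_conj]
      obtain ⟨s, hs, rfl⟩ := hxA
      exact mul_le_mul_of_nonneg_right (hr1 s hs.1 hs.2) (norm_nonneg _)
    · rw [Set.indicator_of_notMem hxA, mul_zero, zero_add, sub_zero, ← sub_mul, ← map_sub, norm_mul,
        RCLike.norm_conj]
      by_cases hxU : x ∈ U
      · obtain ⟨s, hs, rfl⟩ := hxU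
        apply mul_le_mul_of_nonneg_right _ (norm_nonneg _)
        apply hr2 s _ hs.1
        rcases lt_trichotomy s x0 with h | h | h
        · exact h
        · exact absurd (by rw [h]) h8
        · exact absurd ⟨s, ⟨h, hs.2⟩, rfl⟩ hxA
      · rw [h9 hxU, norm_zero, mul_zero, mul_zero]
  obtain ⟨Hp, hHp, hHp'⟩ := mul_adj hMp f
  obtain ⟨Hq, hHq, hHq'⟩ := mul_adj hMq f
  have hcp := hclose p p1 p2 Hp hHp (fun s h1 h2 => hb1 s h1 (by linarith))
    (fun s h1 h2 => hb3 s h1 (by linarith))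
  have hcq := hclose q q1 q2 Hq hHq (fun s h1 h2 => hb2 s h1 (by linarith))
    (fun s h1 h2 => hb4 s h1 (by linarith))
  have hmain := hpos P hP hPP u v huv
  rw [hfuv, hnorm] at hmain
  obtain ⟨hn1, hn2⟩ := proj_norm hP hPP f
  set wp := (starRingEnd ℂ) p1 • u + (starRingEnd ℂ) p2 • v with hwp
  set wq := (starRingEnd ℂ) q1 • u + (starRingEnd ℂ) q2 • v with hwq
  have key : ∀ (g H w : L2), ‖g‖ ≤ ‖f‖ → ‖H - w‖ ≤ γ / 8 * ‖f‖ →
      (inner ℂ g w).re - γ / 8 * ‖f‖ ^ 2 ≤ (inner ℂ g H).re := by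
    intro g H w hg hw
    have h1 : inner ℂ g H = inner ℂ g w + inner ℂ g (H - w) := by
      rw [← inner_add_right]; congr 1; abel
    have h2 : |(inner ℂ g (H - w)).re| ≤ γ / 8 * ‖f‖ ^ 2 := by
      refine (Complex.abs_re_le_norm _).trans ((norm_inner_le_norm _ _).trans ?_)
      calc ‖g‖ * ‖H - w‖ ≤ ‖f‖ * (γ / 8 * ‖f‖) :=
            mul_le_mul hg hw (norm_nonneg _) (norm_nonneg _)
        _ = _ := by ring
    rw [h1, Complex.add_re]
    have := (abs_le.1 h2).1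
    linarith
  have hk1 := key (P f) Hp wp hn1 hcp
  have hk2 := key (f - P f) Hq wq hn2 hcq
  have hfinal : (inner ℂ ((Mp.comp P + Mq.comp (1 - P) : L2 →L[ℂ] L2) f) f) =
      inner ℂ (P f) Hp + inner ℂ (f - P f) Hq := by
    rw [← hHp', ← hHq', ← inner_add_left]
    rfl
  rw [hfinal, Complex.add_re]
  nlinarith [sq_nonneg ‖f‖]

end Pool.Agent.H199BE
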