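import Pool.Agent.H199BE.Basic

set_option autoImplicit false
open MeasureTheory Filter Topology

namespace Pool.Agent.H199BE

theorem nec_ok : TaskNec := by
  intro hTest2 P hP p q Mp Mq hp hq hMp hMq hE
  obtain ⟨D, K, hD, hK, ⟨c, hc, hpos⟩, he⟩ := hE
  refine ⟨c, hc, ?_⟩
  intro x0 p1 q1 p2 q2 hp1 hq1 hp2 hq2 μ h0 h1 f1 f2
  obtain ⟨u, v, hu, hv, huv, hPu, hPv, hcomp, hmul⟩ := hTest2 P hP x0 μ h0 h1
  obtain ⟨hKu, hKv⟩ := hcomp K hK
  obtain ⟨hpu, hpv⟩ := hmul p Mp p1 p2 hp hMp hp1 hp2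
  obtain ⟨hqu, hqv⟩ := hmul q Mq q1 q2 hq hMq hq1 hq2
  rw [← tendsto_zero_iff_norm_tendsto_zero] at hPu hPv hKu hKv hpu hpv hqu hqv
  obtain ⟨κ, hκ⟩ : ∃ κ : ℂ, κ = (Real.sqrt (μ * (1 - μ)) : ℂ) := ⟨_, rfl⟩
  rw [← hκ] at hPu hPv
  obtain ⟨B, hB⟩ : ∃ B : L2 →L[ℂ] L2, B = Mp.comp P + Mq.comp (1 - P) := ⟨_, rfl⟩
  rw [← hB] at he
  have hBf : ∀ f, B f = Mp (P f) + Mq (f - P f) := by intro f; rw [hB]; rfl
  obtain ⟨w, hw⟩ : ∃ w : ℕ → L2, ∀ k, w k = f1 • u k + f2 • v k := ⟨_, fun _ => rfl⟩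
  obtain ⟨α1, hα1⟩ : ∃ α1 : ℂ, α1 = (μ:ℂ) * f1 + κ * f2 := ⟨_, rfl⟩
  obtain ⟨α2, hα2⟩ : ∃ α2 : ℂ, α2 = κ * f1 + ((1 - μ : ℝ):ℂ) * f2 := ⟨_, rfl⟩
  obtain ⟨c1, hc1⟩ : ∃ c1 : ℂ, c1 = p1 * α1 + q1 * (f1 - α1) := ⟨_, rfl⟩
  obtain ⟨c2, hc2⟩ : ∃ c2 : ℂ, c2 = p2 * α2 + q2 * (f2 - α2) := ⟨_, rfl⟩
  obtain ⟨d, hd⟩ : ∃ d : ℕ → L2, ∀ k, d k = f1 • (P (u k) - ((μ:ℂ) • u k + κ • v k))
      + f2 • (P (v k) - (κ • u k + ((1 - μ : ℝ):ℂ) • v k)) := ⟨_, fun _ => rfl⟩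
  have hd0 : Tendsto d atTop (𝓝 0) := by
    have := (hPu.const_smul f1).add (hPv.const_smul f2)
    simp only [smul_zero, add_zero] at this
    exact this.congr (fun k => (hd k).symm)
  have hPw : ∀ k, P (w k) = α1 • u k + α2 • v k + d k := by
    intro k
    rw [hw, hd, hα1, hα2, map_add, map_smul, map_smul]
    module
  have hBw : ∀ k, B (w k) - (c1 • u k + c2 • v k) = (Mp (d k) - Mq (d k))
      + (α1 • (Mp (u k) - p1 • u k) + α2 • (Mp (v k) - p2 • v k))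
      + ((f1 - α1) • (Mq (u k) - q1 • u k) + (f2 - α2) • (Mq (v k) - q2 • v k)) := by
    intro k
    have e1 : w k - P (w k) = (f1 - α1) • u k + (f2 - α2) • v k - d k := by
      rw [hPw, hw]; module
    rw [hBf, e1, hPw, hc1, hc2]
    simp only [map_add, map_sub, map_smul]
    module
  have he0 : Tendsto (fun k => B (w k) - (c1 • u k + c2 • v k)) atTop (𝓝 0) := by
    have t1 : Tendsto (fun k => Mp (d k)) atTop (𝓝 0) := by
      have := (Mp.continuous.tendsto 0).comp hd0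
      rwa [map_zero] at this
    have t2 : Tendsto (fun k => Mq (d k)) atTop (𝓝 0) := by
      have := (Mq.continuous.tendsto 0).comp hd0
      rwa [map_zero] at this
    have := ((t1.sub t2).add ((hpu.const_smul α1).add (hpv.const_smul α2))).add
      ((hqu.const_smul (f1 - α1)).add (hqv.const_smul (f2 - α2)))
    simp only [smul_zero, add_zero, sub_zero] at this
    exact this.congr (fun k => (hBw k).symm)
  have hKw : Tendsto (fun k => K (w k)) atTop (𝓝 0) := by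
    have := (hKu.const_smul f1).add (hKv.const_smul f2)
    simp only [smul_zero, add_zero] at this
    refine this.congr (fun k => ?_)
    rw [hw, map_add, map_smul, map_smul]
  -- norms
  have hvu : ∀ k, inner ℂ (v k) (u k) = 0 := by
    intro k; rw [← inner_conj_symm, huv k, map_zero]
  have hnorm : ∀ k, ‖w k‖ ^ 2 = ‖f1‖ ^ 2 * ‖u k‖ ^ 2 + ‖f2‖ ^ 2 * ‖v k‖ ^ 2 := by
    intro k
    have := norm_add_sq_eq_norm_sq_add_norm_sq_of_inner_eq_zero (f1 • u k) (f2 • v k)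
      (by rw [inner_smul_left, inner_smul_right, huv k, mul_zero, mul_zero])
    rw [hw, sq, this, norm_smul, norm_smul]
    ring
  have hin : ∀ k, (inner ℂ (c1 • u k + c2 • v k) (w k)).re
      = (c1 * (starRingEnd ℂ) f1).re * ‖u k‖ ^ 2 + (c2 * (starRingEnd ℂ) f2).re * ‖v k‖ ^ 2 := by
    intro k
    have hnu : inner ℂ (u k) (u k) = ((‖u k‖ ^ 2 : ℝ) : ℂ) := by
      rw [inner_self_eq_norm_sq_to_K]; push_cast; rfl
    have hnv : inner ℂ (v k) (v k) = ((‖v k‖ ^ 2 : ℝ) : ℂ) := by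
      rw [inner_self_eq_norm_sq_to_K]; push_cast; rfl
    rw [hw, inner_add_left, inner_add_right, inner_add_right, inner_smul_left, inner_smul_left,
      inner_smul_left, inner_smul_left, inner_smul_right, inner_smul_right, inner_smul_right,
      inner_smul_right, huv, hvu, hnu, hnv]
    simp only [mul_zero, add_zero, zero_add, Complex.add_re, Complex.mul_re, Complex.mul_im,
      Complex.conj_re, Complex.conj_im, Complex.ofReal_re, Complex.ofReal_im]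
    ring
  have hlimn : Tendsto (fun k => ‖w k‖ ^ 2) atTop (𝓝 (‖f1‖ ^ 2 + ‖f2‖ ^ 2)) := by
    have := ((hu.pow 2).const_mul (‖f1‖ ^ 2)).add ((hv.pow 2).const_mul (‖f2‖ ^ 2))
    simp only [one_pow, mul_one] at this
    exact this.congr (fun k => (hnorm k).symm)
  have hwn : Tendsto (fun k => ‖w k‖) atTop (𝓝 (Real.sqrt (‖f1‖ ^ 2 + ‖f2‖ ^ 2))) := by
    have := hlimn.sqrt
    simpa [Real.sqrt_sq (norm_nonneg _)] using this
  -- inequality for each k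
  have hineq : ∀ k, c * ‖w k‖ ^ 2 ≤
      ((c1 * (starRingEnd ℂ) f1).re * ‖u k‖ ^ 2 + (c2 * (starRingEnd ℂ) f2).re * ‖v k‖ ^ 2)
      + ‖B (w k) - (c1 • u k + c2 • v k)‖ * ‖w k‖ + ‖K (w k)‖ * ‖w k‖ := by
    intro k
    have h2 := hpos (w k)
    have h3 : (inner ℂ ((D + K) (w k)) (w k)).re = (inner ℂ (B (w k)) (w k)).re := by
      rw [← he]
      have h4 : ((1/2 : ℂ) • (B + ContinuousLinearMap.adjoint B) : L2 →L[ℂ] L2)
          (w k) = (1/2 : ℂ) • (B (w k) + ContinuousLinearMap.adjoint B (w k)) := rfl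
      rw [h4, inner_smul_left, inner_add_left, ContinuousLinearMap.adjoint_inner_left]
      have h5 : inner ℂ (w k) (B (w k)) = (starRingEnd ℂ) (inner ℂ (B (w k)) (w k)) := by
        rw [inner_conj_symm]
      rw [h5]
      have h6 : (starRingEnd ℂ) (1/2 : ℂ) = 1/2 := by
        rw [show (1/2 : ℂ) = ((1/2 : ℝ) : ℂ) by norm_num, Complex.conj_ofReal]
      rw [h6, Complex.add_conj]
      rw [show (1/2 : ℂ) * ((2 * (inner ℂ (B (w k)) (w k)).re : ℝ) : ℂ)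
        = (((inner ℂ (B (w k)) (w k)).re : ℝ) : ℂ) by push_cast; ring]
      rw [Complex.ofReal_re]
    have h7 : (inner ℂ ((D + K) (w k)) (w k)).re
        = (inner ℂ (D (w k)) (w k)).re + (inner ℂ (K (w k)) (w k)).re := by
      rw [add_apply, inner_add_left, Complex.add_re]
    have h8 : |(inner ℂ (K (w k)) (w k)).re| ≤ ‖K (w k)‖ * ‖w k‖ :=
      (Complex.abs_re_le_norm _).trans (norm_inner_le_norm _ _)
    have h9 : (inner ℂ (B (w k)) (w k)).re = (inner ℂ (c1 • u k + c2 • v k) (w k)).re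
        + (inner ℂ (B (w k) - (c1 • u k + c2 • v k)) (w k)).re := by
      rw [← Complex.add_re, ← inner_add_left]; congr 2; abel
    have h10 : |(inner ℂ (B (w k) - (c1 • u k + c2 • v k)) (w k)).re|
        ≤ ‖B (w k) - (c1 • u k + c2 • v k)‖ * ‖w k‖ :=
      (Complex.abs_re_le_norm _).trans (norm_inner_le_norm _ _)
    rw [← hin k]
    have h11 := abs_le.1 h8
    have h12 := abs_le.1 h10
    linarith [h11.1, h11.2, h12.1, h12.2]
  have hL : Tendsto (fun k => c * ‖w k‖ ^ 2) atTop (𝓝 (c * (‖f1‖ ^ 2 + ‖f2‖ ^ 2))) :=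
    hlimn.const_mul c
  have hR : Tendsto (fun k =>
      ((c1 * (starRingEnd ℂ) f1).re * ‖u k‖ ^ 2 + (c2 * (starRingEnd ℂ) f2).re * ‖v k‖ ^ 2)
      + ‖B (w k) - (c1 • u k + c2 • v k)‖ * ‖w k‖ + ‖K (w k)‖ * ‖w k‖) atTop
      (𝓝 (((c1 * (starRingEnd ℂ) f1).re * 1 ^ 2 + (c2 * (starRingEnd ℂ) f2).re * 1 ^ 2)
        + 0 * Real.sqrt (‖f1‖ ^ 2 + ‖f2‖ ^ 2) + 0 * Real.sqrt (‖f1‖ ^ 2 + ‖f2‖ ^ 2))) := by
    have t1 := ((hu.pow 2).const_mul (c1 * (starRingEnd ℂ) f1).re).add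
      ((hv.pow 2).const_mul (c2 * (starRingEnd ℂ) f2).re)
    have t2 := (tendsto_zero_iff_norm_tendsto_zero.1 he0).mul hwn
    have t3 := (tendsto_zero_iff_norm_tendsto_zero.1 hKw).mul hwn
    exact (t1.add t2).add t3
  have hfin := le_of_tendsto_of_tendsto' hL hR hineq
  refine hfin.trans (le_of_eq ?_)
  unfold Form
  rw [← hκ, hc1, hc2, hα1, hα2]
  simp only [one_pow, mul_one, zero_mul, add_zero]
  rw [← Complex.add_re]
  congr 1
  push_cast
  ring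

end Pool.Agent.H199BE
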