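import Pool.Agent.H199BE.Stmts

set_option autoImplicit false
open MeasureTheory Filter Topology

namespace Pool.Agent.H199BE

namespace PCm

/-- functions on the line with right limits are measurable -/
theorem measurable_of_right (b : ℝ → ℂ) (hb : ∀ x : ℝ, ∃ r : ℂ, Tendsto b (𝓝[>] x) (𝓝 r)) :
    Measurable b := by
  choose r hr using hb
  -- the right limit is measurable
  have hrm : Measurable r := by
    have hseq : ∀ x : ℝ, Tendsto (fun n : ℕ => ((⌊((n : ℝ) + 1) * x⌋ : ℝ) + 1) / ((n : ℝ) + 1))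
        atTop (𝓝[>] x) := by
      intro x
      rw [tendsto_nhdsWithin_iff]
      constructor
      · have h1 : ∀ n : ℕ, x ≤ ((⌊((n : ℝ) + 1) * x⌋ : ℝ) + 1) / ((n : ℝ) + 1) := by
          intro n
          have hn : (0 : ℝ) < (n : ℝ) + 1 := by positivity
          rw [le_div_iff₀ hn]
          have := (Int.lt_floor_add_one (((n : ℝ) + 1) * x)).le
          linarith
        have h2 : ∀ n : ℕ, ((⌊((n : ℝ) + 1) * x⌋ : ℝ) + 1) / ((n : ℝ) + 1) ≤
            x + 1 / ((n : ℝ) + 1) := by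
          intro n
          have hn : (0 : ℝ) < (n : ℝ) + 1 := by positivity
          rw [div_le_iff₀ hn]
          have := Int.floor_le (((n : ℝ) + 1) * x)
          have e : (x + 1 / ((n : ℝ) + 1)) * ((n : ℝ) + 1) = ((n : ℝ) + 1) * x + 1 := by
            field_simp
          rw [e]
          linarith
        have h3 : Tendsto (fun n : ℕ => x + 1 / ((n : ℝ) + 1)) atTop (𝓝 (x + 0)) :=
          tendsto_const_nhds.add tendsto_one_div_add_atTop_nhds_zero_nat
        rw [add_zero] at h3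
        exact tendsto_of_tendsto_of_tendsto_of_le_of_le tendsto_const_nhds h3 h1 h2
      · refine Filter.Eventually.of_forall fun n => ?_
        have hn : (0 : ℝ) < (n : ℝ) + 1 := by positivity
        rw [Set.mem_Ioi, lt_div_iff₀ hn]
        have := Int.lt_floor_add_one (((n : ℝ) + 1) * x)
        linarith
    refine measurable_of_tendsto_metrizable (f := fun (n : ℕ) (x : ℝ) =>
      b (((⌊((n : ℝ) + 1) * x⌋ : ℝ) + 1) / ((n : ℝ) + 1))) (fun n => ?_) ?_
    · have h1 : Measurable (fun k : ℤ => b (((k : ℝ) + 1) / ((n : ℝ) + 1))) :=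
        measurable_from_top
      exact h1.comp (Int.measurable_floor.comp (measurable_const.mul measurable_id))
    · rw [tendsto_pi_nhds]
      intro x
      exact (hr x).comp (hseq x)
  refine hrm.measurable_of_countable_ne ?_
  -- countably many points where b differs from its right limit
  have hsub : {x | r x ≠ b x} ⊆ ⋃ n : ℕ, {x | 1 / ((n : ℝ) + 1) < ‖b x - r x‖} := by
    intro x hx
    have h1 : 0 < ‖b x - r x‖ := norm_pos_iff.2 (sub_ne_zero.2 (Ne.symm hx))
    obtain ⟨n, hn⟩ := exists_nat_one_div_lt h1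
    exact Set.mem_iUnion.2 ⟨n, hn⟩
  refine (Set.countable_iUnion fun n => ?_).mono hsub
  set ε : ℝ := 1 / ((n : ℝ) + 1) with hε
  have hεpos : 0 < ε := by positivity
  set s : Set ℝ := {x | ε < ‖b x - r x‖} with hs
  refine (countable_setOfPred_isolated_right_within (s := s)).mono ?_
  intro x hx
  refine ⟨hx, ?_⟩
  have h1 : ∀ᶠ y in 𝓝[>] x, ‖b y - r x‖ < ε / 2 := by
    have := (hr x).eventually (Metric.ball_mem_nhds (r x) (half_pos hεpos))
    filter_upwards [this] with y hy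
    rwa [dist_eq_norm] at hy
  obtain ⟨u, hu, hu'⟩ := mem_nhdsGT_iff_exists_Ioo_subset.1 h1
  have h2 : ∀ y ∈ Set.Ioo x u, y ∉ s := by
    intro y hy hys
    have h3 : ‖r y - r x‖ ≤ ε / 2 := by
      have h4 : Tendsto (fun z => ‖b z - r x‖) (𝓝[>] y) (𝓝 ‖r y - r x‖) :=
        ((hr y).sub tendsto_const_nhds).norm
      refine le_of_tendsto h4 ?_
      filter_upwards [Ioo_mem_nhdsGT hy.2] with z hz
      exact (hu' ⟨hy.1.trans hz.1, hz.2⟩).le
    have h5 : ‖b y - r x‖ < ε / 2 := hu' hy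
    have h6 : ‖b y - r y‖ ≤ ‖b y - r x‖ + ‖r y - r x‖ := by
      rw [← norm_neg (r y - r x)]
      refine (le_of_eq ?_).trans (norm_add_le _ _)
      congr 1
      ring
    have h7 : ε < ‖b y - r y‖ := hys
    linarith
  rw [← empty_mem_iff_bot, mem_nhdsWithin_iff_exists_mem_nhds_inter]
  refine ⟨Set.Iio u, Iio_mem_nhds hu, ?_⟩
  rintro y ⟨hy1, hy2, hy3⟩
  exact (h2 y ⟨hy3, hy1⟩ hy2).elim

theorem measurable_of_PC {a : Circ → ℂ} (ha : PC a) : Measurable a := by
  have h1 : Measurable (fun s : ℝ => a (s : Circ)) :=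
    measurable_of_right _ fun x => (ha x).2
  have h2 : Measurable (fun t : Circ => ((AddCircle.measurableEquivIoc (1:ℝ) 0 t : ℝ))) :=
    measurable_subtype_coe.comp (AddCircle.measurableEquivIoc (1:ℝ) 0).measurable
  have h3 : a = (fun s : ℝ => a (s : Circ)) ∘
      (fun t : Circ => ((AddCircle.measurableEquivIoc (1:ℝ) 0 t : ℝ))) := by
    funext t
    simp only [Function.comp_apply]
    congr 1
    exact ((AddCircle.measurableEquivIoc (1:ℝ) 0).symm_apply_apply t).symm
  rw [h3]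
  exact h1.comp h2

theorem bounded_of_PC {a : Circ → ℂ} (ha : PC a) : ∃ C : ℝ, ∀ t : Circ, ‖a t‖ ≤ C := by
  have hloc : ∀ x : ℝ, ∃ t ∈ 𝓝 x, ∃ C : ℝ, ∀ y ∈ t, ‖a (y : Circ)‖ ≤ C := by
    intro x
    obtain ⟨⟨l, hl⟩, ⟨r, hr⟩⟩ := ha x
    have h1 : ∀ᶠ y : ℝ in 𝓝[<] x, ‖a (y : Circ)‖ ≤ ‖l‖ + 1 := by
      have := hl.norm.eventually (Iio_mem_nhds (lt_add_one ‖l‖))
      filter_upwards [this] with y hy using (le_of_lt hy)
    have h2 : ∀ᶠ y : ℝ in 𝓝[>] x, ‖a (y : Circ)‖ ≤ ‖r‖ + 1 := by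
      have := hr.norm.eventually (Iio_mem_nhds (lt_add_one ‖r‖))
      filter_upwards [this] with y hy using (le_of_lt hy)
    rw [eventually_nhdsWithin_iff] at h1 h2
    refine ⟨_, h1.and h2, max (max (‖l‖ + 1) (‖r‖ + 1)) ‖a (x : Circ)‖, ?_⟩
    rintro y ⟨hy1, hy2⟩
    rcases lt_trichotomy y x with h | h | h
    · exact (hy1 h).trans ((le_max_left _ _).trans (le_max_left _ _))
    · subst h; exact le_max_right _ _
    · exact (hy2 h).trans ((le_max_right _ _).trans (le_max_left _ _))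
  have hc : IsCompact (Set.Icc (0:ℝ) 1) := isCompact_Icc
  obtain ⟨C, hC⟩ := hc.induction_on (p := fun s => ∃ C : ℝ, ∀ y ∈ s, ‖a (y : Circ)‖ ≤ C)
    ⟨0, by simp⟩ (fun s t hst ⟨C, hC⟩ => ⟨C, fun y hy => hC y (hst hy)⟩)
    (fun s t ⟨C, hC⟩ ⟨C', hC'⟩ => ⟨max C C', fun y hy => by
      rcases hy with hy | hy
      · exact (hC y hy).trans (le_max_left _ _)
      · exact (hC' y hy).trans (le_max_right _ _)⟩)
    (fun x _ => by
      obtain ⟨t, ht, h⟩ := hloc x
      exact ⟨t, mem_nhdsWithin_of_mem_nhds ht, h⟩)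
  refine ⟨C, fun t => ?_⟩
  have h1 : t ∈ ((↑) : ℝ → AddCircle (1:ℝ)) '' Set.Icc 0 (0 + 1) := by
    rw [AddCircle.coe_image_Icc_eq]; trivial
  obtain ⟨s, hs, rfl⟩ := h1
  rw [zero_add] at hs
  exact hC s hs

end PCm

open PCm in
theorem PCmul_ok : TaskPCmul := by
  intro a ha
  obtain ⟨C, hC⟩ := bounded_of_PC ha
  have hm' : AEStronglyMeasurable a hm := (measurable_of_PC ha).aestronglyMeasurable
  have hmem : MemLp a ⊤ hm := memLp_top_of_bound hm' C (Filter.Eventually.of_forall hC)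
  refine ⟨(ContinuousLinearMap.mul ℂ ℂ).holderL hm ⊤ 2 2 (hmem.toLp a), fun f => ?_⟩
  have h1 := ContinuousLinearMap.coeFn_holder (r := 2) (ContinuousLinearMap.mul ℂ ℂ)
    (hmem.toLp a) f
  have h2 := hmem.coeFn_toLp
  filter_upwards [h1, h2] with x hx hx2
  rw [ContinuousLinearMap.holderL_apply_apply, hx, hx2]
  rfl

end Pool.Agent.H199BE
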