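import Mathlib
import Pool.Agent.H199BE.Stmts

/-!
Project BE, task M (TaskTest1): concentrating Hardy functions and anti-Hardy companions.
-/

set_option autoImplicit false
open MeasureTheory Filter Topology

namespace Pool.Agent.H199BE.Test1

noncomputable section

open Pool.Agent.H199BE

/-- representative in `[0,1)` -/
def rep (x : Circ) : ℝ := (AddCircle.equivIco (1:ℝ) 0 x : ℝ)

theorem rep_coe (t : ℝ) : rep (t : Circ) = Int.fract t := by
  unfold rep
  simp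

theorem coe_rep (x : Circ) : ((rep x : ℝ) : Circ) = x := by
  induction x using QuotientAddGroup.induction_on with
  | H t =>
    have h : rep ((t : ℝ) : Circ) = Int.fract t := rep_coe t
    change ((rep ((t : ℝ) : Circ) : ℝ) : Circ) = ((t : ℝ) : Circ)
    rw [h]
    exact AddCircle.coe_fract t

theorem rep_nonneg (x : Circ) : 0 ≤ rep x := by
  have h := (AddCircle.equivIco (1:ℝ) 0 x).2
  exact h.1

theorem rep_lt (x : Circ) : rep x < 1 := by
  unfold rep
  have h := (AddCircle.equivIco (1:ℝ) 0 x).2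
  have h2 := h.2
  simpa using h2

/-- the ratio -/
def rho (s : ℂ) (y : ℝ) : ℂ :=
  Complex.I * Complex.exp (-(2 * Real.pi * Complex.I * y)) *
    Complex.exp (-(2 * Real.pi * Complex.I * s * (y - 1/2)))

/-- the power function -/
def Hs (s : ℂ) (x : Circ) : ℂ := ((1:ℂ) - fourier 1 x) ^ s

theorem four_one (y : ℝ) : (fourier 1 ((y:ℝ) : Circ) : ℂ) = Complex.exp (2 * Real.pi * Complex.I * y) := by
  rw [fourier_coe_apply]
  congr 1
  push_cast
  ring

theorem four_neg_one (y : ℝ) :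
    (fourier (-1) ((y:ℝ) : Circ) : ℂ) = Complex.exp (-(2 * Real.pi * Complex.I * y)) := by
  rw [fourier_coe_apply]
  congr 1
  push_cast
  ring

theorem one_sub_exp (θ : ℝ) :
    (1:ℂ) - Complex.exp (Complex.I * ((2 * θ : ℝ) + Real.pi)) =
      ((2 * Real.cos θ : ℝ) : ℂ) * Complex.exp (Complex.I * θ) := by
  have h1 : Complex.exp (Complex.I * ((2 * θ : ℝ) + Real.pi)) =
      - (Complex.exp (Complex.I * θ) * Complex.exp (Complex.I * θ)) := by
    have h0 : Complex.I * (((2 * θ : ℝ) : ℂ) + Real.pi) =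
        (Complex.I * θ + Complex.I * θ) + Real.pi * Complex.I := by
      push_cast
      ring
    rw [h0, Complex.exp_add, Complex.exp_add, Complex.exp_pi_mul_I]
    ring
  rw [h1]
  have h2 : ((2 * Real.cos θ : ℝ) : ℂ) =
      Complex.exp (Complex.I * θ) + Complex.exp (-(Complex.I * θ)) := by
    push_cast
    rw [Complex.cos]
    rw [mul_comm (θ:ℂ) Complex.I, neg_mul, mul_comm (θ:ℂ) Complex.I]
    ring
  rw [h2, add_mul, ← Complex.exp_add (-(Complex.I * θ)), neg_add_cancel, Complex.exp_zero]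
  ring

theorem log_form {θ : ℝ} (h1 : -(Real.pi / 2) < θ) (h2 : θ < Real.pi / 2) :
    Complex.log (((2 * Real.cos θ : ℝ) : ℂ) * Complex.exp (Complex.I * θ)) =
      (Real.log (2 * Real.cos θ) : ℂ) + Complex.I * θ := by
  have hc : 0 < 2 * Real.cos θ := by
    have := Real.cos_pos_of_mem_Ioo ⟨h1, h2⟩
    linarith
  rw [Complex.log_ofReal_mul hc (Complex.exp_ne_zero _)]
  congr 1
  have hp := Real.pi_pos
  apply Complex.log_exp
  · simp
    linarith
  · simp
    linarith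

/-- the pointwise identity -/
theorem ratio (s : ℂ) (hs : s ≠ 0) (x : Circ) :
    Complex.I * fourier (-1) x * ((1:ℂ) - fourier (-1) x) ^ s = rho s (rep x) * Hs s x := by
  by_cases hx : rep x = 0
  · have h0 : x = ((0:ℝ) : Circ) := by rw [← hx, coe_rep]
    unfold Hs
    have h1 : (fourier 1 x : ℂ) = 1 := by rw [h0, four_one]; simp
    have h2 : (fourier (-1) x : ℂ) = 1 := by rw [h0, four_neg_one]; simp
    rw [h1, h2]
    simp [hs]
  · have hy0 : 0 < rep x := lt_of_le_of_ne (rep_nonneg x) (Ne.symm hx)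
    have hy1 := rep_lt x
    set y := rep x with hy
    have hxy : x = ((y:ℝ) : Circ) := (coe_rep x).symm
    unfold Hs rho
    have hp := Real.pi_pos
    set θ : ℝ := Real.pi * y - Real.pi / 2 with hθ
    have ht1 : -(Real.pi / 2) < θ := by rw [hθ]; nlinarith
    have ht2 : θ < Real.pi / 2 := by rw [hθ]; nlinarith
    have e1 : (fourier 1 x : ℂ) = Complex.exp (Complex.I * ((2 * θ : ℝ) + Real.pi)) := by
      rw [hxy, four_one]
      congr 1
      rw [hθ]
      push_cast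
      ring
    have e2 : (fourier (-1) x : ℂ) = Complex.exp (Complex.I * ((2 * (-θ) : ℝ) + Real.pi)) := by
      rw [hxy, four_neg_one]
      have : Complex.exp (Complex.I * ((2 * (-θ) : ℝ) + Real.pi)) =
          Complex.exp (-(2 * Real.pi * Complex.I * y) + 2 * Real.pi * Complex.I) := by
        congr 1
        rw [hθ]
        push_cast
        ring
      rw [this, Complex.exp_add, Complex.exp_two_pi_mul_I, mul_one]
    have f1 : (1:ℂ) - fourier 1 x = ((2 * Real.cos θ : ℝ) : ℂ) * Complex.exp (Complex.I * θ) := by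
      rw [e1, one_sub_exp]
    have f2 : (1:ℂ) - fourier (-1) x =
        ((2 * Real.cos (-θ) : ℝ) : ℂ) * Complex.exp (Complex.I * (-θ : ℝ)) := by
      rw [e2, one_sub_exp]
    have hc : 0 < 2 * Real.cos θ := by
      have := Real.cos_pos_of_mem_Ioo ⟨ht1, ht2⟩
      linarith
    have n1 : (1:ℂ) - fourier 1 x ≠ 0 := by
      rw [f1]
      exact mul_ne_zero (by exact_mod_cast hc.ne') (Complex.exp_ne_zero _)
    have n2 : (1:ℂ) - fourier (-1) x ≠ 0 := by
      rw [f2, Real.cos_neg]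
      exact mul_ne_zero (by exact_mod_cast hc.ne') (Complex.exp_ne_zero _)
    rw [Complex.cpow_def_of_ne_zero n1, Complex.cpow_def_of_ne_zero n2, f1, f2,
      log_form ht1 ht2, log_form (by linarith : -(Real.pi / 2) < -θ) (by linarith), Real.cos_neg]
    have e3 : (fourier (-1) x : ℂ) = Complex.exp (-(2 * Real.pi * Complex.I * y)) := by
      rw [hxy, four_neg_one]
    rw [e3]
    have R : ∀ A B C D : ℂ, B = C + D → Complex.I * Complex.exp A * Complex.exp B =
        Complex.I * Complex.exp A * Complex.exp C * Complex.exp D := by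
      intro A B C D h
      rw [h, Complex.exp_add]
      ring
    apply R
    rw [hθ]
    push_cast
    ring


theorem P_fix (P : L2 →L[ℂ] L2) (hP : IsP P) (f : L2)
    (hf : ∀ n : ℤ, n < 0 → fourierCoeff (T := (1:ℝ)) (f : Circ → ℂ) n = 0) : P f = f := by
  have h := hasSum_fourier_series_L2 (T := (1:ℝ)) f
  have h2 := h.mapL P
  have h3 : (fun i => P (fourierCoeff (T := (1:ℝ)) (f : Circ → ℂ) i • fourierLp (T := (1:ℝ)) 2 i)) =
      fun i => fourierCoeff (T := (1:ℝ)) (f : Circ → ℂ) i • fourierLp (T := (1:ℝ)) 2 i := by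
    funext i
    rw [map_smul, hP i]
    split_ifs with hi
    · rfl
    · rw [hf i (by omega)]
      simp
  rw [h3] at h2
  exact h2.unique h

theorem P_kill (P : L2 →L[ℂ] L2) (hP : IsP P) (f : L2)
    (hf : ∀ n : ℤ, 0 ≤ n → fourierCoeff (T := (1:ℝ)) (f : Circ → ℂ) n = 0) : P f = 0 := by
  have h := hasSum_fourier_series_L2 (T := (1:ℝ)) f
  have h2 := h.mapL P
  have h3 : (fun i => P (fourierCoeff (T := (1:ℝ)) (f : Circ → ℂ) i • fourierLp (T := (1:ℝ)) 2 i)) =
      fun _ => 0 := by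
    funext i
    rw [map_smul, hP i]
    split_ifs with hi
    · rw [hf i hi]
      simp
    · simp
  rw [h3] at h2
  exact h2.unique hasSum_zero

/-- translation -/
def tr (F : Circ → ℂ) (x0 : ℝ) : Circ → ℂ := fun x => F (x - (x0 : Circ))

theorem memLp_tr {F : Circ → ℂ} (hF : MemLp F 2 hm) (x0 : ℝ) : MemLp (tr F x0) 2 hm :=
  hF.comp_measurePreserving (measurePreserving_sub_right hm (x0 : Circ))

theorem four_add_pt (n : ℤ) (x y : Circ) :
    (fourier n (x + y) : ℂ) = fourier n x * fourier n y := by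
  rw [fourier_apply, fourier_apply, fourier_apply, smul_add, AddCircle.toCircle_add,
    Circle.coe_mul]

theorem four_neg_pt (n : ℤ) (x : Circ) : (fourier n (-x) : ℂ) = fourier (-n) x := by
  rw [fourier_apply, fourier_apply, smul_neg, neg_smul]

theorem coeff_tr (F : Circ → ℂ) (x0 : ℝ) (n : ℤ) :
    fourierCoeff (T := (1:ℝ)) (tr F x0) n =
      fourier (-n) (x0 : Circ) * fourierCoeff (T := (1:ℝ)) F n := by
  unfold fourierCoeff
  have h := integral_sub_right_eq_self (μ := hm)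
    (fun t : Circ => (fourier (-n) (t + (x0 : Circ)) : ℂ) • F t) (x0 : Circ)
  have h1 : (fun t : Circ => (fourier (-n) (t - (x0:Circ) + (x0 : Circ)) : ℂ) • F (t - (x0:Circ)))
      = fun t : Circ => (fourier (-n) t : ℂ) • tr F x0 t := by
    funext t
    rw [sub_add_cancel]
    rfl
  rw [h1] at h
  rw [h, ← integral_const_mul]
  congr 1
  funext t
  rw [four_add_pt, smul_eq_mul, smul_eq_mul]
  ring

/-- the companion -/
def Wc (F : Circ → ℂ) : Circ → ℂ := fun x => Complex.I * fourier (-1) x * F (-x)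

theorem coeff_W (F : Circ → ℂ) (n : ℤ) :
    fourierCoeff (T := (1:ℝ)) (Wc F) n = Complex.I * fourierCoeff (T := (1:ℝ)) F (-(n+1)) := by
  unfold fourierCoeff
  have h := integral_neg_eq_self (μ := hm) (fun t : Circ => (fourier (-n) t : ℂ) • Wc F t)
  have h' : (∫ t : Circ, (fourier (-n) t : ℂ) • Wc F t ∂hm) =
      ∫ t : Circ, (fourier (-n) (-t) : ℂ) • Wc F (-t) ∂hm := by
    rw [← integral_neg_eq_self]
  rw [h', ← integral_const_mul]
  congr 1
  funext t
  unfold Wc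
  rw [neg_neg, four_neg_pt, four_neg_pt, smul_eq_mul, smul_eq_mul]
  have h2 : (fourier (- -(n+1)) t : ℂ) = fourier (- -n) t * fourier (- -1) t := by
    rw [← fourier_add]
    congr 2
    ring
  rw [h2]
  ring

theorem memLp_W {F : Circ → ℂ} (hF : MemLp F 2 hm) : MemLp (Wc F) 2 hm := by
  have h1 : MemLp (fun x : Circ => F (-x)) 2 hm :=
    hF.comp_measurePreserving (Measure.measurePreserving_neg hm)
  refine MemLp.of_le h1 ?_ ?_
  · unfold Wc
    refine AEStronglyMeasurable.mul ?_ h1.1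
    exact ((continuous_const.mul (fourier (-1)).continuous)).aestronglyMeasurable
  · refine Eventually.of_forall fun x => ?_
    unfold Wc
    rw [norm_mul, norm_mul, Complex.norm_I, one_mul]
    have : ‖(fourier (-1) x : ℂ)‖ = 1 := Circle.norm_coe _
    rw [this, one_mul]

theorem normsq (f : L2) : ‖f‖ ^ 2 = ∫ x : Circ, ‖f x‖ ^ 2 ∂hm := by
  have H₃ := congr_arg RCLike.re (@L2.inner_def (AddCircle (1:ℝ)) ℂ ℂ _ _ _ _ _ f f)
  rw [← integral_re] at H₃
  · simp only [← norm_sq_eq_re_inner] at H₃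
    exact H₃
  · exact L2.integrable_inner f f

theorem normsq_tr {F : Circ → ℂ} (hF : MemLp F 2 hm) (x0 : ℝ) :
    ‖(memLp_tr hF x0).toLp (tr F x0)‖ ^ 2 = ∫ x : Circ, ‖F x‖ ^ 2 ∂hm := by
  rw [normsq]
  have h1 : (∫ x : Circ, ‖((memLp_tr hF x0).toLp (tr F x0) : Circ → ℂ) x‖ ^ 2 ∂hm) =
      ∫ x : Circ, ‖tr F x0 x‖ ^ 2 ∂hm := by
    apply integral_congr_ae
    filter_upwards [(memLp_tr hF x0).coeFn_toLp] with x hx
    rw [hx]
  rw [h1]
  exact integral_sub_right_eq_self (μ := hm) (fun t : Circ => ‖F t‖ ^ 2) (x0 : Circ)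

/-! ### one sided limits -/

theorem fract_right (x0 x : ℝ) :
    Tendsto (fun s : ℝ => Int.fract (s - x0)) (𝓝[>] x) (𝓝 (Int.fract (x - x0))) := by
  have h1 : Tendsto (fun s : ℝ => s - x0 - (⌊x - x0⌋ : ℝ)) (𝓝[>] x)
      (𝓝 (x - x0 - (⌊x - x0⌋ : ℝ))) := by
    apply Tendsto.mono_left _ nhdsWithin_le_nhds
    exact ((continuous_id.sub continuous_const).sub continuous_const).tendsto x
  have h2 : x - x0 - (⌊x - x0⌋ : ℝ) = Int.fract (x - x0) := rfl
  rw [← h2]
  refine h1.congr' ?_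
  have h3 : ∀ᶠ s in 𝓝[>] x, s < (⌊x - x0⌋ : ℝ) + 1 + x0 := by
    apply Filter.Eventually.filter_mono nhdsWithin_le_nhds
    apply Iio_mem_nhds
    have := Int.lt_floor_add_one (x - x0)
    linarith
  filter_upwards [h3, self_mem_nhdsWithin] with s hs hs2
  have hs2' : x < s := hs2
  have h4 : ⌊s - x0⌋ = ⌊x - x0⌋ := by
    rw [Int.floor_eq_iff]
    have := Int.floor_le (x - x0)
    constructor <;> linarith
  change _ = s - x0 - (⌊s - x0⌋ : ℝ)
  rw [h4]

theorem fract_left (x0 x : ℝ) :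
    Tendsto (fun s : ℝ => Int.fract (s - x0)) (𝓝[<] x) (𝓝 (x - x0 - (⌈x - x0⌉ : ℝ) + 1)) := by
  have h1 : Tendsto (fun s : ℝ => s - x0 - (⌈x - x0⌉ : ℝ) + 1) (𝓝[<] x)
      (𝓝 (x - x0 - (⌈x - x0⌉ : ℝ) + 1)) := by
    apply Tendsto.mono_left _ nhdsWithin_le_nhds
    exact (((continuous_id.sub continuous_const).sub continuous_const).add
      continuous_const).tendsto x
  refine h1.congr' ?_
  have h3 : ∀ᶠ s in 𝓝[<] x, (⌈x - x0⌉ : ℝ) - 1 + x0 < s := by
    apply Filter.Eventually.filter_mono nhdsWithin_le_nhds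
    apply Ioi_mem_nhds
    have := Int.ceil_lt_add_one (x - x0)
    linarith
  filter_upwards [h3, self_mem_nhdsWithin] with s hs hs2
  have hs2' : s < x := hs2
  have h4 : ⌊s - x0⌋ = ⌈x - x0⌉ - 1 := by
    rw [Int.floor_eq_iff]
    have := Int.le_ceil (x - x0)
    push_cast
    constructor <;> linarith
  change _ = s - x0 - (⌊s - x0⌋ : ℝ)
  rw [h4]
  push_cast
  ring

theorem rho_cont (s : ℂ) : Continuous (rho s) := by
  unfold rho
  fun_prop

/-- the multiplier -/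
def GG (s : ℂ) (x0 : ℝ) : Circ → ℂ := fun x => rho s (rep (x - (x0 : Circ)))

theorem GG_coe (s : ℂ) (x0 t : ℝ) : GG s x0 ((t : ℝ) : Circ) = rho s (Int.fract (t - x0)) := by
  unfold GG
  rw [← AddCircle.coe_sub, rep_coe]

theorem GG_right (s : ℂ) (x0 x : ℝ) : RLim (GG s x0) x (rho s (Int.fract (x - x0))) := by
  unfold RLim
  simp_rw [GG_coe]
  exact ((rho_cont s).tendsto _).comp (fract_right x0 x)

theorem GG_left (s : ℂ) (x0 x : ℝ) :
    LLim (GG s x0) x (rho s (x - x0 - (⌈x - x0⌉ : ℝ) + 1)) := by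
  unfold LLim
  simp_rw [GG_coe]
  exact ((rho_cont s).tendsto _).comp (fract_left x0 x)

theorem GG_PC (s : ℂ) (x0 : ℝ) : PC (GG s x0) :=
  fun x => ⟨⟨_, GG_left s x0 x⟩, ⟨_, GG_right s x0 x⟩⟩

/-! ### values at the point -/

theorem sqrt_form {r : ℝ} (hr : 0 < r) : Real.sqrt r = Real.exp (Real.log r / 2) := by
  have h : Real.exp (Real.log r / 2) ^ 2 = r := by
    rw [← Real.exp_nat_mul]
    push_cast
    rw [mul_div_cancel₀ _ (two_ne_zero), Real.exp_log hr]
  calc Real.sqrt r = Real.sqrt (Real.exp (Real.log r / 2) ^ 2) := by rw [h]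
    _ = _ := Real.sqrt_sq (Real.exp_pos _).le

theorem exp_I_half : Complex.exp (-(Real.pi / 2 * Complex.I)) = -Complex.I := by
  rw [Complex.exp_neg, Complex.exp_pi_div_two_mul_I]
  simp

theorem rho_zero (ξ : ℝ) : rho (-(1/2) + (ξ:ℂ) * Complex.I) 0 = (Real.exp (-(Real.pi * ξ)) : ℂ) := by
  unfold rho
  have h1 : -(2 * (Real.pi:ℂ) * Complex.I * (-(1/2) + (ξ:ℂ) * Complex.I) * (((0:ℝ):ℂ) - 1/2)) =
      -(Real.pi / 2 * Complex.I) + ((-(Real.pi * ξ) : ℝ) : ℂ) := by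
    push_cast
    ring_nf
    rw [Complex.I_sq]
    ring
  rw [h1, Complex.exp_add, exp_I_half]
  have h2 : -(2 * (Real.pi:ℂ) * Complex.I * ((0:ℝ):ℂ)) = 0 := by simp
  rw [h2, Complex.exp_zero, mul_one, ← mul_assoc, mul_neg, Complex.I_mul_I, neg_neg, one_mul,
    Complex.ofReal_exp]

theorem rho_one (ξ : ℝ) : rho (-(1/2) + (ξ:ℂ) * Complex.I) 1 = -(Real.exp (Real.pi * ξ) : ℂ) := by
  unfold rho
  have h1 : -(2 * (Real.pi:ℂ) * Complex.I * (-(1/2) + (ξ:ℂ) * Complex.I) * (((1:ℝ):ℂ) - 1/2)) =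
      (Real.pi / 2 * Complex.I) + ((Real.pi * ξ : ℝ) : ℂ) := by
    push_cast
    ring_nf
    rw [Complex.I_sq]
    ring
  rw [h1, Complex.exp_add, Complex.exp_pi_div_two_mul_I]
  have h2 : Complex.exp (-(2 * (Real.pi:ℂ) * Complex.I * ((1:ℝ):ℂ))) = 1 := by
    rw [Complex.exp_neg]
    have : 2 * (Real.pi:ℂ) * Complex.I * ((1:ℝ):ℂ) = 2 * Real.pi * Complex.I := by
      push_cast; ring
    rw [this, Complex.exp_two_pi_mul_I, inv_one]
  rw [h2, mul_one, ← mul_assoc, Complex.I_mul_I, neg_one_mul, Complex.ofReal_exp]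

theorem rho_close (ξ ε y : ℝ) (hε : 0 ≤ ε) (hy0 : 0 ≤ y) (hy1 : y ≤ 1) :
    ‖rho (-(1/2) + (ε:ℂ) + (ξ:ℂ) * Complex.I) y - rho (-(1/2) + (ξ:ℂ) * Complex.I) y‖ ≤
      Real.exp (Real.pi * |ξ|) * (Real.pi * ε) := by
  have hp := Real.pi_pos
  unfold rho
  rw [← mul_sub, norm_mul, norm_mul, Complex.norm_I, one_mul]
  have h1 : ‖Complex.exp (-(2 * (Real.pi:ℂ) * Complex.I * (y:ℂ)))‖ = 1 := by
    have : -(2 * (Real.pi:ℂ) * Complex.I * (y:ℂ)) = ((-(2 * Real.pi * y) : ℝ) : ℂ) * Complex.I := by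
      push_cast; ring
    rw [this, Complex.norm_exp_ofReal_mul_I]
  rw [h1, one_mul]
  have h2 : -(2 * (Real.pi:ℂ) * Complex.I * (-(1/2) + (ε:ℂ) + (ξ:ℂ) * Complex.I) * ((y:ℂ) - 1/2)) =
      -(2 * (Real.pi:ℂ) * Complex.I * (-(1/2) + (ξ:ℂ) * Complex.I) * ((y:ℂ) - 1/2)) +
        Complex.I * ((-(2 * Real.pi * ε * (y - 1/2)) : ℝ) : ℂ) := by
    push_cast; ring
  rw [h2, Complex.exp_add]
  have h3 : ∀ a b : ℂ, a * b - a = a * (b - 1) := fun a b => by ring
  rw [h3, norm_mul]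
  apply mul_le_mul _ _ (norm_nonneg _) (Real.exp_pos _).le
  · rw [Complex.norm_exp]
    apply Real.exp_le_exp.2
    have h4 : (-(2 * (Real.pi:ℂ) * Complex.I * (-(1/2) + (ξ:ℂ) * Complex.I) * ((y:ℂ) - 1/2))).re =
        2 * Real.pi * ξ * (y - 1/2) := by
      have : -(2 * (Real.pi:ℂ) * Complex.I * (-(1/2) + (ξ:ℂ) * Complex.I) * ((y:ℂ) - 1/2)) =
          ((2 * Real.pi * ξ * (y - 1/2) : ℝ) : ℂ) + ((Real.pi * (y - 1/2) : ℝ) : ℂ) * Complex.I := by
        push_cast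
        ring_nf
        rw [Complex.I_sq]
        ring
      rw [this, Complex.add_re, Complex.ofReal_re, Complex.re_ofReal_mul, Complex.I_re]
      ring
    rw [h4]
    have h5 : ξ * (2 * (y - 1/2)) ≤ |ξ| * 1 := by
      calc ξ * (2 * (y - 1/2)) ≤ |ξ * (2 * (y - 1/2))| := le_abs_self _
        _ = |ξ| * |2 * (y - 1/2)| := abs_mul _ _
        _ ≤ |ξ| * 1 := by
          apply mul_le_mul_of_nonneg_left _ (abs_nonneg _)
          rw [abs_le]
          constructor <;> linarith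
    nlinarith
  · refine (Real.norm_exp_I_mul_ofReal_sub_one_le).trans ?_
    rw [Real.norm_eq_abs, abs_neg, abs_mul, abs_mul, abs_mul, abs_of_pos hp, abs_of_nonneg hε,
      abs_of_pos (by norm_num : (0:ℝ) < 2)]
    have h6 : |y - 1/2| ≤ 1/2 := by
      rw [abs_le]
      constructor <;> linarith
    have h7 : 0 ≤ 2 * Real.pi * ε := by positivity
    nlinarith


theorem Wc_eq (s : ℂ) (hs : s ≠ 0) (x : Circ) : Wc (Hs s) x = rho s (rep x) * Hs s x := by
  rw [← ratio s hs x]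
  unfold Wc Hs
  rw [four_neg_pt]

theorem sk_form (ξ : ℝ) (k : ℕ) :
    sk ξ k = -(1/2) + ((1 / ((k:ℝ) + 3) : ℝ) : ℂ) + (ξ:ℂ) * Complex.I := by
  unfold sk
  push_cast
  ring

theorem sk_re (ξ : ℝ) (k : ℕ) : (sk ξ k).re = -(1/2) + 1 / ((k:ℝ) + 3) := by
  have h : sk ξ k = ((-(1/2) + 1 / ((k:ℝ) + 3) : ℝ) : ℂ) + (ξ:ℂ) * Complex.I := by
    rw [sk_form]
    push_cast
    ring
  rw [h, Complex.add_re, Complex.ofReal_re, Complex.re_ofReal_mul, Complex.I_re, mul_zero, add_zero]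

theorem sk_bounds (ξ : ℝ) (k : ℕ) : -(1/2) < (sk ξ k).re ∧ (sk ξ k).re < 0 ∧ sk ξ k ≠ 0 := by
  have h1 : (0:ℝ) < 1 / ((k:ℝ) + 3) := by positivity
  have h2 : 1 / ((k:ℝ) + 3) ≤ 1 / 3 := by
    apply one_div_le_one_div_of_le (by norm_num)
    have : (0:ℝ) ≤ k := Nat.cast_nonneg k
    linarith
  have h3 := sk_re ξ k
  have h4 : (sk ξ k).re < 0 := by rw [h3]; linarith
  refine ⟨by rw [h3]; linarith, h4, fun h => ?_⟩
  rw [h] at h4
  simp at h4

theorem test1_ok : TaskTest1 := by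
  intro hHardy hGrow P hP x0 μ hμ0 hμ1
  have hpi := Real.pi_pos
  set r : ℝ := (1 - μ) / μ with hr
  have hr0 : 0 < r := div_pos (by linarith) hμ0
  set ξ : ℝ := -(Real.log r / (2 * Real.pi)) with hξ
  obtain ⟨hN, hC⟩ := hGrow ξ
  obtain ⟨K, hK⟩ := (tendsto_atTop.1 hN 1).exists_forall_of_atTop
  set sq : ℕ → ℂ := fun k => sk ξ (k + K) with hsq
  have hb : ∀ k, -(1/2) < (sq k).re ∧ (sq k).re < 0 ∧ sq k ≠ 0 := fun k => sk_bounds ξ (k + K)
  have hF : ∀ k, MemLp (Hs (sq k)) 2 hm := fun k => (hHardy (sq k) (hb k).1 (hb k).2.1).1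
  have hF0 : ∀ k, ∀ n : ℤ, n < 0 → fourierCoeff (T := (1:ℝ)) (Hs (sq k)) n = 0 :=
    fun k => (hHardy (sq k) (hb k).1 (hb k).2.1).2
  set f : ℕ → L2 := fun k => (memLp_tr (hF k) x0).toLp (tr (Hs (sq k)) x0) with hf
  set w : ℕ → L2 := fun k => (memLp_tr (memLp_W (hF k)) x0).toLp (tr (Wc (Hs (sq k))) x0) with hw
  have hI : ∀ k, ‖f k‖ ^ 2 = ∫ x : Circ, ‖Hs (sq k) x‖ ^ 2 ∂hm := fun k => normsq_tr (hF k) x0
  have hI1 : ∀ k, 1 ≤ ‖f k‖ ^ 2 := by
    intro k
    rw [hI k]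
    exact hK (k + K) (by omega)
  have hI2 : Tendsto (fun k => ‖f k‖ ^ 2) atTop atTop := by
    have h1 := hN.comp (tendsto_add_atTop_nat K)
    refine h1.congr fun k => ?_
    rw [hI k]
    rfl
  have hpos : ∀ k, 0 < ‖f k‖ := by
    intro k
    have h1 := hI1 k
    rcases (norm_nonneg (f k)).lt_or_eq with h | h
    · exact h
    · rw [← h] at h1
      norm_num at h1
  have hfa : ∀ k, (f k : Circ → ℂ) =ᵐ[hm] tr (Hs (sq k)) x0 := fun k => (memLp_tr (hF k) x0).coeFn_toLp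
  have hwa : ∀ k, (w k : Circ → ℂ) =ᵐ[hm] tr (Wc (Hs (sq k))) x0 :=
    fun k => (memLp_tr (memLp_W (hF k)) x0).coeFn_toLp
  have hPf : ∀ k, P (f k) = f k := by
    intro k
    apply P_fix P hP
    intro n hn
    rw [fourierCoeff_congr_ae (hfa k), coeff_tr, hF0 k n hn, mul_zero]
  have hPw : ∀ k, P (w k) = 0 := by
    intro k
    apply P_kill P hP
    intro n hn
    rw [fourierCoeff_congr_ae (hwa k), coeff_tr, coeff_W, hF0 k _ (by omega), mul_zero, mul_zero]
  set s0 : ℂ := -(1/2) + (ξ:ℂ) * Complex.I with hs0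
  refine ⟨fun k => ((‖f k‖ : ℂ)⁻¹) • f k, fun k => ((‖f k‖ : ℂ)⁻¹) • w k, GG s0 x0, ?_, ?_, ?_,
    GG_PC s0 x0, ?_, ?_, ?_, ?_⟩
  · intro k
    rw [norm_smul, norm_inv, Complex.norm_real, norm_norm, inv_mul_cancel₀ (hpos k).ne']
  · intro k
    simp only [map_smul, hPf k]
  · intro ε hε
    obtain ⟨C, hC⟩ := hC ε hε
    have hlim : Tendsto (fun k => C ^ 2 / ‖f k‖ ^ 2) atTop (𝓝 0) :=
      tendsto_const_nhds.div_atTop hI2
    refine squeeze_zero (fun k => integral_nonneg fun x => by positivity) (fun k => ?_) hlim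
    have h1 : ∀ᵐ x ∂hm, x ∈ {x : Circ | ε ≤ ‖x - (x0 : Circ)‖} →
        ‖‖(((‖f k‖ : ℂ)⁻¹) • f k : L2) x‖ ^ 2‖ ≤ C ^ 2 / ‖f k‖ ^ 2 := by
      filter_upwards [Lp.coeFn_smul ((‖f k‖ : ℂ)⁻¹) (f k), hfa k] with x hx1 hx2 hx
      rw [hx1, Pi.smul_apply, hx2, norm_smul, norm_inv, Complex.norm_real, norm_norm,
        Real.norm_of_nonneg (by positivity), mul_pow, inv_pow, div_eq_mul_inv, mul_comm]
      apply mul_le_mul_of_nonneg_right _ (by positivity)
      have h2 := hC (k + K) (x - (x0 : Circ)) hx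
      exact pow_le_pow_left₀ (norm_nonneg _) h2 2
    have h3 := norm_setIntegral_le_of_norm_le_const_ae' (μ := hm) (measure_lt_top hm _) h1
    refine (le_abs_self _).trans ?_
    rw [← Real.norm_eq_abs]
    refine h3.trans ?_
    have h4 : hm.real {x : Circ | ε ≤ ‖x - (x0 : Circ)‖} ≤ 1 := measureReal_le_one
    have h5 : 0 ≤ C ^ 2 / ‖f k‖ ^ 2 := by positivity
    nlinarith
  · have h1 := GG_right s0 x0 x0
    rw [sub_self, Int.fract_zero, hs0, rho_zero] at h1
    rw [sqrt_form hr0]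
    have h2 : Real.log r / 2 = -(Real.pi * ξ) := by
      rw [hξ]
      field_simp
    rw [h2]
    exact h1
  · have h1 := GG_left s0 x0 x0
    rw [sub_self, Int.ceil_zero, Int.cast_zero, sub_zero, zero_add, hs0, rho_one] at h1
    have hr2 : μ / (1 - μ) = r⁻¹ := by rw [hr, inv_div]
    rw [hr2, sqrt_form (inv_pos.2 hr0), Real.log_inv]
    have h2 : -Real.log r / 2 = Real.pi * ξ := by
      rw [hξ]
      field_simp
    rw [h2]
    exact h1
  · intro k
    simp only [map_smul, hPw k, smul_zero]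
  · intro M hM
    have hlim : Tendsto (fun k : ℕ => Real.exp (Real.pi * |ξ|) *
        (Real.pi * (1 / (((k + K : ℕ) : ℝ) + 3)))) atTop (𝓝 0) := by
      have h1 : Tendsto (fun k : ℕ => 1 / (((k + K : ℕ) : ℝ) + 3)) atTop (𝓝 0) := by
        apply tendsto_const_nhds.div_atTop
        apply tendsto_atTop_add_const_right
        exact (tendsto_natCast_atTop_atTop (R := ℝ)).comp (tendsto_add_atTop_nat K)
      have h2 := (h1.const_mul Real.pi).const_mul (Real.exp (Real.pi * |ξ|))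
      simpa using h2
    refine squeeze_zero (fun k => norm_nonneg _) (fun k => ?_) hlim
    set δ : ℝ := Real.exp (Real.pi * |ξ|) * (Real.pi * (1 / (((k + K : ℕ) : ℝ) + 3))) with hδ
    have h1 : ‖((‖f k‖ : ℂ)⁻¹) • w k - M (((‖f k‖ : ℂ)⁻¹) • f k)‖ ≤
        δ * ‖((‖f k‖ : ℂ)⁻¹) • f k‖ := by
      apply Lp.norm_le_mul_norm_of_ae_le_mul
      filter_upwards [Lp.coeFn_sub (((‖f k‖ : ℂ)⁻¹) • w k) (M (((‖f k‖ : ℂ)⁻¹) • f k)),
        Lp.coeFn_smul ((‖f k‖ : ℂ)⁻¹) (f k), Lp.coeFn_smul ((‖f k‖ : ℂ)⁻¹) (w k), hfa k, hwa k,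
        hM (((‖f k‖ : ℂ)⁻¹) • f k)] with x e1 e2 e3 e4 e5 e6
      rw [e1, Pi.sub_apply, e3, e6, e2, Pi.smul_apply, Pi.smul_apply, e4, e5]
      have e7 : tr (Wc (Hs (sq k))) x0 x =
          rho (sq k) (rep (x - (x0 : Circ))) * tr (Hs (sq k)) x0 x := by
        unfold tr
        exact Wc_eq (sq k) (hb k).2.2 _
      rw [e7]
      have e8 : ((‖f k‖ : ℂ)⁻¹) • (rho (sq k) (rep (x - (x0 : Circ))) * tr (Hs (sq k)) x0 x) -
          GG s0 x0 x * ((‖f k‖ : ℂ)⁻¹ • tr (Hs (sq k)) x0 x) =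
          (rho (sq k) (rep (x - (x0 : Circ))) - rho s0 (rep (x - (x0 : Circ)))) *
            (((‖f k‖ : ℂ)⁻¹) • tr (Hs (sq k)) x0 x) := by
        unfold GG
        rw [smul_eq_mul, smul_eq_mul]
        ring
      rw [e8, norm_mul]
      apply mul_le_mul_of_nonneg_right _ (norm_nonneg _)
      have e9 := rho_close ξ (1 / (((k + K : ℕ) : ℝ) + 3)) (rep (x - (x0 : Circ))) (by positivity)
        (rep_nonneg _) (rep_lt _).le
      rw [← sk_form ξ (k + K)] at e9
      exact e9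
    refine h1.trans ?_
    rw [norm_smul, norm_inv, Complex.norm_real, norm_norm, inv_mul_cancel₀ (hpos k).ne', mul_one]

end

end Pool.Agent.H199BE.Test1
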