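import Pool.Agent.H199BE.Assembly
import Pool.Agent.H199BE.Test1

set_option autoImplicit false
open MeasureTheory Filter Topology

namespace Pool.Agent.H199BE

noncomputable section

/-- indicator of the right half arc at `x0` -/
def RA (x0 : ℝ) : Circ → ℂ := fun x => if Test1.rep (x - (x0 : Circ)) < 1/2 then 1 else 0

theorem RA_coe (x0 t : ℝ) : RA x0 ((t : ℝ) : Circ) = if Int.fract (t - x0) < 1/2 then 1 else 0 := by
  unfold RA
  rw [← AddCircle.coe_sub, Test1.rep_coe]

theorem fract_ev_right (x0 x : ℝ) :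
    ∀ᶠ s in 𝓝[>] x, Int.fract (s - x0) = s - x0 - (⌊x - x0⌋ : ℝ) := by
  have h3 : ∀ᶠ s in 𝓝[>] x, s < (⌊x - x0⌋ : ℝ) + 1 + x0 := by
    apply Filter.Eventually.filter_mono nhdsWithin_le_nhds
    apply Iio_mem_nhds
    have := Int.lt_floor_add_one (x - x0)
    linarith
  filter_upwards [h3, self_mem_nhdsWithin] with s hs hs2
  have hs2' : x < s := hs2
  have h4 : ⌊s - x0⌋ = ⌊x - x0⌋ := by
    rw [Int.floor_eq_iff]
    have := Int.floor_le (x - x0)
    constructor <;> linarith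
  change s - x0 - (⌊s - x0⌋ : ℝ) = _
  rw [h4]

theorem fract_ev_left (x0 x : ℝ) :
    ∀ᶠ s in 𝓝[<] x, Int.fract (s - x0) = s - x0 - (⌈x - x0⌉ : ℝ) + 1 := by
  have h3 : ∀ᶠ s in 𝓝[<] x, (⌈x - x0⌉ : ℝ) - 1 + x0 < s := by
    apply Filter.Eventually.filter_mono nhdsWithin_le_nhds
    apply Ioi_mem_nhds
    have := Int.ceil_lt_add_one (x - x0)
    linarith
  filter_upwards [h3, self_mem_nhdsWithin] with s hs hs2
  have hs2' : s < x := hs2
  have h4 : ⌊s - x0⌋ = ⌈x - x0⌉ - 1 := by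
    rw [Int.floor_eq_iff]
    have := Int.le_ceil (x - x0)
    push_cast
    constructor <;> linarith
  change s - x0 - (⌊s - x0⌋ : ℝ) = _
  rw [h4]
  push_cast
  ring

theorem RA_right (x0 x : ℝ) :
    RLim (RA x0) x (if x - x0 - (⌊x - x0⌋ : ℝ) < 1/2 then 1 else 0) := by
  unfold RLim
  simp_rw [RA_coe]
  apply Tendsto.congr' _ tendsto_const_nhds
  by_cases h : x - x0 - (⌊x - x0⌋ : ℝ) < 1/2
  · have h3 : ∀ᶠ s in 𝓝[>] x, s < 1/2 + x0 + (⌊x - x0⌋ : ℝ) := by
      apply Filter.Eventually.filter_mono nhdsWithin_le_nhds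
      apply Iio_mem_nhds
      linarith
    filter_upwards [h3, fract_ev_right x0 x] with s hs h4
    rw [h4, if_pos h, if_pos (by linarith)]
  · filter_upwards [fract_ev_right x0 x, self_mem_nhdsWithin] with s h4 hs2
    have hs2' : x < s := hs2
    rw [h4, if_neg h, if_neg (by linarith)]

theorem RA_left (x0 x : ℝ) :
    LLim (RA x0) x (if x - x0 - (⌈x - x0⌉ : ℝ) + 1 ≤ 1/2 then 1 else 0) := by
  unfold LLim
  simp_rw [RA_coe]
  apply Tendsto.congr' _ tendsto_const_nhds
  by_cases h : x - x0 - (⌈x - x0⌉ : ℝ) + 1 ≤ 1/2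
  · filter_upwards [fract_ev_left x0 x, self_mem_nhdsWithin] with s h4 hs2
    have hs2' : s < x := hs2
    rw [h4, if_pos h, if_pos (by linarith)]
  · have h3 : ∀ᶠ s in 𝓝[<] x, 1/2 + x0 + (⌈x - x0⌉ : ℝ) - 1 < s := by
      apply Filter.Eventually.filter_mono nhdsWithin_le_nhds
      apply Ioi_mem_nhds
      rw [not_le] at h
      linarith
    filter_upwards [h3, fract_ev_left x0 x] with s hs h4
    rw [h4, if_neg h, if_neg (by linarith)]

theorem RA_PC (x0 : ℝ) : PC (RA x0) := fun x => ⟨⟨_, RA_left x0 x⟩, ⟨_, RA_right x0 x⟩⟩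

theorem RA_right0 (x0 : ℝ) : RLim (RA x0) x0 1 := by
  have := RA_right x0 x0
  simpa using this

theorem RA_left0 (x0 : ℝ) : LLim (RA x0) x0 0 := by
  have := RA_left x0 x0
  rw [if_neg (by simp; norm_num)] at this
  exact this

theorem isMul_const (c : ℂ) : IsMul (fun _ => c) (c • (1 : L2 →L[ℂ] L2)) := by
  intro f
  have h1 : ((c • (1 : L2 →L[ℂ] L2)) f : L2) = c • f := rfl
  rw [h1]
  filter_upwards [Lp.coeFn_smul c f] with x hx
  rw [hx, Pi.smul_apply, smul_eq_mul]

theorem PC_const (c : ℂ) : PC (fun _ => c) :=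
  fun _ => ⟨⟨c, tendsto_const_nhds⟩, ⟨c, tendsto_const_nhds⟩⟩

theorem test2_ok (hTest1 : TaskTest1) (hHardy : TaskHardy) (hGrow : TaskGrow)
    (hCM : TaskConcMul) (hCC : TaskConcCompact) (hPCmul : TaskPCmul) : TaskTest2 := by
  intro P hP x0 μ h0 h1
  obtain ⟨h, g, G, hn, hPh, hconc, hG, hGr, hGl, hPg, hlim⟩ := hTest1 hHardy hGrow P hP x0 μ h0 h1
  obtain ⟨MG, hMG⟩ := hPCmul G hG
  obtain ⟨MR, hMR⟩ := hPCmul (RA x0) (RA_PC x0)
  have hb : ∀ k, ‖h k‖ ≤ 1 := fun k => (hn k).le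
  set a : ℝ := Real.sqrt μ with ha
  set b : ℝ := Real.sqrt (1 - μ) with hbdef
  have ha0 : 0 < a := Real.sqrt_pos.2 h0
  have hb0 : 0 < b := Real.sqrt_pos.2 (by linarith)
  have ha2 : a ^ 2 = μ := Real.sq_sqrt h0.le
  have hb2 : b ^ 2 = 1 - μ := Real.sq_sqrt (by linarith)
  have hκ : Real.sqrt (μ * (1 - μ)) = a * b := Real.sqrt_mul h0.le _
  have e1 : Real.sqrt ((1 - μ) / μ) = b / a := Real.sqrt_div (by linarith) _
  have e2 : Real.sqrt (μ / (1 - μ)) = a / b := Real.sqrt_div h0.le _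
  have haC : (a : ℂ) ≠ 0 := by exact_mod_cast ha0.ne'
  have hbC : (b : ℂ) ≠ 0 := by exact_mod_cast hb0.ne'
  have ha2C : (a : ℂ) ^ 2 = (μ : ℂ) := by exact_mod_cast ha2
  have hb2C : (b : ℂ) ^ 2 = 1 - (μ : ℂ) := by exact_mod_cast hb2
  have habC : (a : ℂ) ^ 2 + (b : ℂ) ^ 2 = 1 := by rw [ha2C, hb2C]; ring
  -- MR is a self-adjoint idempotent
  have hRR : ∀ x, RA x0 x * RA x0 x = RA x0 x := by
    intro x; unfold RA; split_ifs <;> simp
  have hRc : ∀ x, (starRingEnd ℂ) (RA x0 x) = RA x0 x := by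
    intro x; unfold RA; split_ifs <;> simp
  have hMRR : MR.comp MR = MR := IsMul.ext (hMR.comp hMR) hMR hRR
  have hMRs : ContinuousLinearMap.adjoint MR = MR := IsMul.ext hMR.adjoint hMR hRc
  have hMRi : ∀ f, MR (MR f) = MR f := by
    intro f
    have := congrArg (fun L : L2 →L[ℂ] L2 => L f) hMRR
    simpa using this
  have hMRa : ∀ f f', inner ℂ (MR f) f' = inner ℂ f (MR f') := by
    intro f f'
    have := ContinuousLinearMap.adjoint_inner_left MR f' f
    rwa [hMRs] at this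
  obtain ⟨u, hu⟩ : ∃ u : ℕ → L2, ∀ k, u k = (a : ℂ)⁻¹ • MR (h k) := ⟨_, fun _ => rfl⟩
  obtain ⟨v, hv⟩ : ∃ v : ℕ → L2, ∀ k, v k = (b : ℂ)⁻¹ • (h k - MR (h k)) := ⟨_, fun _ => rfl⟩
  have huv : ∀ k, inner ℂ (u k) (v k) = 0 := by
    intro k
    simp only [hu, hv]
    rw [inner_smul_left, inner_smul_right, inner_sub_right, hMRa, hMRa, hMRi, sub_self, mul_zero,
      mul_zero]
  have hhk : ∀ k, (a : ℂ) • u k + (b : ℂ) • v k = h k := by
    intro k
    simp only [hu, hv]
    rw [smul_smul, smul_smul, mul_inv_cancel₀ haC, mul_inv_cancel₀ hbC, one_smul, one_smul]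
    abel
  -- the error
  obtain ⟨err, herr⟩ : ∃ err : ℕ → L2, ∀ k, err k = (b : ℂ) • u k - (a : ℂ) • v k - g k :=
    ⟨_, fun _ => rfl⟩
  have herr0 : Tendsto (fun k => ‖err k‖) atTop (𝓝 0) := by
    have hF : IsMul (fun x => ((b / a : ℝ) : ℂ) * RA x0 x - ((a / b : ℝ) : ℂ) * (1 - RA x0 x) - G x)
        ((((b / a : ℝ) : ℂ) • (1 : L2 →L[ℂ] L2)).comp MR
          - (((a / b : ℝ) : ℂ) • (1 : L2 →L[ℂ] L2)).comp (1 - MR) - MG) :=
      (((isMul_const _).comp hMR).sub ((isMul_const _).comp (isMul_one.sub hMR))).sub hMG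
    have hFPC : PC (fun x => ((b / a : ℝ) : ℂ) * RA x0 x - ((a / b : ℝ) : ℂ) * (1 - RA x0 x) - G x) :=
      (((PC_const _).mul (RA_PC x0)).sub ((PC_const _).mul ((PC_const 1).sub (RA_PC x0)))).sub hG
    have hr : RLim (fun x => ((b / a : ℝ) : ℂ) * RA x0 x - ((a / b : ℝ) : ℂ) * (1 - RA x0 x) - G x)
        x0 0 := by
      have := ((tendsto_const_nhds (x := ((b / a : ℝ) : ℂ))).mul (RA_right0 x0)).sub
        ((tendsto_const_nhds (x := ((a / b : ℝ) : ℂ))).mul
          ((tendsto_const_nhds (x := (1 : ℂ))).sub (RA_right0 x0)))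
      have := this.sub hGr
      rw [e1] at this
      unfold RLim
      simpa using this
    have hl : LLim (fun x => ((b / a : ℝ) : ℂ) * RA x0 x - ((a / b : ℝ) : ℂ) * (1 - RA x0 x) - G x)
        x0 0 := by
      have := ((tendsto_const_nhds (x := ((b / a : ℝ) : ℂ))).mul (RA_left0 x0)).sub
        ((tendsto_const_nhds (x := ((a / b : ℝ) : ℂ))).mul
          ((tendsto_const_nhds (x := (1 : ℂ))).sub (RA_left0 x0)))
      have := this.sub hGl
      rw [e2] at this
      unfold LLim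
      simpa using this
    have h3 := hCM h x0 hb hconc _ _ hFPC hF hr hl
    have h4 := hlim MG hMG
    have h5 := h3.add h4
    rw [add_zero] at h5
    refine squeeze_zero (fun k => norm_nonneg _) (fun k => ?_) h5
    have h6 : err k = (((((b / a : ℝ) : ℂ) • (1 : L2 →L[ℂ] L2)).comp MR
          - (((a / b : ℝ) : ℂ) • (1 : L2 →L[ℂ] L2)).comp (1 - MR) - MG : L2 →L[ℂ] L2) (h k))
          - (g k - MG (h k)) := by
      have h7 : (((((b / a : ℝ) : ℂ) • (1 : L2 →L[ℂ] L2)).comp MR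
          - (((a / b : ℝ) : ℂ) • (1 : L2 →L[ℂ] L2)).comp (1 - MR) - MG : L2 →L[ℂ] L2) (h k))
          = ((b / a : ℝ) : ℂ) • MR (h k) - ((a / b : ℝ) : ℂ) • (h k - MR (h k)) - MG (h k) := rfl
      rw [h7]
      simp only [herr, hu, hv]
      rw [smul_smul, smul_smul]
      push_cast
      rw [div_eq_mul_inv, div_eq_mul_inv]
      abel
    rw [h6]
    exact norm_sub_le _ _
  have hPn : ∀ f : L2, ‖P f‖ ≤ ‖P‖ * ‖f‖ := fun f => P.le_opNorm f
  have hPerr : Tendsto (fun k => ‖P (err k)‖) atTop (𝓝 0) := by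
    have := herr0.const_mul ‖P‖
    rw [mul_zero] at this
    exact squeeze_zero (fun k => norm_nonneg _) (fun k => hPn _) this
  -- the structure of u, v
  have hu1 : ∀ k, u k = (a : ℂ) • h k + (b : ℂ) • (g k + err k) := by
    intro k
    have : g k + err k = (b : ℂ) • u k - (a : ℂ) • v k := by simp only [herr]; abel
    rw [this, ← hhk k]
    have : (a : ℂ) • ((a : ℂ) • u k + (b : ℂ) • v k) + (b : ℂ) • ((b : ℂ) • u k - (a : ℂ) • v k)
        = ((a : ℂ) ^ 2 + (b : ℂ) ^ 2) • u k := by module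
    rw [this, habC, one_smul]
  have hv1 : ∀ k, v k = (b : ℂ) • h k - (a : ℂ) • (g k + err k) := by
    intro k
    have : g k + err k = (b : ℂ) • u k - (a : ℂ) • v k := by simp only [herr]; abel
    rw [this, ← hhk k]
    have : (b : ℂ) • ((a : ℂ) • u k + (b : ℂ) • v k) - (a : ℂ) • ((b : ℂ) • u k - (a : ℂ) • v k)
        = ((a : ℂ) ^ 2 + (b : ℂ) ^ 2) • v k := by module
    rw [this, habC, one_smul]
  have hPu : ∀ k, P (u k) - ((μ : ℂ) • u k + (Real.sqrt (μ * (1 - μ)) : ℂ) • v k)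
      = (b : ℂ) • P (err k) := by
    intro k
    have h3 : (μ : ℂ) • u k + (Real.sqrt (μ * (1 - μ)) : ℂ) • v k = (a : ℂ) • h k := by
      rw [hκ, ← hhk k, ← ha2C]; push_cast; module
    rw [h3, hu1 k, map_add, map_smul, map_smul, map_add, hPg, hPh]
    module
  have hPv : ∀ k, P (v k) - ((Real.sqrt (μ * (1 - μ)) : ℂ) • u k + ((1 - μ : ℝ):ℂ) • v k)
      = -((a : ℂ) • P (err k)) := by
    intro k
    have h3 : (Real.sqrt (μ * (1 - μ)) : ℂ) • u k + ((1 - μ : ℝ):ℂ) • v k = (b : ℂ) • h k := by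
      rw [hκ, ← hhk k, ← hb2]; push_cast; module
    rw [h3, hv1 k, map_sub, map_smul, map_smul, map_add, hPg, hPh]
    module
  -- norms
  have hhg : ∀ k, inner ℂ (h k) (g k) = 0 := by
    intro k
    have hPs := hP.isSelfAdjoint
    rw [ContinuousLinearMap.isSelfAdjoint_iff'] at hPs
    have h3 := ContinuousLinearMap.adjoint_inner_left P (g k) (h k)
    rw [hPs, hPh, hPg, inner_zero_right] at h3
    exact h3
  have N1 : ∀ k, a ^ 2 * ‖u k‖ ^ 2 + b ^ 2 * ‖v k‖ ^ 2 = 1 := by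
    intro k
    have h3 : ‖h k‖ ^ 2 = ‖(a : ℂ) • u k‖ ^ 2 + ‖(b : ℂ) • v k‖ ^ 2 := by
      rw [← hhk k]
      have := norm_add_sq_eq_norm_sq_add_norm_sq_of_inner_eq_zero ((a : ℂ) • u k) ((b : ℂ) • v k)
        (by rw [inner_smul_left, inner_smul_right, huv k, mul_zero, mul_zero])
      simpa only [sq] using this
    rw [hn k, norm_smul, norm_smul, Complex.norm_real, Complex.norm_real, Real.norm_of_nonneg ha0.le,
      Real.norm_of_nonneg hb0.le, mul_pow, mul_pow] at h3
    linarith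
  have N2 : ∀ k, a * b * (‖u k‖ ^ 2 - ‖v k‖ ^ 2) = (inner ℂ (h k) (err k)).re := by
    intro k
    have h3 : inner ℂ (h k) (err k) = inner ℂ (h k) ((b : ℂ) • u k - (a : ℂ) • v k) := by
      have : (b : ℂ) • u k - (a : ℂ) • v k = g k + err k := by simp only [herr]; abel
      rw [this, inner_add_right, hhg, zero_add]
    have hvu : inner ℂ (v k) (u k) = 0 := by rw [← inner_conj_symm, huv k, map_zero]
    rw [h3, ← hhk k, inner_add_left, inner_sub_right, inner_sub_right, inner_smul_left,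
      inner_smul_left, inner_smul_left, inner_smul_left, inner_smul_right, inner_smul_right,
      inner_smul_right, inner_smul_right, huv k, hvu, inner_self_eq_norm_sq_to_K,
      inner_self_eq_norm_sq_to_K, Complex.conj_ofReal, Complex.conj_ofReal]
    simp only [mul_zero, sub_zero, zero_sub, Complex.coe_algebraMap]
    rw [show (a:ℂ) * ((b:ℂ) * ((‖u k‖:ℂ)) ^ 2) + -((b:ℂ) * ((a:ℂ) * ((‖v k‖:ℂ)) ^ 2))
      = ((a * b * (‖u k‖ ^ 2 - ‖v k‖ ^ 2) : ℝ) : ℂ) by push_cast; ring, Complex.ofReal_re]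
  have hinner : Tendsto (fun k => (inner ℂ (h k) (err k)).re) atTop (𝓝 0) := by
    refine squeeze_zero_norm (fun k => ?_) herr0
    rw [Real.norm_eq_abs]
    refine (Complex.abs_re_le_norm _).trans ((norm_inner_le_norm _ _).trans ?_)
    rw [hn k, one_mul]
  have hdiff : Tendsto (fun k => ‖u k‖ ^ 2 - ‖v k‖ ^ 2) atTop (𝓝 0) := by
    have h3 : (fun k => ‖u k‖ ^ 2 - ‖v k‖ ^ 2) = fun k => (inner ℂ (h k) (err k)).re / (a * b) := by
      funext k
      rw [← N2 k]
      field_simp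
    rw [h3]
    have := hinner.div_const (a * b)
    rwa [zero_div] at this
  have hu2 : Tendsto (fun k => ‖u k‖ ^ 2) atTop (𝓝 1) := by
    have h3 : (fun k => ‖u k‖ ^ 2) = fun k => 1 + b ^ 2 * (‖u k‖ ^ 2 - ‖v k‖ ^ 2) := by
      funext k
      have := N1 k
      have h4 : a ^ 2 = 1 - b ^ 2 := by rw [ha2, hb2]; ring
      rw [h4] at this
      linarith
    rw [h3]
    have := (hdiff.const_mul (b ^ 2)).const_add 1
    simpa using this
  have hv2 : Tendsto (fun k => ‖v k‖ ^ 2) atTop (𝓝 1) := by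
    have := hu2.sub hdiff
    simpa using this
  have hu3 : Tendsto (fun k => ‖u k‖) atTop (𝓝 1) := by
    have := hu2.sqrt
    simpa [Real.sqrt_sq (norm_nonneg _)] using this
  have hv3 : Tendsto (fun k => ‖v k‖) atTop (𝓝 1) := by
    have := hv2.sqrt
    simpa [Real.sqrt_sq (norm_nonneg _)] using this
  refine ⟨u, v, hu3, hv3, huv, ?_, ?_, ?_, ?_⟩
  · have := hPerr.const_mul b
    rw [mul_zero] at this
    refine this.congr (fun k => ?_)
    rw [hPu k, norm_smul, Complex.norm_real, Real.norm_of_nonneg hb0.le]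
  · have := hPerr.const_mul a
    rw [mul_zero] at this
    refine this.congr (fun k => ?_)
    rw [hPv k, norm_neg, norm_smul, Complex.norm_real, Real.norm_of_nonneg ha0.le]
  · intro K hK
    have k1 := hCC h x0 hb hconc (K.comp MR) (hK.comp_clm MR)
    have k2 := hCC h x0 hb hconc (K.comp (1 - MR)) (hK.comp_clm (1 - MR))
    refine ⟨?_, ?_⟩
    · have := k1.const_mul ‖(a : ℂ)⁻¹‖
      rw [mul_zero] at this
      refine this.congr (fun k => ?_)
      rw [← norm_smul]
      simp only [hu, map_smul, ContinuousLinearMap.comp_apply]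
    · have := k2.const_mul ‖(b : ℂ)⁻¹‖
      rw [mul_zero] at this
      refine this.congr (fun k => ?_)
      rw [← norm_smul]
      simp only [hv, map_smul, ContinuousLinearMap.comp_apply, sub_apply, one_apply_eq_self]
  · intro g' M gp gm hg' hM hgp hgm
    have m1 := hCM h x0 hb hconc (fun x => (g' x - gp) * RA x0 x)
      ((M - gp • (1 : L2 →L[ℂ] L2)).comp MR)
      ((hg'.sub (PC_const gp)).mul (RA_PC x0)) ((hM.sub (isMul_const gp)).comp hMR)
      (by
        have := (Tendsto.sub hgp (tendsto_const_nhds (x := gp))).mul (RA_right0 x0)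
        unfold RLim
        simpa using this)
      (by
        have := (Tendsto.sub hgm (tendsto_const_nhds (x := gp))).mul (RA_left0 x0)
        unfold LLim
        simpa using this)
    have m2 := hCM h x0 hb hconc (fun x => (g' x - gm) * (1 - RA x0 x))
      ((M - gm • (1 : L2 →L[ℂ] L2)).comp (1 - MR))
      ((hg'.sub (PC_const gm)).mul ((PC_const 1).sub (RA_PC x0)))
      ((hM.sub (isMul_const gm)).comp (isMul_one.sub hMR))
      (by
        have := (Tendsto.sub hgp (tendsto_const_nhds (x := gm))).mul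
          ((tendsto_const_nhds (x := (1:ℂ))).sub (RA_right0 x0))
        unfold RLim
        simpa using this)
      (by
        have := (Tendsto.sub hgm (tendsto_const_nhds (x := gm))).mul
          ((tendsto_const_nhds (x := (1:ℂ))).sub (RA_left0 x0))
        unfold LLim
        simpa using this)
    refine ⟨?_, ?_⟩
    · have := m1.const_mul ‖(a : ℂ)⁻¹‖
      rw [mul_zero] at this
      refine this.congr (fun k => ?_)
      rw [← norm_smul]
      congr 1
      have h7 : ((M - gp • (1 : L2 →L[ℂ] L2)).comp MR) (h k) = M (MR (h k)) - gp • MR (h k) := rfl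
      rw [h7]
      simp only [hu, map_smul]
      module
    · have := m2.const_mul ‖(b : ℂ)⁻¹‖
      rw [mul_zero] at this
      refine this.congr (fun k => ?_)
      rw [← norm_smul]
      congr 1
      have h7 : ((M - gm • (1 : L2 →L[ℂ] L2)).comp (1 - MR)) (h k)
          = M (h k - MR (h k)) - gm • (h k - MR (h k)) := rfl
      rw [h7]
      simp only [hv, map_smul]
      module

end

end Pool.Agent.H199BE
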