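import Pool.Agent.H199BE.Stmts

set_option autoImplicit false

/-!
Project BE, task H: global choice of the multiplier.
-/

open MeasureTheory Filter Topology Set

namespace Pool.Agent.H199BE
namespace Th

theorem sqrt_lower {a b g : ℝ} (hg : 0 < g) (ha : g ≤ a) (hab : a - g / 2 ≤ b) :
    a - g / 2 ≤ Real.sqrt (a * b) := by
  apply Real.le_sqrt_of_sq_le
  nlinarith

theorem good_of_close {p1 q1 p2 q2 : ℂ} {g : ℝ} (hg : 0 < g) (hp1 : g ≤ p1.re) (hq1 : g ≤ q1.re)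
    (hp2 : g ≤ p2.re) (hq2 : g ≤ q2.re) (hp : ‖p1 - p2‖ ≤ g / 2) (hq : ‖q1 - q2‖ ≤ g / 2) :
    Good p1 q1 p2 q2 := by
  refine ⟨by linarith, by linarith, by linarith, by linarith, ?_⟩
  have e1 : (p1 - q1) + (starRingEnd ℂ) (p2 - q2) =
      ((2 * (p1.re - q1.re) : ℝ) : ℂ) + (starRingEnd ℂ) (-(p1 - p2) + (q1 - q2)) := by
    apply Complex.ext
    · simp; ring
    · simp; ring
  have h1 : ‖(p1 - q1) + (starRingEnd ℂ) (p2 - q2)‖ ≤ 2 * |p1.re - q1.re| + g := by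
    rw [e1]
    refine (norm_add_le _ _).trans ?_
    rw [Complex.norm_real, RCLike.norm_conj, Real.norm_eq_abs, abs_mul, abs_two]
    have h2 : ‖-(p1 - p2) + (q1 - q2)‖ ≤ ‖p1 - p2‖ + ‖q1 - q2‖ := by
      refine (norm_add_le _ _).trans ?_
      rw [norm_neg]
    linarith
  have hpr : p1.re - p2.re ≤ g / 2 := by
    have := (Complex.abs_re_le_norm (p1 - p2)).trans hp
    rw [Complex.sub_re] at this
    exact (le_abs_self _).trans this
  have hqr : q1.re - q2.re ≤ g / 2 := by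
    have := (Complex.abs_re_le_norm (q1 - q2)).trans hq
    rw [Complex.sub_re] at this
    exact (le_abs_self _).trans this
  have h3 := sqrt_lower hg hq1 (b := q2.re) (by linarith)
  have h4 := sqrt_lower hg hp1 (b := p2.re) (by linarith)
  have h5 : |p1.re - q1.re| ≤ p1.re + q1.re - 2 * g := by
    rw [abs_le]
    constructor <;> linarith
  linarith

/-- `θ` is a valid common multiplier for the limits `cr, cl, dr, dl`. -/
def Vd (cr cl dr dl θ : ℂ) : Prop :=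
  ∃ g : ℝ, 0 < g ∧ g ≤ (θ * cr).re ∧ g ≤ (θ * cl).re ∧ g ≤ (θ * dr).re ∧ g ≤ (θ * dl).re ∧
    ‖θ * cr - θ * cl‖ ≤ g / 2 ∧ ‖θ * dr - θ * dl‖ ≤ g / 2

theorem Vd.ne {cr cl dr dl θ : ℂ} (h : Vd cr cl dr dl θ) : θ ≠ 0 := by
  rintro rfl
  obtain ⟨g, hg, h1, -⟩ := h
  rw [zero_mul, Complex.zero_re] at h1
  linarith

theorem Vd.good {cr cl dr dl θ : ℂ} (h : Vd cr cl dr dl θ) :
    Good (θ * cr) (θ * dr) (θ * cl) (θ * dl) := by
  obtain ⟨g, hg, h1, h2, h3, h4, h5, h6⟩ := h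
  exact good_of_close hg h1 h3 h2 h4 h5 h6

theorem Vd.comb {cr cl dr dl θ₁ θ₂ : ℂ} (h₁ : Vd cr cl dr dl θ₁) (h₂ : Vd cr cl dr dl θ₂) {w : ℝ}
    (hw0 : 0 ≤ w) (hw1 : w ≤ 1) : Vd cr cl dr dl (((1 - w : ℝ) : ℂ) * θ₁ + (w : ℂ) * θ₂) := by
  obtain ⟨g, hg, a1, a2, a3, a4, a5, a6⟩ := h₁
  obtain ⟨k, hk, b1, b2, b3, b4, b5, b6⟩ := h₂
  have hre : ∀ z : ℂ, ((((1 - w : ℝ) : ℂ) * θ₁ + (w : ℂ) * θ₂) * z).re =
      (1 - w) * (θ₁ * z).re + w * (θ₂ * z).re := by
    intro z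
    have : (((1 - w : ℝ) : ℂ) * θ₁ + (w : ℂ) * θ₂) * z =
      ((1 - w : ℝ) : ℂ) * (θ₁ * z) + (w : ℂ) * (θ₂ * z) := by ring
    rw [this, Complex.add_re, Complex.re_ofReal_mul, Complex.re_ofReal_mul]
  have hnm : ∀ z z' : ℂ, ‖(((1 - w : ℝ) : ℂ) * θ₁ + (w : ℂ) * θ₂) * z -
      (((1 - w : ℝ) : ℂ) * θ₁ + (w : ℂ) * θ₂) * z'‖ ≤
      (1 - w) * ‖θ₁ * z - θ₁ * z'‖ + w * ‖θ₂ * z - θ₂ * z'‖ := by
    intro z z'
    have : (((1 - w : ℝ) : ℂ) * θ₁ + (w : ℂ) * θ₂) * z -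
      (((1 - w : ℝ) : ℂ) * θ₁ + (w : ℂ) * θ₂) * z' =
      ((1 - w : ℝ) : ℂ) * (θ₁ * z - θ₁ * z') + (w : ℂ) * (θ₂ * z - θ₂ * z') := by ring
    rw [this]
    refine (norm_add_le _ _).trans ?_
    rw [norm_mul, norm_mul, Complex.norm_real, Complex.norm_real, Real.norm_of_nonneg hw0,
      Real.norm_of_nonneg (by linarith : (0:ℝ) ≤ 1 - w)]
  have hw2 : 0 ≤ 1 - w := by linarith
  refine ⟨(1 - w) * g + w * k, ?_, ?_, ?_, ?_, ?_, ?_, ?_⟩
  · rcases hw0.eq_or_lt with h | h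
    · rw [← h]; linarith
    · have : 0 < w * k := by positivity
      have : 0 ≤ (1 - w) * g := by positivity
      linarith
  · rw [hre]; nlinarith
  · rw [hre]; nlinarith
  · rw [hre]; nlinarith
  · rw [hre]; nlinarith
  · refine (hnm _ _).trans ?_
    nlinarith
  · refine (hnm _ _).trans ?_
    nlinarith

/-- connection from `a` to `b` -/
def RR (cr cl dr dl θp θm : ℝ → ℂ) (a b : ℝ) : Prop :=
  ∃ Θ : ℝ → ℂ, (∀ s ∈ Ioo a b, Θ s ≠ 0) ∧
    (∀ s ∈ Ioo a b, ∃ r l, Tendsto Θ (𝓝[>] s) (𝓝 r) ∧ Tendsto Θ (𝓝[<] s) (𝓝 l) ∧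
      Good (r * cr s) (r * dr s) (l * cl s) (l * dl s)) ∧
    Tendsto Θ (𝓝[>] a) (𝓝 (θp a)) ∧ Tendsto Θ (𝓝[<] b) (𝓝 (θm b))

theorem chain (R : ℝ → ℝ → Prop) (htr : ∀ a b c, a < b → b < c → R a b → R b c → R a c)
    (e : ℝ → ℝ) (he : ∀ x, 0 < e x) (hr : ∀ x y, x < y → y < x + e x → R x y)
    (hl : ∀ x y, x - e x < y → y < x → R y x) : ∀ a b, a < b → R a b := by
  intro a b hab
  set S : Set ℝ := {y | a < y ∧ y ≤ b ∧ R a y} with hS
  have hne : S.Nonempty := by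
    refine ⟨a + min (e a / 2) (b - a), ?_, ?_, ?_⟩
    · have : 0 < min (e a / 2) (b - a) := lt_min (half_pos (he a)) (by linarith)
      linarith
    · have := min_le_right (e a / 2) (b - a)
      linarith
    · have h0 : 0 < min (e a / 2) (b - a) := lt_min (half_pos (he a)) (by linarith)
      have h1 := min_le_left (e a / 2) (b - a)
      have := he a
      exact hr a _ (by linarith) (by linarith)
  have hbdd : BddAbove S := ⟨b, fun y hy => hy.2.1⟩
  set x := sSup S with hx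
  have hxb : x ≤ b := csSup_le hne fun y hy => hy.2.1
  obtain ⟨y, hyS, hy⟩ := exists_lt_of_lt_csSup hne (show x - e x < sSup S by
    have := he x
    linarith)
  have hyx : y ≤ x := le_csSup hbdd hyS
  have hax : a < x := lt_of_lt_of_le hyS.1 hyx
  have hRx : R a x := by
    rcases hyx.eq_or_lt with h | h
    · rw [← h]; exact hyS.2.2
    · exact htr a y x hyS.1 h hyS.2.2 (hl x y hy h)
  rcases hxb.eq_or_lt with h | h
  · rw [← h]; exact hRx
  · exfalso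
    have h0 : 0 < min (e x / 2) (b - x) := lt_min (half_pos (he x)) (by linarith)
    have h1 := min_le_left (e x / 2) (b - x)
    have h2 := min_le_right (e x / 2) (b - x)
    have h3 := he x
    have hmem : x + min (e x / 2) (b - x) ∈ S := by
      refine ⟨by linarith, by linarith, ?_⟩
      exact htr a x _ hax (by linarith) hRx (hr x _ (by linarith) (by linarith))
    have := le_csSup hbdd hmem
    linarith

theorem RR.trans {cr cl dr dl θp θm : ℝ → ℂ}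
    (hG : ∀ x, Good (θp x * cr x) (θp x * dr x) (θm x * cl x) (θm x * dl x)) {a b c : ℝ}
    (hab : a < b) (hbc : b < c) (h1 : RR cr cl dr dl θp θm a b) (h2 : RR cr cl dr dl θp θm b c) :
    RR cr cl dr dl θp θm a c := by
  obtain ⟨Θ₁, n1, g1, a1, b1⟩ := h1
  obtain ⟨Θ₂, n2, g2, a2, b2⟩ := h2
  have hlt : ∀ s, s < b → (fun s => if s < b then Θ₁ s else if s = b then 1 else Θ₂ s) =ᶠ[𝓝 s]
      Θ₁ := by
    intro s hs
    filter_upwards [Iio_mem_nhds hs] with t ht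
    rw [if_pos (mem_Iio.mp ht)]
  have hgt : ∀ s, b < s → (fun s => if s < b then Θ₁ s else if s = b then 1 else Θ₂ s) =ᶠ[𝓝 s]
      Θ₂ := by
    intro s hs
    filter_upwards [Ioi_mem_nhds hs] with t ht
    rw [if_neg (not_lt.mpr (le_of_lt ht)), if_neg (ne_of_gt ht)]
  have hbl : (fun s => if s < b then Θ₁ s else if s = b then 1 else Θ₂ s) =ᶠ[𝓝[<] b] Θ₁ := by
    filter_upwards [self_mem_nhdsWithin] with t ht
    rw [if_pos (mem_Iio.mp ht)]
  have hbr : (fun s => if s < b then Θ₁ s else if s = b then 1 else Θ₂ s) =ᶠ[𝓝[>] b] Θ₂ := by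
    filter_upwards [self_mem_nhdsWithin] with t ht
    rw [if_neg (not_lt.mpr (le_of_lt ht)), if_neg (ne_of_gt ht)]
  refine ⟨fun s => if s < b then Θ₁ s else if s = b then 1 else Θ₂ s, ?_, ?_, ?_, ?_⟩
  · intro s hs
    rcases lt_trichotomy s b with h | h | h
    · simp only [if_pos h]
      exact n1 s ⟨hs.1, h⟩
    · simp only [h, lt_irrefl, if_false, if_true]
      exact one_ne_zero
    · simp only [if_neg (not_lt.mpr h.le), if_neg h.ne']
      exact n2 s ⟨h, hs.2⟩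
  · intro s hs
    rcases lt_trichotomy s b with h | h | h
    · obtain ⟨r, l, e1, e2, e3⟩ := g1 s ⟨hs.1, h⟩
      exact ⟨r, l, e1.congr' ((hlt s h).filter_mono nhdsWithin_le_nhds).symm,
        e2.congr' ((hlt s h).filter_mono nhdsWithin_le_nhds).symm, e3⟩
    · rw [h]
      exact ⟨θp b, θm b, a2.congr' hbr.symm, b1.congr' hbl.symm, hG b⟩
    · obtain ⟨r, l, e1, e2, e3⟩ := g2 s ⟨h, hs.2⟩
      exact ⟨r, l, e1.congr' ((hgt s h).filter_mono nhdsWithin_le_nhds).symm,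
        e2.congr' ((hgt s h).filter_mono nhdsWithin_le_nhds).symm, e3⟩
  · exact a1.congr' ((hlt a hab).filter_mono nhdsWithin_le_nhds).symm
  · exact b2.congr' ((hgt c hbc).filter_mono nhdsWithin_le_nhds).symm

theorem RR.of_cont {cr cl dr dl θp θm : ℝ → ℂ} {a b : ℝ} {Θ : ℝ → ℂ} (hΘ : Continuous Θ)
    (hV : ∀ s ∈ Ioo a b, Vd (cr s) (cl s) (dr s) (dl s) (Θ s)) (ha : Θ a = θp a)
    (hb : Θ b = θm b) : RR cr cl dr dl θp θm a b := by
  refine ⟨Θ, fun s hs => (hV s hs).ne, fun s hs => ⟨Θ s, Θ s, ?_, ?_, (hV s hs).good⟩, ?_, ?_⟩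
  · exact hΘ.continuousAt.tendsto.mono_left nhdsWithin_le_nhds
  · exact hΘ.continuousAt.tendsto.mono_left nhdsWithin_le_nhds
  · rw [← ha]; exact hΘ.continuousAt.tendsto.mono_left nhdsWithin_le_nhds
  · rw [← hb]; exact hΘ.continuousAt.tendsto.mono_left nhdsWithin_le_nhds

theorem RR.right {cr cl dr dl θp θm : ℝ → ℂ} {x y ex ey : ℝ} (hey : 0 < ey)
    (hx : ∀ s, x < s → s < x + ex → Vd (cr s) (cl s) (dr s) (dl s) (θp x))
    (hy : ∀ s, y - ey < s → s < y → Vd (cr s) (cl s) (dr s) (dl s) (θm y))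
    (hxy : x < y) (hyx : y < x + ex) : RR cr cl dr dl θp θm x y := by
  set δ := min ey (y - x) with hδ
  have hδ0 : 0 < δ := lt_min hey (by linarith)
  have hδ1 : δ ≤ ey := min_le_left _ _
  have hδ2 : δ ≤ y - x := min_le_right _ _
  refine RR.of_cont (Θ := fun s => ((1 - max 0 ((s - (y - δ)) / δ) : ℝ) : ℂ) * θp x +
    ((max 0 ((s - (y - δ)) / δ) : ℝ) : ℂ) * θm y) (by fun_prop) ?_ ?_ ?_
  · intro s hs
    rcases le_or_gt s (y - δ) with h | h
    · have : max 0 ((s - (y - δ)) / δ) = 0 := by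
        rw [max_eq_left]
        apply div_nonpos_of_nonpos_of_nonneg <;> linarith
      simp only [this, sub_zero, Complex.ofReal_one, one_mul, Complex.ofReal_zero, zero_mul,
        add_zero]
      exact hx s hs.1 (by linarith [hs.2])
    · refine Vd.comb (hx s hs.1 (by linarith [hs.2])) (hy s (by linarith) hs.2) (le_max_left _ _) ?_
      refine max_le zero_le_one ?_
      rw [div_le_one hδ0]
      linarith [hs.2]
  · have : max 0 ((x - (y - δ)) / δ) = 0 := by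
      rw [max_eq_left]
      apply div_nonpos_of_nonpos_of_nonneg <;> linarith
    simp only [this, sub_zero, Complex.ofReal_one, one_mul, Complex.ofReal_zero, zero_mul,
      add_zero]
  · have : max 0 ((y - (y - δ)) / δ) = 1 := by
      rw [show y - (y - δ) = δ by ring, div_self hδ0.ne']
      exact max_eq_right zero_le_one
    simp only [this, sub_self, Complex.ofReal_one, one_mul, Complex.ofReal_zero, zero_mul,
      zero_add]

theorem RR.left {cr cl dr dl θp θm : ℝ → ℂ} {x y ex ey : ℝ} (hey : 0 < ey)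
    (hx : ∀ s, x - ex < s → s < x → Vd (cr s) (cl s) (dr s) (dl s) (θm x))
    (hy : ∀ s, y < s → s < y + ey → Vd (cr s) (cl s) (dr s) (dl s) (θp y))
    (hxy : x - ex < y) (hyx : y < x) : RR cr cl dr dl θp θm y x := by
  set δ := min ey (x - y) with hδ
  have hδ0 : 0 < δ := lt_min hey (by linarith)
  have hδ1 : δ ≤ ey := min_le_left _ _
  have hδ2 : δ ≤ x - y := min_le_right _ _
  refine RR.of_cont (Θ := fun s => ((1 - min 1 ((s - y) / δ) : ℝ) : ℂ) * θp y +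
    ((min 1 ((s - y) / δ) : ℝ) : ℂ) * θm x) (by fun_prop) ?_ ?_ ?_
  · intro s hs
    rcases le_or_gt (y + δ) s with h | h
    · have : min 1 ((s - y) / δ) = 1 := by
        rw [min_eq_left]
        rw [one_le_div hδ0]
        linarith
      simp only [this, sub_self, Complex.ofReal_one, one_mul, Complex.ofReal_zero, zero_mul,
        zero_add]
      exact hx s (by linarith [hs.1]) hs.2
    · refine Vd.comb (hy s hs.1 (by linarith)) (hx s (by linarith [hs.1]) hs.2) ?_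
        (min_le_left _ _)
      refine le_min zero_le_one ?_
      apply div_nonneg <;> linarith [hs.1]
  · have : min 1 ((y - y) / δ) = 0 := by
      rw [sub_self, zero_div]
      exact min_eq_right zero_le_one
    simp only [this, sub_zero, Complex.ofReal_one, one_mul, Complex.ofReal_zero, zero_mul,
      add_zero]
  · have : min 1 ((x - y) / δ) = 1 := by
      rw [min_eq_left]
      rw [one_le_div hδ0]
      linarith
    simp only [this, sub_self, Complex.ofReal_one, one_mul, Complex.ofReal_zero, zero_mul,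
      zero_add]

theorem lim_near {f : ℝ → ℂ} {a b s κ : ℝ} {l r : ℂ} (h : ∀ t, a < t → t < b → ‖f t - r‖ ≤ κ)
    (has : a < s) (hsb : s < b) {F : Filter ℝ} [F.NeBot] (hF : F ≤ 𝓝 s) (hl : Tendsto f F (𝓝 l)) :
    ‖l - r‖ ≤ κ := by
  refine le_of_tendsto (hl.sub_const r).norm (hF ?_)
  filter_upwards [Ioo_mem_nhds has hsb] with t ht
  exact h t ht.1 ht.2

theorem Vd.near {θ r₁ r₂ z₁ z₁' z₂ z₂' : ℂ} {g κ : ℝ} (hg : 0 < g) (h1 : 2 * g ≤ (θ * r₁).re)
    (h2 : 2 * g ≤ (θ * r₂).re) (hκ : ‖θ‖ * κ ≤ g / 4) (a1 : ‖z₁ - r₁‖ ≤ κ) (a1' : ‖z₁' - r₁‖ ≤ κ)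
    (a2 : ‖z₂ - r₂‖ ≤ κ) (a2' : ‖z₂' - r₂‖ ≤ κ) : Vd z₁ z₁' z₂ z₂' θ := by
  have key : ∀ z r : ℂ, ‖z - r‖ ≤ κ → ‖θ * z - θ * r‖ ≤ g / 4 := by
    intro z r h
    rw [← mul_sub, norm_mul]
    exact (mul_le_mul_of_nonneg_left h (norm_nonneg _)).trans hκ
  have hre : ∀ z r : ℂ, 2 * g ≤ (θ * r).re → ‖z - r‖ ≤ κ → g ≤ (θ * z).re := by
    intro z r h h'
    have h3 := (Complex.abs_re_le_norm (θ * z - θ * r)).trans (key z r h')
    rw [Complex.sub_re] at h3
    have := (abs_le.mp h3).1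
    linarith
  have hdf : ∀ z z' r : ℂ, ‖z - r‖ ≤ κ → ‖z' - r‖ ≤ κ → ‖θ * z - θ * z'‖ ≤ g / 2 := by
    intro z z' r h h'
    have h3 := norm_sub_le (θ * z - θ * r) (θ * z' - θ * r)
    rw [sub_sub_sub_cancel_right] at h3
    have := key z r h
    have := key z' r h'
    linarith
  exact ⟨g, hg, hre _ _ h1 a1, hre _ _ h1 a1', hre _ _ h2 a2, hre _ _ h2 a2',
    hdf _ _ _ a1 a1', hdf _ _ _ a2 a2'⟩

theorem near_right {f : ℝ → ℂ} {x : ℝ} {r : ℂ} (h : Tendsto f (𝓝[>] x) (𝓝 r)) {κ : ℝ}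
    (hκ : 0 < κ) : ∃ e : ℝ, 0 < e ∧ ∀ s, x < s → s < x + e → ‖f s - r‖ ≤ κ := by
  obtain ⟨e, he, h1⟩ := Metric.tendsto_nhdsWithin_nhds.mp h κ hκ
  refine ⟨e, he, fun s hs hs' => ?_⟩
  have := h1 (mem_Ioi.mpr hs) (by rw [Real.dist_eq, abs_of_pos (by linarith)]; linarith)
  rw [dist_eq_norm] at this
  exact this.le

theorem near_left {f : ℝ → ℂ} {x : ℝ} {r : ℂ} (h : Tendsto f (𝓝[<] x) (𝓝 r)) {κ : ℝ}
    (hκ : 0 < κ) : ∃ e : ℝ, 0 < e ∧ ∀ s, x - e < s → s < x → ‖f s - r‖ ≤ κ := by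
  obtain ⟨e, he, h1⟩ := Metric.tendsto_nhdsWithin_nhds.mp h κ hκ
  refine ⟨e, he, fun s hs hs' => ?_⟩
  have := h1 (mem_Iio.mpr hs') (by rw [Real.dist_eq, abs_of_neg (by linarith)]; linarith)
  rw [dist_eq_norm] at this
  exact this.le

theorem shift_right {f : Circ → ℂ} {x : ℝ} {r : ℂ} (k : ℤ) (h : RLim f x r) :
    RLim f (x - k) r := by
  unfold RLim at *
  have h1 : Tendsto (fun s : ℝ => s + k) (𝓝[>] (x - k)) (𝓝[>] x) := by
    refine tendsto_nhdsWithin_iff.mpr ⟨?_, ?_⟩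
    · have : Tendsto (fun s : ℝ => s + k) (𝓝 (x - k)) (𝓝 (x - k + k)) :=
        (continuous_id.add continuous_const).tendsto _
      rw [sub_add_cancel] at this
      exact this.mono_left nhdsWithin_le_nhds
    · filter_upwards [self_mem_nhdsWithin] with s hs
      have := mem_Ioi.mp hs
      exact mem_Ioi.mpr (by linarith)
  refine (h.comp h1).congr fun s => ?_
  have : ((s + k : ℝ) : AddCircle (1:ℝ)) = (s : AddCircle (1:ℝ)) := by
    have h2 : ((k : ℝ) : AddCircle (1:ℝ)) = 0 := (AddCircle.coe_eq_zero_iff 1).mpr ⟨k, by simp⟩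
    rw [AddCircle.coe_add, h2, add_zero]
  simp only [Function.comp_apply]
  rw [this]

theorem shift_left {f : Circ → ℂ} {x : ℝ} {r : ℂ} (k : ℤ) (h : LLim f x r) :
    LLim f (x - k) r := by
  unfold LLim at *
  have h1 : Tendsto (fun s : ℝ => s + k) (𝓝[<] (x - k)) (𝓝[<] x) := by
    refine tendsto_nhdsWithin_iff.mpr ⟨?_, ?_⟩
    · have : Tendsto (fun s : ℝ => s + k) (𝓝 (x - k)) (𝓝 (x - k + k)) :=
        (continuous_id.add continuous_const).tendsto _
      rw [sub_add_cancel] at this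
      exact this.mono_left nhdsWithin_le_nhds
    · filter_upwards [self_mem_nhdsWithin] with s hs
      have := mem_Iio.mp hs
      exact mem_Iio.mpr (by linarith)
  refine (h.comp h1).congr fun s => ?_
  have : ((s + k : ℝ) : AddCircle (1:ℝ)) = (s : AddCircle (1:ℝ)) := by
    have h2 : ((k : ℝ) : AddCircle (1:ℝ)) = 0 := (AddCircle.coe_eq_zero_iff 1).mpr ⟨k, by simp⟩
    rw [AddCircle.coe_add, h2, add_zero]
  simp only [Function.comp_apply]
  rw [this]

theorem tendsto_sub_right (x k : ℝ) : Tendsto (fun s : ℝ => s - k) (𝓝[>] x) (𝓝[>] (x - k)) := by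
  refine tendsto_nhdsWithin_iff.mpr ⟨?_, ?_⟩
  · exact ((continuous_id.sub continuous_const).tendsto _).mono_left nhdsWithin_le_nhds
  · filter_upwards [self_mem_nhdsWithin] with s hs
    have := mem_Ioi.mp hs
    exact mem_Ioi.mpr (by linarith)

theorem tendsto_sub_left (x k : ℝ) : Tendsto (fun s : ℝ => s - k) (𝓝[<] x) (𝓝[<] (x - k)) := by
  refine tendsto_nhdsWithin_iff.mpr ⟨?_, ?_⟩
  · exact ((continuous_id.sub continuous_const).tendsto _).mono_left nhdsWithin_le_nhds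
  · filter_upwards [self_mem_nhdsWithin] with s hs
    have := mem_Iio.mp hs
    exact mem_Iio.mpr (by linarith)

/-- the multiplier on the circle -/
noncomputable def lift (Θ : ℝ → ℂ) (t : Circ) : ℂ :=
  if ((AddCircle.equivIco (1:ℝ) 0 t : Ico (0:ℝ) (0 + 1)) : ℝ) = 0 then 1 else
    Θ ((AddCircle.equivIco (1:ℝ) 0 t : Ico (0:ℝ) (0 + 1)) : ℝ)

theorem lift_coe (Θ : ℝ → ℂ) (s : ℝ) :
    lift Θ (s : AddCircle (1:ℝ)) = if Int.fract s = 0 then 1 else Θ (Int.fract s) := by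
  have h : ((AddCircle.equivIco (1:ℝ) 0 (s : AddCircle (1:ℝ)) : Ico (0:ℝ) (0 + 1)) : ℝ) =
      Int.fract s := by
    have := AddCircle.coe_equivIco_mk_apply (p := (1:ℝ)) s
    rw [div_one, mul_one] at this
    exact this
  unfold lift
  rw [h]

theorem lift_sub (Θ : ℝ → ℂ) {s : ℝ} {k : ℤ} (h0 : (k : ℝ) < s) (h1 : s < k + 1) :
    lift Θ (s : AddCircle (1:ℝ)) = Θ (s - k) := by
  have hf : Int.fract s = s - k := by
    rw [Int.fract_eq_iff]
    exact ⟨by linarith, by linarith, k, by ring⟩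
  rw [lift_coe, hf, if_neg (by linarith)]

theorem lift_right {Θ : ℝ → ℂ} {x : ℝ} {k : ℤ} {r : ℂ} (h0 : (k : ℝ) ≤ x) (h1 : x < k + 1)
    (h : Tendsto Θ (𝓝[>] (x - k)) (𝓝 r)) : RLim (lift Θ) x r := by
  refine (h.comp (tendsto_sub_right x k)).congr' ?_
  filter_upwards [Ioo_mem_nhdsGT h1] with s hs
  rw [lift_sub Θ (lt_of_le_of_lt h0 hs.1) hs.2]
  rfl

theorem lift_left {Θ : ℝ → ℂ} {x : ℝ} {k : ℤ} {l : ℂ} (h0 : (k : ℝ) < x) (h1 : x ≤ k + 1)
    (h : Tendsto Θ (𝓝[<] (x - k)) (𝓝 l)) : LLim (lift Θ) x l := by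
  refine (h.comp (tendsto_sub_left x k)).congr' ?_
  filter_upwards [Ioo_mem_nhdsLT h0] with s hs
  rw [lift_sub Θ hs.1 (lt_of_lt_of_le hs.2 h1)]
  rfl

theorem exists_pos_two {a b : ℝ} (ha : 0 < a) (hb : 0 < b) :
    ∃ g : ℝ, 0 < g ∧ 2 * g ≤ a ∧ 2 * g ≤ b :=
  ⟨min a b / 2, half_pos (lt_min ha hb), by linarith [min_le_left a b],
    by linarith [min_le_right a b]⟩

theorem exists_kappa (θ : ℂ) {g : ℝ} (hg : 0 < g) : ∃ κ : ℝ, 0 < κ ∧ ‖θ‖ * κ ≤ g / 4 := by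
  refine ⟨g / 4 / (1 + ‖θ‖), by positivity, ?_⟩
  have h : 0 < 1 + ‖θ‖ := by positivity
  rw [mul_div_assoc', div_le_iff₀ h]
  nlinarith [norm_nonneg θ]

end Th

open Th

theorem theta_ok : TaskTheta := by
  intro c d hc hd hyp
  choose cl hcl using fun x : ℝ => (hc x).1
  choose cr hcr using fun x : ℝ => (hc x).2
  choose dl hdl using fun x : ℝ => (hd x).1
  choose dr hdr using fun x : ℝ => (hd x).2
  choose tp tm ht using fun x : ℝ =>
    hyp x (cr x) (cl x) (dr x) (dl x) (hcr x) (hcl x) (hdr x) (hdl x)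
  have hcrf : ∀ (x : ℝ) (k : ℤ), cr (x - k) = cr x := fun x k =>
    tendsto_nhds_unique (hcr _) (shift_right k (hcr x))
  have hclf : ∀ (x : ℝ) (k : ℤ), cl (x - k) = cl x := fun x k =>
    tendsto_nhds_unique (hcl _) (shift_left k (hcl x))
  have hdrf : ∀ (x : ℝ) (k : ℤ), dr (x - k) = dr x := fun x k =>
    tendsto_nhds_unique (hdr _) (shift_right k (hdr x))
  have hdlf : ∀ (x : ℝ) (k : ℤ), dl (x - k) = dl x := fun x k =>
    tendsto_nhds_unique (hdl _) (shift_left k (hdl x))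
  set θp : ℝ → ℂ := fun x => tp (Int.fract x) with hθp
  set θm : ℝ → ℂ := fun x => tm (Int.fract x) with hθm
  have hG : ∀ x, Good (θp x * cr x) (θp x * dr x) (θm x * cl x) (θm x * dl x) := by
    intro x
    have h := ht (Int.fract x)
    rw [← hcrf x ⌊x⌋, ← hclf x ⌊x⌋, ← hdrf x ⌊x⌋, ← hdlf x ⌊x⌋]
    exact h
  have hloc : ∀ x, ∃ e : ℝ, 0 < e ∧
      (∀ s, x < s → s < x + e → Vd (cr s) (cl s) (dr s) (dl s) (θp x)) ∧
      (∀ s, x - e < s → s < x → Vd (cr s) (cl s) (dr s) (dl s) (θm x)) := by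
    intro x
    obtain ⟨g1, g2, g3, g4, -⟩ := hG x
    obtain ⟨g, hg, hg1, hg2⟩ := exists_pos_two g1 g2
    obtain ⟨g', hg', hg1', hg2'⟩ := exists_pos_two g3 g4
    obtain ⟨κ, hκ, hκ1⟩ := exists_kappa (θp x) hg
    obtain ⟨κ', hκ', hκ1'⟩ := exists_kappa (θm x) hg'
    obtain ⟨e1, he1, h1⟩ := near_right (hcr x) hκ
    obtain ⟨e2, he2, h2⟩ := near_right (hdr x) hκ
    obtain ⟨e3, he3, h3⟩ := near_left (hcl x) hκ'
    obtain ⟨e4, he4, h4⟩ := near_left (hdl x) hκ'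
    refine ⟨min (min e1 e2) (min e3 e4), lt_min (lt_min he1 he2) (lt_min he3 he4), ?_, ?_⟩
    · intro s hs hs'
      have hm := min_le_left (min e1 e2) (min e3 e4)
      have hm1 := min_le_left e1 e2
      have hm2 := min_le_right e1 e2
      refine Vd.near hg hg1 hg2 hκ1 ?_ ?_ ?_ ?_
      · exact lim_near h1 hs (by linarith) nhdsWithin_le_nhds (hcr s)
      · exact lim_near h1 hs (by linarith) nhdsWithin_le_nhds (hcl s)
      · exact lim_near h2 hs (by linarith) nhdsWithin_le_nhds (hdr s)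
      · exact lim_near h2 hs (by linarith) nhdsWithin_le_nhds (hdl s)
    · intro s hs hs'
      have hm := min_le_right (min e1 e2) (min e3 e4)
      have hm1 := min_le_left e3 e4
      have hm2 := min_le_right e3 e4
      refine Vd.near hg' hg1' hg2' hκ1' ?_ ?_ ?_ ?_
      · exact lim_near h3 (by linarith) hs' nhdsWithin_le_nhds (hcr s)
      · exact lim_near h3 (by linarith) hs' nhdsWithin_le_nhds (hcl s)
      · exact lim_near h4 (by linarith) hs' nhdsWithin_le_nhds (hdr s)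
      · exact lim_near h4 (by linarith) hs' nhdsWithin_le_nhds (hdl s)
  choose e he hr hl using hloc
  have hRR : RR cr cl dr dl θp θm 0 1 :=
    chain _ (fun a b c hab hbc h1 h2 => RR.trans hG hab hbc h1 h2) e he
      (fun x y hxy hyx => RR.right (he y) (hr x) (hl y) hxy hyx)
      (fun x y h1 h2 => RR.left (he y) (hl x) (hr y) h1 h2) 0 1 zero_lt_one
  obtain ⟨Θ, hne, hg, ha, hb⟩ := hRR
  have hθ1 : θm 1 = θm 0 := by
    simp only [hθm, Int.fract_one, Int.fract_zero]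
  have hlim : ∀ x : ℝ, ∃ r l, RLim (lift Θ) x r ∧ LLim (lift Θ) x l ∧
      Good (r * cr x) (r * dr x) (l * cl x) (l * dl x) := by
    intro x
    have hfl := Int.floor_le x
    have hfl1 := Int.lt_floor_add_one x
    rcases hfl.eq_or_lt with h | h
    · refine ⟨θp 0, θm 0, lift_right (k := ⌊x⌋) hfl hfl1 ?_, ?_, ?_⟩
      · rw [h, sub_self]
        exact ha
      · refine lift_left (k := ⌊x⌋ - 1) (by push_cast; linarith) (by push_cast; linarith) ?_
        have : x - ((⌊x⌋ - 1 : ℤ) : ℝ) = 1 := by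
          push_cast
          linarith
        rw [this, ← hθ1]
        exact hb
      · have h0 := hG 0
        have hx : x - (⌊x⌋ : ℝ) = 0 := by linarith
        rw [← hcrf x ⌊x⌋, ← hclf x ⌊x⌋, ← hdrf x ⌊x⌋, ← hdlf x ⌊x⌋, hx]
        exact h0
    · obtain ⟨r, l, e1, e2, e3⟩ := hg (x - ⌊x⌋) ⟨by linarith, by linarith⟩
      refine ⟨r, l, lift_right hfl hfl1 e1, lift_left h hfl1.le e2, ?_⟩
      rw [← hcrf x ⌊x⌋, ← hclf x ⌊x⌋, ← hdrf x ⌊x⌋, ← hdlf x ⌊x⌋]
      exact e3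
  refine ⟨lift Θ, ?_, ?_, ?_⟩
  · intro x
    obtain ⟨r, l, h1, h2, -⟩ := hlim x
    exact ⟨⟨l, h2⟩, ⟨r, h1⟩⟩
  · intro t
    unfold lift
    have hmem := (AddCircle.equivIco (1:ℝ) 0 t : Ico (0:ℝ) (0 + 1)).2
    split_ifs with h
    · exact one_ne_zero
    · exact hne _ ⟨lt_of_le_of_ne hmem.1 (Ne.symm h), by simpa using hmem.2⟩
  · intro x cp cm dp dm θp' θm' k1 k2 k3 k4 k5 k6
    obtain ⟨r, l, h1, h2, h3⟩ := hlim x
    have e1 : cp = cr x := tendsto_nhds_unique k1 (hcr x)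
    have e2 : cm = cl x := tendsto_nhds_unique k2 (hcl x)
    have e3 : dp = dr x := tendsto_nhds_unique k3 (hdr x)
    have e4 : dm = dl x := tendsto_nhds_unique k4 (hdl x)
    have e5 : θp' = r := tendsto_nhds_unique k5 h1
    have e6 : θm' = l := tendsto_nhds_unique k6 h2
    rw [e1, e2, e3, e4, e5, e6]
    exact h3

end Pool.Agent.H199BE
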