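import Pool.Agent.H199BE.Stmts

set_option autoImplicit false
open MeasureTheory Filter Topology

namespace Pool.Agent.H199BE

theorem amgm_aux (x y A B : ℝ) (hx : 0 ≤ x) (hy : 0 ≤ y) :
    2 * Real.sqrt (x * y) * (A * B) ≤ x * A ^ 2 + y * B ^ 2 := by
  rw [Real.sqrt_mul hx]
  have h1 := Real.sq_sqrt hx
  have h2 := Real.sq_sqrt hy
  nlinarith [sq_nonneg (Real.sqrt x * A - Real.sqrt y * B)]

theorem twoProj_ok : TaskTwoProj := by
  rintro p1 q1 p2 q2 ⟨h1, h2, h3, h4, h5⟩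
  -- continuity: choose γ
  set z : ℂ := (p1 - q1) + (starRingEnd ℂ) (p2 - q2) with hz
  have hcont : Tendsto (fun γ : ℝ => 2 * Real.sqrt ((q1.re - γ) * (q2.re - γ))
      + 2 * Real.sqrt ((p1.re - γ) * (p2.re - γ))) (𝓝[>] 0)
      (𝓝 (2 * Real.sqrt ((q1.re - 0) * (q2.re - 0)) + 2 * Real.sqrt ((p1.re - 0) * (p2.re - 0)))) := by
    apply Tendsto.mono_left _ nhdsWithin_le_nhds
    apply Continuous.tendsto
    fun_prop
  have h6 : ‖z‖ < 2 * Real.sqrt ((q1.re - 0) * (q2.re - 0)) + 2 * Real.sqrt ((p1.re - 0) * (p2.re - 0)) := by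
    simpa only [sub_zero] using h5
  have ev1 := hcont.eventually (lt_mem_nhds h6)
  have ev2 : ∀ᶠ γ : ℝ in 𝓝[>] 0, 0 < γ := self_mem_nhdsWithin
  have evx : ∀ c : ℝ, 0 < c → ∀ᶠ γ : ℝ in 𝓝[>] 0, γ < c := fun c hc =>
    nhdsWithin_le_nhds (gt_mem_nhds hc)
  obtain ⟨γ, g1, g2, g3, g4, g5, g6⟩ := (ev1.and (ev2.and ((evx _ h1).and ((evx _ h2).and
    ((evx _ h3).and (evx _ h4)))))).exists
  refine ⟨γ, g2, ?_⟩
  intro P hPs hPP u v huv
  have hPadj : ∀ x y : L2, inner ℂ (P x) y = inner ℂ x (P y) := by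
    intro x y
    rw [ContinuousLinearMap.isSelfAdjoint_iff'] at hPs
    have := ContinuousLinearMap.adjoint_inner_left P y x
    rwa [hPs] at this
  have hPi : ∀ x : L2, P (P x) = P x := by
    intro x
    have := congrArg (fun L : L2 →L[ℂ] L2 => L x) hPP
    simpa using this
  have nP : ∀ x : L2, inner ℂ (P x) x = ((‖P x‖ ^ 2 : ℝ) : ℂ) := by
    intro x
    calc inner ℂ (P x) x = inner ℂ x (P x) := hPadj x x
      _ = inner ℂ x (P (P x)) := by rw [hPi]
      _ = inner ℂ (P x) (P x) := (hPadj x (P x)).symm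
      _ = _ := by rw [inner_self_eq_norm_sq_to_K]; push_cast; rfl
  have ort : ∀ x y : L2, inner ℂ (x - P x) (P y) = 0 := by
    intro x y
    rw [inner_sub_left, hPadj x (P y), hPi, sub_self]
  have nQ : ∀ x : L2, inner ℂ (x - P x) x = ((‖x - P x‖ ^ 2 : ℝ) : ℂ) := by
    intro x
    calc inner ℂ (x - P x) x = inner ℂ (x - P x) ((x - P x) + P x) := by
          rw [sub_add_cancel]
      _ = inner ℂ (x - P x) (x - P x) := by rw [inner_add_right, ort, add_zero]
      _ = _ := by rw [inner_self_eq_norm_sq_to_K]; push_cast; rfl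
  have pyth : ∀ x : L2, ‖x‖ ^ 2 = ‖P x‖ ^ 2 + ‖x - P x‖ ^ 2 := by
    intro x
    have e : inner ℂ x x = inner ℂ (P x) x + inner ℂ (x - P x) x := by
      rw [← inner_add_left]; congr 1; abel
    rw [nP, nQ, inner_self_eq_norm_sq_to_K] at e
    have e' := congrArg Complex.re e
    have e3 : (((‖x‖ : ℂ)) ^ 2).re = ‖x‖ ^ 2 := by
      rw [← Complex.ofReal_pow, Complex.ofReal_re]
    simp only [Complex.add_re, Complex.ofReal_re] at e'
    rw [← e', ← e3]; rfl
  -- basic inner products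
  set w : ℂ := inner ℂ (P u) v with hw
  have huv' : inner ℂ v u = 0 := by rw [← inner_conj_symm, huv, map_zero]
  have a1 : inner ℂ (P u) (P v) = w := by rw [hPadj u (P v), hPi, ← hPadj]
  have a2 : inner ℂ (P v) u = (starRingEnd ℂ) w := by
    rw [hPadj v u, ← inner_conj_symm]
  have a3 : inner ℂ (u - P u) v = -w := by rw [inner_sub_left, huv, zero_sub]
  have a4 : inner ℂ (v - P v) u = -(starRingEnd ℂ) w := by rw [inner_sub_left, huv', a2, zero_sub]
  have a5 : inner ℂ (u - P u) (v - P v) = -w := by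
    rw [inner_sub_right, ort, sub_zero, a3]
  have n1 : ‖w‖ ≤ ‖P u‖ * ‖P v‖ := by rw [← a1]; exact norm_inner_le_norm _ _
  have n2 : ‖w‖ ≤ ‖u - P u‖ * ‖v - P v‖ := by
    rw [← norm_neg, ← a5]; exact norm_inner_le_norm _ _
  -- the value of the form
  have f1 : (inner ℂ (P (u + v)) ((starRingEnd ℂ) p1 • u + (starRingEnd ℂ) p2 • v)).re
      = p1.re * ‖P u‖ ^ 2 + p2.re * ‖P v‖ ^ 2
        + (p1 * w + (starRingEnd ℂ) p2 * w).re := by
    rw [map_add, inner_add_left, inner_add_right, inner_add_right, inner_smul_right,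
      inner_smul_right, inner_smul_right, inner_smul_right, nP, nP, a2]
    simp only [Complex.add_re, Complex.mul_re, Complex.conj_re, Complex.conj_im,
      Complex.ofReal_re, Complex.ofReal_im, ← hw]
    ring
  have f2 : (inner ℂ ((u + v) - P (u + v)) ((starRingEnd ℂ) q1 • u + (starRingEnd ℂ) q2 • v)).re
      = q1.re * ‖u - P u‖ ^ 2 + q2.re * ‖v - P v‖ ^ 2
        - (q1 * w + (starRingEnd ℂ) q2 * w).re := by
    have e : (u + v) - P (u + v) = (u - P u) + (v - P v) := by rw [map_add]; abel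
    rw [e, inner_add_left, inner_add_right, inner_add_right, inner_smul_right,
      inner_smul_right, inner_smul_right, inner_smul_right, nQ, nQ, a3, a4]
    simp only [Complex.add_re, Complex.mul_re, Complex.conj_re, Complex.conj_im,
      Complex.ofReal_re, Complex.ofReal_im, Complex.neg_re, Complex.neg_im]
    ring
  have f3 : (p1 * w + (starRingEnd ℂ) p2 * w).re - (q1 * w + (starRingEnd ℂ) q2 * w).re
      = (z * w).re := by
    rw [hz, ← Complex.sub_re]; congr 1; rw [map_sub]; ring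
  have f4 : -(‖z‖ * ‖w‖) ≤ (z * w).re := by
    have := (abs_le.1 (Complex.abs_re_le_norm (z * w))).1
    rwa [norm_mul] at this
  rw [f1, f2, pyth u, pyth v]
  have m1 := amgm_aux (q1.re - γ) (q2.re - γ) ‖u - P u‖ ‖v - P v‖ (by linarith) (by linarith)
  have m2 := amgm_aux (p1.re - γ) (p2.re - γ) ‖P u‖ ‖P v‖ (by linarith) (by linarith)
  have m3 : ‖z‖ * ‖w‖ ≤ (2 * Real.sqrt ((q1.re - γ) * (q2.re - γ))
      + 2 * Real.sqrt ((p1.re - γ) * (p2.re - γ))) * ‖w‖ :=
    mul_le_mul_of_nonneg_right g1.le (norm_nonneg _)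
  have m4 : 2 * Real.sqrt ((q1.re - γ) * (q2.re - γ)) * ‖w‖
      ≤ 2 * Real.sqrt ((q1.re - γ) * (q2.re - γ)) * (‖u - P u‖ * ‖v - P v‖) :=
    mul_le_mul_of_nonneg_left n2 (by positivity)
  have m5 : 2 * Real.sqrt ((p1.re - γ) * (p2.re - γ)) * ‖w‖
      ≤ 2 * Real.sqrt ((p1.re - γ) * (p2.re - γ)) * (‖P u‖ * ‖P v‖) :=
    mul_le_mul_of_nonneg_left n1 (by positivity)
  nlinarith [m1, m2, m3, m4, m5, f3, f4]

end Pool.Agent.H199BE
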